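import Mathlib

/-!
Convexity and counting inequalities for the lower half of the average over every set.
-/

set_option autoImplicit false

namespace Pool.Agent.HLE

open Finset

/-- the tangent of `s^(k+1)` at `lam` -/
lemma tangent (k : ℕ) {s lam : ℝ} (hs : 0 ≤ s) (hl : 0 ≤ lam) :
    lam ^ (k + 1) + (k + 1) * lam ^ k * (s - lam) ≤ s ^ (k + 1) := by
  induction k with
  | zero => simp
  | succ k ih =>
    have h1 := mul_le_mul_of_nonneg_left ih hs
    have h2 : 0 ≤ ((k:ℝ) + 1) * lam ^ k * (s - lam) ^ 2 := by positivity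
    push_cast
    calc lam ^ (k + 1 + 1) + ((k:ℝ) + 1 + 1) * lam ^ (k + 1) * (s - lam)
        = s * (lam ^ (k + 1) + ((k:ℝ) + 1) * lam ^ k * (s - lam)) -
          ((k:ℝ) + 1) * lam ^ k * (s - lam) ^ 2 := by ring
      _ ≤ s * s ^ (k + 1) := by linarith
      _ = s ^ (k + 1 + 1) := by ring

/-- a lower bound for `t (t-1) ... (t-k)`, linear in `t` -/
lemma choose_tangent (k t : ℕ) {lam : ℝ} (hl : 0 ≤ lam) :
    lam ^ (k + 1) + (k + 1) * lam ^ k * ((t:ℝ) - k - lam) ≤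
      ((k + 1).factorial : ℝ) * (t.choose (k + 1) : ℝ) := by
  have h1 : (t - k) ^ (k + 1) ≤ (k + 1).factorial * t.choose (k + 1) := by
    rw [← Nat.descFactorial_eq_factorial_mul_choose]
    have := Nat.pow_sub_le_descFactorial t (k + 1)
    rwa [Nat.add_sub_add_right] at this
  have h2 : (((t - k : ℕ) : ℝ)) ^ (k + 1) ≤ ((k + 1).factorial : ℝ) * (t.choose (k + 1) : ℝ) := by
    exact_mod_cast h1
  have h3 := tangent k (s := ((t - k : ℕ) : ℝ)) (Nat.cast_nonneg _) hl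
  have h4 : (t:ℝ) - k ≤ ((t - k : ℕ) : ℝ) := by
    rw [sub_le_iff_le_add]
    exact_mod_cast (by omega : t ≤ t - k + k)
  have h5 : ((k:ℝ) + 1) * lam ^ k * ((t:ℝ) - k - lam) ≤
      ((k:ℝ) + 1) * lam ^ k * (((t - k : ℕ) : ℝ) - lam) :=
    mul_le_mul_of_nonneg_left (by linarith) (by positivity)
  linarith

/-- the binomial moment of a family whose mean is at least `lam` -/
lemma sum_choose_ge (k : ℕ) (S : Finset ℕ) (X : ℕ → ℕ) {lam : ℝ} (hl : 0 ≤ lam)
    (h : lam * S.card ≤ ∑ n ∈ S, (X n : ℝ)) :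
    (S.card : ℝ) * (lam ^ (k + 1) - (k + 1) * k * lam ^ k) ≤
      ((k + 1).factorial : ℝ) * ∑ n ∈ S, ((X n).choose (k + 1) : ℝ) := by
  rw [mul_sum]
  have h1 : ∑ n ∈ S, (lam ^ (k + 1) + ((k:ℝ) + 1) * lam ^ k * ((X n : ℝ) - k - lam)) ≤
      ∑ n ∈ S, ((k + 1).factorial : ℝ) * ((X n).choose (k + 1) : ℝ) :=
    sum_le_sum fun n _ => choose_tangent k (X n) hl
  refine le_trans ?_ h1
  rw [sum_add_distrib, sum_const, nsmul_eq_mul, ← mul_sum, sum_sub_distrib, sum_sub_distrib,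
    sum_const, sum_const, nsmul_eq_mul, nsmul_eq_mul]
  have h2 : 0 ≤ ((k:ℝ) + 1) * lam ^ k * (∑ n ∈ S, (X n : ℝ) - lam * S.card) :=
    mul_nonneg (by positivity) (by linarith)
  nlinarith [h2]

/-- if the mean of `y` is at least `2/δ` then the `k`-th moment is at most `δ` times the next -/
lemma moment_le (k W : ℕ) (y : ℕ → ℝ) (hy : ∀ a, 0 ≤ y a) {δ : ℝ} (hδ : 0 < δ)
    (h : (W:ℝ) * (2 / δ) ≤ ∑ a ∈ range W, y a) :
    ∑ a ∈ range W, y a ^ k ≤ δ * ∑ a ∈ range W, y a ^ (k + 1) := by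
  have hQ : 0 < 2 / δ := by positivity
  set Q := 2 / δ with hQd
  have h1 : ∀ a ∈ range W, y a ^ k ≤ (δ / 2) * y a ^ (k + 1) + Q ^ k := by
    intro a _
    by_cases ha : Q ≤ y a
    · have h2 : 1 ≤ (δ / 2) * y a := by
        rw [hQd, div_le_iff₀ hδ] at ha
        linarith
      have h3 : y a ^ k * 1 ≤ y a ^ k * ((δ / 2) * y a) :=
        mul_le_mul_of_nonneg_left h2 (pow_nonneg (hy a) k)
      have h4 : y a ^ k * ((δ / 2) * y a) = (δ / 2) * y a ^ (k + 1) := by ring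
      have h5 : 0 ≤ Q ^ k := by positivity
      linarith
    · push Not at ha
      have h2 : y a ^ k ≤ Q ^ k := pow_le_pow_left₀ (hy a) ha.le k
      have h3 : 0 ≤ (δ / 2) * y a ^ (k + 1) := mul_nonneg (by positivity) (pow_nonneg (hy a) _)
      linarith
  have h2 := sum_le_sum h1
  rw [sum_add_distrib, ← mul_sum, sum_const, nsmul_eq_mul, card_range] at h2
  have h3 : (W:ℝ) * Q ^ (k + 1) ≤ ∑ a ∈ range W, y a ^ (k + 1) := by
    have h4 : ∑ a ∈ range W, (Q ^ (k + 1) + ((k:ℝ) + 1) * Q ^ k * (y a - Q)) ≤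
        ∑ a ∈ range W, y a ^ (k + 1) := sum_le_sum fun a _ => tangent k (hy a) hQ.le
    rw [sum_add_distrib, sum_const, nsmul_eq_mul, ← mul_sum, sum_sub_distrib, sum_const,
      nsmul_eq_mul, card_range] at h4
    have h5 : 0 ≤ ((k:ℝ) + 1) * Q ^ k * (∑ a ∈ range W, y a - W * Q) :=
      mul_nonneg (by positivity) (by linarith)
    linarith
  have h4 : (W:ℝ) * Q ^ k = (δ / 2) * (W * Q ^ (k + 1)) := by
    have : δ / 2 * Q = 1 := by
      rw [hQd]
      field_simp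
    calc (W:ℝ) * Q ^ k = (W:ℝ) * Q ^ k * (δ / 2 * Q) := by rw [this, mul_one]
      _ = _ := by ring
  have h5 := mul_le_mul_of_nonneg_left h3 (by positivity : 0 ≤ δ / 2)
  linarith

/-- the binomial coefficient against the power -/
lemma fact_choose_le (k n : ℕ) :
    ((k + 1).factorial : ℝ) * (n.choose (k + 1) : ℝ) ≤ (n:ℝ) ^ (k + 1) := by
  have h : (k + 1).factorial * n.choose (k + 1) ≤ n ^ (k + 1) := by
    rw [← Nat.descFactorial_eq_factorial_mul_choose]
    exact Nat.descFactorial_le_pow n (k + 1)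
  exact_mod_cast h

end Pool.Agent.HLE
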