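import Mathlib
import Pool.Agent.H34P.PSh

/-!
Families of tuples in one dyadic block: for every family `G` of `(k+1)`-subsets of a set `B` of
at least `K log N` shifts the counts are at most `4 ^ k + ε` times the expected ones, up to `ε`
times the expected total over `B` (MP_485179_nt, EverySet (iii), helper34).
-/

set_option autoImplicit false

namespace Pool.Agent.HLE.Fam34

open Finset Filter Pool.Agent.HLT Pool.Agent.HL26 Pool.Agent.Maynard H34P

/-- one class: all but few of the `(m+1)`-subsets satisfy the upper bound -/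
lemma chain_class {k : ℕ} {X : Finset ℕ} {f : Finset ℕ → ℝ} {κ Λ t M : ℝ} (hκ : 0 < κ)
    (hΛ : 0 < Λ) (ht : 0 ≤ t) (hM : 0 ≤ M)
    (h0 : ∀ d ∈ X, f {d} ≤ (1 + κ) * (t / Λ))
    (hbad : ∀ F ⊆ X, F.card ≤ k → ∀ S ⊆ X, (∀ d ∈ S, d ∉ F ∧
      (4 + κ) / Λ * f F + κ * (t / Λ ^ (F.card + 1)) < f (insert d F)) → (S.card : ℝ) ≤ M) :
    ∀ m ≤ k, ∃ Y : Finset (Finset ℕ), (Y.card : ℝ) ≤ m * M * (X.card : ℝ) ^ m ∧
      ∀ E ∈ X.powersetCard (m + 1), E ∉ Y →
        f E ≤ (4 + 2 * κ) ^ m * (1 + κ) * (t / Λ ^ (m + 1)) := by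
  classical
  intro m
  induction m with
  | zero =>
    intro _
    refine ⟨∅, by simp, fun E hE _ => ?_⟩
    rw [mem_powersetCard, zero_add, card_eq_one] at hE
    obtain ⟨hEX, d, rfl⟩ := hE
    have := h0 d (hEX (mem_singleton_self d))
    simpa using this
  | succ m ih =>
    intro hm
    obtain ⟨Y, hY, hYE⟩ := ih (by omega)
    obtain ⟨Bd, hBd⟩ : ∃ Bd : Finset ℕ → Finset ℕ, ∀ F, Bd F = X.filter (fun d => d ∉ F ∧
      (4 + κ) / Λ * f F + κ * (t / Λ ^ (F.card + 1)) < f (insert d F)) := ⟨_, fun _ => rfl⟩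
    refine ⟨Y.biUnion (fun F => X.image (fun d => insert d F)) ∪
      (X.powersetCard (m + 1)).biUnion (fun F => (Bd F).image (fun d => insert d F)), ?_, ?_⟩
    · have h1 : ((Y.biUnion (fun F => X.image (fun d => insert d F)) ∪
          (X.powersetCard (m + 1)).biUnion (fun F => (Bd F).image (fun d => insert d F))).card : ℝ) ≤
          ∑ F ∈ Y, (X.card : ℝ) + ∑ F ∈ X.powersetCard (m + 1), ((Bd F).card : ℝ) := by
        have h2 : (Y.biUnion (fun F => X.image (fun d => insert d F)) ∪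
          (X.powersetCard (m + 1)).biUnion (fun F => (Bd F).image (fun d => insert d F))).card ≤
          ∑ F ∈ Y, X.card + ∑ F ∈ X.powersetCard (m + 1), (Bd F).card := by
          refine (card_union_le _ _).trans (add_le_add ?_ ?_)
          · exact card_biUnion_le.trans (sum_le_sum fun F _ => card_image_le)
          · exact card_biUnion_le.trans (sum_le_sum fun F _ => card_image_le)
        exact_mod_cast h2
      have h3 : ∑ F ∈ X.powersetCard (m + 1), ((Bd F).card : ℝ) ≤ (X.card : ℝ) ^ (m + 1) * M := by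
        have h4 : ∑ F ∈ X.powersetCard (m + 1), ((Bd F).card : ℝ) ≤
            ∑ F ∈ X.powersetCard (m + 1), M := by
          refine sum_le_sum fun F hF => ?_
          rw [mem_powersetCard] at hF
          refine hbad F hF.1 (by omega) (Bd F) ?_ ?_
          · rw [hBd]
            exact filter_subset _ _
          · intro d hd
            rw [hBd, mem_filter] at hd
            exact hd.2
        refine h4.trans ?_
        rw [sum_const, nsmul_eq_mul, card_powersetCard]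
        refine mul_le_mul_of_nonneg_right ?_ hM
        exact_mod_cast Nat.choose_le_pow _ _
      rw [sum_const, nsmul_eq_mul] at h1
      have h5 : (Y.card : ℝ) * X.card ≤ m * M * (X.card : ℝ) ^ m * X.card :=
        mul_le_mul_of_nonneg_right hY (Nat.cast_nonneg _)
      have e1 : (m:ℝ) * M * (X.card : ℝ) ^ m * X.card = m * M * (X.card : ℝ) ^ (m + 1) := by
        rw [pow_succ]; ring
      have e2 : (((m + 1 : ℕ) : ℝ)) * M * (X.card : ℝ) ^ (m + 1) =
          m * M * (X.card : ℝ) ^ (m + 1) + (X.card : ℝ) ^ (m + 1) * M := by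
        push_cast
        ring
      rw [e2]
      linarith
    · intro E hE hEY
      rw [mem_powersetCard] at hE
      obtain ⟨d, hd⟩ : E.Nonempty := by
        rw [← card_pos, hE.2]; omega
      have hF : E.erase d ∈ X.powersetCard (m + 1) := by
        rw [mem_powersetCard]
        refine ⟨(erase_subset _ _).trans hE.1, ?_⟩
        rw [card_erase_of_mem hd, hE.2]
        rfl
      have hFc : (E.erase d).card = m + 1 := (mem_powersetCard.1 hF).2
      have h1 : E.erase d ∉ Y := by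
        intro h
        apply hEY
        rw [mem_union]
        left
        rw [mem_biUnion]
        exact ⟨E.erase d, h, mem_image.2 ⟨d, hE.1 hd, insert_erase hd⟩⟩
      have h2 : d ∉ Bd (E.erase d) := by
        intro h
        apply hEY
        rw [mem_union]
        right
        rw [mem_biUnion]
        exact ⟨E.erase d, hF, mem_image.2 ⟨d, h, insert_erase hd⟩⟩
      have h3 : f E ≤ (4 + κ) / Λ * f (E.erase d) + κ * (t / Λ ^ (m + 1 + 1)) := by
        by_contra hcon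
        push Not at hcon
        apply h2
        rw [hBd, mem_filter]
        refine ⟨hE.1 hd, notMem_erase d E, ?_⟩
        rw [insert_erase hd, hFc]
        exact hcon
      have h4 := hYE _ hF h1
      refine h3.trans ?_
      have h5 := mul_le_mul_of_nonneg_left h4 (by positivity : 0 ≤ (4 + κ) / Λ)
      have e4 : (4 + κ) / Λ * ((4 + 2 * κ) ^ m * (1 + κ) * (t / Λ ^ (m + 1))) =
          (4 + κ) * ((4 + 2 * κ) ^ m * (1 + κ)) * (t / Λ ^ (m + 1 + 1)) := by
        rw [pow_succ Λ (m + 1)]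
        field_simp
      rw [e4] at h5
      have h6 : 1 ≤ (4 + 2 * κ) ^ m * (1 + κ) := by
        have := one_le_pow₀ (by linarith : 1 ≤ 4 + 2 * κ) (n := m)
        nlinarith
      have h7 : 0 ≤ t / Λ ^ (m + 1 + 1) := by positivity
      have h8 : κ * (t / Λ ^ (m + 1 + 1)) ≤
          κ * ((4 + 2 * κ) ^ m * (1 + κ)) * (t / Λ ^ (m + 1 + 1)) := by
        rw [mul_assoc]
        refine mul_le_mul_of_nonneg_left ?_ hκ.le
        exact le_mul_of_one_le_left h7 h6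
      calc _ ≤ (4 + κ) * ((4 + 2 * κ) ^ m * (1 + κ)) * (t / Λ ^ (m + 1 + 1)) +
            κ * ((4 + 2 * κ) ^ m * (1 + κ)) * (t / Λ ^ (m + 1 + 1)) :=
            add_le_add h5 h8
        _ = (4 + 2 * κ) ^ (m + 1) * (1 + κ) * (t / Λ ^ (m + 1 + 1)) := by
            rw [pow_succ (4 + 2 * κ)]
            ring

/-- one class: every family -/
lemma class_sum {k : ℕ} {X : Finset ℕ} {f : Finset ℕ → ℝ} {κ Λ t M C : ℝ} (hκ : 0 < κ)
    (hΛ : 0 < Λ) (ht : 0 ≤ t) (hM : 0 ≤ M) (hC : 0 ≤ C)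
    (h0 : ∀ d ∈ X, f {d} ≤ (1 + κ) * (t / Λ))
    (hbad : ∀ F ⊆ X, F.card ≤ k → ∀ S ⊆ X, (∀ d ∈ S, d ∉ F ∧
      (4 + κ) / Λ * f F + κ * (t / Λ ^ (F.card + 1)) < f (insert d F)) → (S.card : ℝ) ≤ M)
    (htriv : ∀ E ∈ X.powersetCard (k + 1), f E ≤ C * (t / Λ ^ (k + 1)))
    (G : Finset (Finset ℕ)) (hG : G ⊆ X.powersetCard (k + 1)) :
    ∑ E ∈ G, f E ≤ (4 + 2 * κ) ^ k * (1 + κ) * (t / Λ ^ (k + 1)) * G.card +
      k * M * (X.card : ℝ) ^ k * (C * (t / Λ ^ (k + 1))) := by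
  classical
  obtain ⟨Y, hY, hYE⟩ := chain_class hκ hΛ ht hM h0 hbad k le_rfl
  have hτ : 0 ≤ t / Λ ^ (k + 1) := by positivity
  have h1 : ∑ E ∈ G, f E ≤ ∑ E ∈ G, ((4 + 2 * κ) ^ k * (1 + κ) * (t / Λ ^ (k + 1)) +
      if E ∈ Y then C * (t / Λ ^ (k + 1)) else 0) := by
    refine sum_le_sum fun E hE => ?_
    have h2 := htriv E (hG hE)
    have h3 : 0 ≤ (4 + 2 * κ) ^ k * (1 + κ) * (t / Λ ^ (k + 1)) := by positivity
    split_ifs with h
    · linarith
    · have := hYE E (hG hE) h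
      linarith
  refine h1.trans ?_
  rw [sum_add_distrib, sum_const, nsmul_eq_mul, ← sum_filter, sum_const, nsmul_eq_mul]
  have h4 : ((G.filter (fun E => E ∈ Y)).card : ℝ) ≤ k * M * (X.card : ℝ) ^ k := by
    have h5 : (G.filter (fun E => E ∈ Y)).card ≤ Y.card :=
      card_le_card fun E hE => (mem_filter.1 hE).2
    have h6 : ((G.filter (fun E => E ∈ Y)).card : ℝ) ≤ Y.card := by exact_mod_cast h5
    exact h6.trans hY
  have h7 := mul_le_mul_of_nonneg_right h4 (by positivity : 0 ≤ C * (t / Λ ^ (k + 1)))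
  have e1 : (G.card : ℝ) * ((4 + 2 * κ) ^ k * (1 + κ) * (t / Λ ^ (k + 1))) =
      (4 + 2 * κ) ^ k * (1 + κ) * (t / Λ ^ (k + 1)) * G.card := by ring
  rw [e1]
  linarith

/-- a lower bound for binomial coefficients -/
lemma choose_lower {b k : ℕ} (hb : 2 * k ≤ b) :
    (b:ℝ) ^ (k + 1) ≤ 2 ^ (k + 1) * ((k + 1).factorial : ℝ) * (b.choose (k + 1) : ℝ) := by
  have h1 : (b + 1 - (k + 1)) ^ (k + 1) ≤ b.descFactorial (k + 1) := Nat.pow_sub_le_descFactorial b (k + 1)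
  rw [Nat.descFactorial_eq_factorial_mul_choose] at h1
  have h2 : (b:ℝ) ≤ 2 * ((b + 1 - (k + 1) : ℕ) : ℝ) := by
    have : b ≤ 2 * (b + 1 - (k + 1)) := by omega
    exact_mod_cast this
  have h3 : (b:ℝ) ^ (k + 1) ≤ (2 * ((b + 1 - (k + 1) : ℕ) : ℝ)) ^ (k + 1) :=
    pow_le_pow_left₀ (Nat.cast_nonneg _) h2 _
  have h4 : (((b + 1 - (k + 1) : ℕ) : ℝ)) ^ (k + 1) ≤
      ((k + 1).factorial : ℝ) * (b.choose (k + 1) : ℝ) := by exact_mod_cast h1
  rw [mul_pow] at h3
  have h5 := mul_le_mul_of_nonneg_left h4 (by positivity : (0:ℝ) ≤ 2 ^ (k + 1))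
  linarith

/-- comparison of moments -/
lemma moment_cmp {ι : Type} (s : Finset ι) (b : ι → ℕ) {k : ℕ} {Λ K δ c : ℝ}
    (hc : c = 2 ^ (k + 1) * ((k + 1).factorial : ℝ)) (hδ : 0 < δ) (hδc : δ ≤ c)
    (hK : K = 2 * c / δ) (hΛ : 2 * (k:ℝ) ≤ Λ) (hΛ0 : 0 < Λ)
    (hsum : K * Λ * s.card ≤ ∑ a ∈ s, (b a : ℝ)) :
    Λ * ∑ a ∈ s, (b a : ℝ) ^ k ≤ 2 * δ * ∑ a ∈ s, ((b a).choose (k + 1) : ℝ) ∧
    Λ ^ (k + 1) * s.card ≤ c * ∑ a ∈ s, ((b a).choose (k + 1) : ℝ) := by
  classical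
  have hc0 : 0 < c := by rw [hc]; positivity
  obtain ⟨R, hR⟩ : ∃ R : ℝ, R = c / δ := ⟨_, rfl⟩
  have hR1 : 1 ≤ R := by rw [hR, one_le_div hδ]; exact hδc
  have hR0 : 0 < R := by linarith
  have hRc : c = R * δ := by rw [hR]; field_simp
  have hKR : K = 2 * R := by rw [hK, hR]; ring
  obtain ⟨T, hT⟩ : ∃ T : ℝ, T = R * Λ := ⟨_, rfl⟩
  have hT0 : 0 < T := by rw [hT]; positivity
  have hTk : 2 * (k:ℝ) ≤ T := by
    rw [hT]
    calc 2 * (k:ℝ) ≤ Λ := hΛ
      _ = 1 * Λ := by ring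
      _ ≤ R * Λ := mul_le_mul_of_nonneg_right hR1 hΛ0.le
  -- the large and the small ones
  have hsplit : ∀ g : ι → ℝ, ∑ a ∈ s, g a = ∑ a ∈ s.filter (fun a => T ≤ (b a : ℝ)), g a +
      ∑ a ∈ s.filter (fun a => ¬ T ≤ (b a : ℝ)), g a := fun g =>
    (sum_filter_add_sum_filter_not s (fun a => T ≤ (b a : ℝ)) g).symm
  have hbig : ∀ a ∈ s.filter (fun a => T ≤ (b a : ℝ)),
      (b a : ℝ) ^ (k + 1) ≤ c * ((b a).choose (k + 1) : ℝ) := by
    intro a ha
    rw [hc]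
    apply choose_lower
    have h1 : 2 * (k:ℝ) ≤ b a := hTk.trans (mem_filter.1 ha).2
    exact_mod_cast h1
  have hsmall : ∑ a ∈ s.filter (fun a => ¬ T ≤ (b a : ℝ)), (b a : ℝ) ≤ T * s.card := by
    calc ∑ a ∈ s.filter (fun a => ¬ T ≤ (b a : ℝ)), (b a : ℝ) ≤
        ∑ a ∈ s.filter (fun a => ¬ T ≤ (b a : ℝ)), T :=
          sum_le_sum fun a ha => (not_le.1 (mem_filter.1 ha).2).le
      _ = (s.filter (fun a => ¬ T ≤ (b a : ℝ))).card * T := by rw [sum_const, nsmul_eq_mul]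
      _ ≤ s.card * T := by
          refine mul_le_mul_of_nonneg_right ?_ hT0.le
          exact_mod_cast card_filter_le _ _
      _ = T * s.card := by ring
  have hch0 : 0 ≤ ∑ a ∈ s.filter (fun a => ¬ T ≤ (b a : ℝ)), ((b a).choose (k + 1) : ℝ) :=
    sum_nonneg fun a _ => Nat.cast_nonneg _
  have hCh : ∑ a ∈ s.filter (fun a => T ≤ (b a : ℝ)), ((b a).choose (k + 1) : ℝ) ≤
      ∑ a ∈ s, ((b a).choose (k + 1) : ℝ) := by
    rw [hsplit (fun a => ((b a).choose (k + 1) : ℝ))]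
    linarith
  -- sum of the large `b a ^ (k+1)`
  have hlow : T ^ k * (T * s.card) ≤
      ∑ a ∈ s.filter (fun a => T ≤ (b a : ℝ)), (b a : ℝ) ^ (k + 1) := by
    have h1 : T * s.card ≤ ∑ a ∈ s.filter (fun a => T ≤ (b a : ℝ)), (b a : ℝ) := by
      have h2 := hsplit (fun a => (b a : ℝ))
      have h3 : K * Λ * s.card = 2 * (T * s.card) := by rw [hKR, hT]; ring
      linarith
    calc T ^ k * (T * s.card) ≤ T ^ k * ∑ a ∈ s.filter (fun a => T ≤ (b a : ℝ)), (b a : ℝ) :=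
          mul_le_mul_of_nonneg_left h1 (by positivity)
      _ = ∑ a ∈ s.filter (fun a => T ≤ (b a : ℝ)), T ^ k * (b a : ℝ) := mul_sum _ _ _
      _ ≤ _ := by
          refine sum_le_sum fun a ha => ?_
          rw [pow_succ]
          refine mul_le_mul_of_nonneg_right ?_ (Nat.cast_nonneg _)
          exact pow_le_pow_left₀ hT0.le (mem_filter.1 ha).2 _
  have hP : ∑ a ∈ s.filter (fun a => T ≤ (b a : ℝ)), (b a : ℝ) ^ (k + 1) ≤
      c * ∑ a ∈ s, ((b a).choose (k + 1) : ℝ) := by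
    calc _ ≤ ∑ a ∈ s.filter (fun a => T ≤ (b a : ℝ)), c * ((b a).choose (k + 1) : ℝ) :=
          sum_le_sum hbig
      _ = c * ∑ a ∈ s.filter (fun a => T ≤ (b a : ℝ)), ((b a).choose (k + 1) : ℝ) :=
          (mul_sum _ _ _).symm
      _ ≤ _ := mul_le_mul_of_nonneg_left hCh hc0.le
  -- large part
  have hA : R * (Λ * ∑ a ∈ s.filter (fun a => T ≤ (b a : ℝ)), (b a : ℝ) ^ k) ≤
      c * ∑ a ∈ s, ((b a).choose (k + 1) : ℝ) := by
    refine le_trans ?_ hP
    rw [← mul_assoc, ← hT, mul_sum]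
    refine sum_le_sum fun a ha => ?_
    rw [pow_succ, mul_comm]
    exact mul_le_mul_of_nonneg_left (mem_filter.1 ha).2 (by positivity)
  -- small part
  have hB : R * (Λ * ∑ a ∈ s.filter (fun a => ¬ T ≤ (b a : ℝ)), (b a : ℝ) ^ k) ≤
      c * ∑ a ∈ s, ((b a).choose (k + 1) : ℝ) := by
    refine le_trans ?_ (hlow.trans hP)
    rw [← mul_assoc, ← hT]
    have h1 : ∑ a ∈ s.filter (fun a => ¬ T ≤ (b a : ℝ)), (b a : ℝ) ^ k ≤ T ^ k * s.card := by
      calc ∑ a ∈ s.filter (fun a => ¬ T ≤ (b a : ℝ)), (b a : ℝ) ^ k ≤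
          ∑ a ∈ s.filter (fun a => ¬ T ≤ (b a : ℝ)), T ^ k :=
            sum_le_sum fun a ha => pow_le_pow_left₀ (Nat.cast_nonneg _)
              (not_le.1 (mem_filter.1 ha).2).le _
        _ = (s.filter (fun a => ¬ T ≤ (b a : ℝ))).card * T ^ k := by rw [sum_const, nsmul_eq_mul]
        _ ≤ s.card * T ^ k := by
            refine mul_le_mul_of_nonneg_right ?_ (by positivity)
            exact_mod_cast card_filter_le _ _
        _ = T ^ k * s.card := by ring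
    calc T * ∑ a ∈ s.filter (fun a => ¬ T ≤ (b a : ℝ)), (b a : ℝ) ^ k ≤ T * (T ^ k * s.card) :=
          mul_le_mul_of_nonneg_left h1 hT0.le
      _ = T ^ k * (T * s.card) := by ring
  have hAB : R * (Λ * ∑ a ∈ s, (b a : ℝ) ^ k) ≤
      R * (2 * δ * ∑ a ∈ s, ((b a).choose (k + 1) : ℝ)) := by
    rw [hsplit (fun a => (b a : ℝ) ^ k)]
    have e1 : R * (2 * δ * ∑ a ∈ s, ((b a).choose (k + 1) : ℝ)) =
        2 * (c * ∑ a ∈ s, ((b a).choose (k + 1) : ℝ)) := by rw [hRc]; ring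
    rw [e1]
    linarith
  refine ⟨le_of_mul_le_mul_left hAB hR0, le_trans ?_ (hlow.trans hP)⟩
  have h1 : Λ ≤ T := by
    rw [hT]
    exact le_mul_of_one_le_left hΛ0.le hR1
  have h2 : Λ ^ (k + 1) ≤ T ^ (k + 1) := pow_le_pow_left₀ hΛ0.le h1 _
  calc Λ ^ (k + 1) * s.card ≤ T ^ (k + 1) * s.card :=
        mul_le_mul_of_nonneg_right h2 (Nat.cast_nonneg _)
    _ = T ^ k * (T * s.card) := by rw [pow_succ]; ring

end Pool.Agent.HLE.Fam34
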