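import Mathlib
import Pool.Agent.HLE.Fam34

/-!
The family bound in one dyadic block (MP_485179_nt, EverySet (iii), helper34).
-/

set_option autoImplicit false

namespace Pool.Agent.HLE.Fam34

open Finset Filter Pool.Agent.HLT Pool.Agent.HL26 Pool.Agent.Maynard H34P

/-- one prime in a class -/
lemma base_one (A : ℕ) (κ : ℝ) (hκ : 0 < κ) : ∀ᶠ N : ℕ in atTop, ∀ a e : ℕ,
    (a + e).Coprime (Wp (wN N)) → (e:ℝ) ≤ (Real.log N) ^ A →
    (Aa N (wN N) a {e} : ℝ) ≤
      (1 + κ) * (((N:ℝ) / Wp (wN N)) / (cW (Wp (wN N)) * Real.log N)) := by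
  classical
  filter_upwards [ev_primes (κ / 2) (by positivity), ev_err 1 (A + 1) 0 (κ / 2) zero_le_one
    zero_lt_one (by positivity), tendsto_logN.eventually_ge_atTop 1] with N h1 h2 h3 a e hco he
  have hc0 := cW_pos' (wN N)
  have hc1 := H34P.cW_le_one (wN N)
  have hL0 : 0 < Real.log N := by linarith
  have hcard : Aa N (wN N) a {e} ≤
      ((XS N (wN N) (a + e)).filter (fun n => n.Prime)).card + e := by
    have h4 : (AE N (wN N) a {e}).image (fun n => n + e) ⊆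
        (XS N (wN N) (a + e)).filter (fun n => n.Prime) ∪ Ioc (2 * N) (2 * N + e) := by
      intro m hm
      rw [mem_image] at hm
      obtain ⟨n, hn, rfl⟩ := hm
      unfold AE XS at hn
      rw [mem_filter, mem_filter, mem_Ioc] at hn
      obtain ⟨⟨⟨ha, hb⟩, hc⟩, hd⟩ := hn
      rw [mem_union]
      by_cases hcase : n + e ≤ 2 * N
      · left
        unfold XS
        rw [mem_filter, mem_filter, mem_Ioc]
        exact ⟨⟨⟨by omega, hcase⟩, hc.add_right e⟩, hd e (mem_singleton_self e)⟩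
      · right
        rw [mem_Ioc]
        omega
    have h5 := card_le_card h4
    rw [card_image_of_injective _ (add_left_injective e)] at h5
    have h6 := card_union_le ((XS N (wN N) (a + e)).filter (fun n => n.Prime))
      (Ioc (2 * N) (2 * N + e))
    rw [Nat.card_Ioc] at h6
    unfold Aa
    omega
  have h7 : (Aa N (wN N) a {e} : ℝ) ≤
      (((XS N (wN N) (a + e)).filter (fun n => n.Prime)).card : ℝ) + e := by exact_mod_cast hcard
  have h8 := h1 (a + e) hco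
  have h9 : (e:ℝ) ≤ κ / 2 * (((N:ℝ) / Wp (wN N)) / (cW (Wp (wN N)) * Real.log N)) := by
    rw [one_mul, Real.rpow_zero, mul_one] at h2
    have h10 : 0 < cW (Wp (wN N)) * Real.log N := by positivity
    rw [← mul_div_assoc, le_div_iff₀ h10]
    calc (e:ℝ) * (cW (Wp (wN N)) * Real.log N) ≤ (Real.log N) ^ A * (1 * Real.log N) := by
          apply mul_le_mul he (mul_le_mul_of_nonneg_right hc1 hL0.le) h10.le (by positivity)
      _ = Real.log N ^ (A + 1) := by ring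
      _ ≤ _ := h2
  calc (Aa N (wN N) a {e} : ℝ) ≤ _ := h7
    _ ≤ (1 + κ / 2) * (((N:ℝ) / Wp (wN N)) / (cW (Wp (wN N)) * Real.log N)) +
        κ / 2 * (((N:ℝ) / Wp (wN N)) / (cW (Wp (wN N)) * Real.log N)) := add_le_add h8 h9
    _ = _ := by ring

/-- the elements of `B` compatible with the class `a` -/
def Xa (w : ℕ) (B : Finset ℕ) (a : ℕ) : Finset ℕ := B.filter (fun b => (a + b).Coprime (Wp w))

/-- the members of `G` compatible with the class `a` -/
def Ga (w : ℕ) (G : Finset (Finset ℕ)) (a : ℕ) : Finset (Finset ℕ) :=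
  G.filter (fun E => ∀ t ∈ E, (a + t).Coprime (Wp w))

lemma swap (w : ℕ) (G : Finset (Finset ℕ)) (g : ℕ → Finset ℕ → ℝ) :
    ∑ E ∈ G, ∑ a ∈ AC w E, g a E = ∑ a ∈ range (Wp w), ∑ E ∈ Ga w G a, g a E := by
  refine Finset.sum_comm' ?_
  intro E a
  unfold AC Ga
  rw [mem_filter, mem_filter]
  tauto

lemma Ga_subset {w j : ℕ} {B : Finset ℕ} {G : Finset (Finset ℕ)} (hG : G ⊆ B.powersetCard j)
    (a : ℕ) : Ga w G a ⊆ (Xa w B a).powersetCard j := by
  intro E hE
  unfold Ga at hE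
  rw [mem_filter] at hE
  have h1 := mem_powersetCard.1 (hG hE.1)
  rw [mem_powersetCard]
  refine ⟨fun t ht => ?_, h1.2⟩
  unfold Xa
  rw [mem_filter]
  exact ⟨h1.1 ht, hE.2 t ht⟩

lemma Ga_powersetCard (w j : ℕ) (B : Finset ℕ) (a : ℕ) :
    Ga w (B.powersetCard j) a = (Xa w B a).powersetCard j := by
  refine Subset.antisymm (Ga_subset (Subset.refl _) a) ?_
  intro E hE
  rw [mem_powersetCard] at hE
  unfold Ga
  rw [mem_filter, mem_powersetCard]
  refine ⟨⟨fun t ht => ?_, hE.2⟩, fun t ht => ?_⟩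
  · exact (mem_filter.1 (hE.1 ht)).1
  · exact (mem_filter.1 (hE.1 ht)).2

lemma sum_choose (w j : ℕ) (B : Finset ℕ) :
    ∑ a ∈ range (Wp w), (((Xa w B a).card.choose j : ℕ) : ℝ) =
      ∑ E ∈ B.powersetCard j, ((AC w E).card : ℝ) := by
  have h1 := swap w (B.powersetCard j) (fun _ _ => (1:ℝ))
  simp only [sum_const, nsmul_eq_mul, mul_one] at h1
  rw [h1]
  refine sum_congr rfl fun a _ => ?_
  rw [Ga_powersetCard, card_powersetCard]

lemma nu_singleton (b p : ℕ) : nu {b} p = 1 := by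
  unfold nu
  rw [image_singleton, card_singleton]

lemma AC_singleton (w b : ℕ) : ((AC w {b}).card : ℝ) = (Wp w : ℝ) * cW (Wp w) := by
  have hW : (0:ℝ) < Wp w := by exact_mod_cast SelDAux.Wp_pos w
  have h1 : ((AC w {b}).card : ℝ) = ((Wp w).totient : ℝ) := by
    rw [AC_card]
    unfold Wp
    rw [totient_prod (PPy w) (PPy_prime w)]
    push_cast
    refine prod_congr rfl fun p hp => ?_
    rw [nu_singleton, Nat.cast_sub (PPy_prime w p hp).one_le, Nat.cast_one]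
  rw [h1]
  unfold cW
  field_simp

lemma sum_card (w : ℕ) (B : Finset ℕ) :
    ∑ a ∈ range (Wp w), ((Xa w B a).card : ℝ) = B.card * ((Wp w : ℝ) * cW (Wp w)) := by
  have h1 : ∀ a, ((Xa w B a).card : ℝ) = (((Xa w B a).card.choose 1 : ℕ) : ℝ) := by
    intro a
    rw [Nat.choose_one_right]
  rw [sum_congr rfl (fun a _ => h1 a), sum_choose]
  have h2 : ∀ E ∈ B.powersetCard 1, ((AC w E).card : ℝ) = (Wp w : ℝ) * cW (Wp w) := by
    intro E hE
    rw [mem_powersetCard, card_eq_one] at hE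
    obtain ⟨_, b, rfl⟩ := hE
    exact AC_singleton w b
  rw [sum_congr rfl h2, sum_const, nsmul_eq_mul, card_powersetCard, Nat.choose_one_right]

open Classical in
/-- **the family bound** in one dyadic block -/
theorem family_block (k : ℕ) (hk : 1 ≤ k) (ε : ℝ) (hε : 0 < ε) : ∃ K : ℝ, 0 < K ∧ ∀ A : ℕ,
    ∀ᶠ N : ℕ in atTop, ∀ B : Finset ℕ, (∀ b ∈ B, (b:ℝ) ≤ (Real.log N) ^ A) →
      K * Real.log N ≤ B.card → ∀ G ⊆ B.powersetCard (k + 1),
      ∑ E ∈ G, (((Ioc N (2 * N)).filter (fun n => ∀ e ∈ E, (n + e).Prime)).card : ℝ) ≤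
        ((N:ℝ) / (Real.log N) ^ (k + 1)) * ((4 ^ k + ε) * ∑ E ∈ G, singularSeries E +
          ε * ∑ E ∈ B.powersetCard (k + 1), singularSeries E) := by
  obtain ⟨κ, hκ, hκ1, hκε⟩ := exists_kappa k ε hε
  obtain ⟨K', hK', C, hC, hstar⟩ := star k κ hκ hκ1
  obtain ⟨c, hc⟩ : ∃ c : ℝ, c = 2 ^ (k + 1) * ((k + 1).factorial : ℝ) := ⟨_, rfl⟩
  have hc0 : 0 < c := by rw [hc]; positivity
  have hkR : (1:ℝ) ≤ k := by exact_mod_cast hk
  obtain ⟨Q, hQ⟩ : ∃ Q : ℝ, Q = k * K' * C := ⟨_, rfl⟩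
  have hQ0 : 0 < Q := by rw [hQ]; positivity
  obtain ⟨δ, hδd⟩ : ∃ δ : ℝ, δ = ε / (4 * Q + ε / c) := ⟨_, rfl⟩
  have hden : 0 < 4 * Q + ε / c := by positivity
  have hδ : 0 < δ := by rw [hδd]; positivity
  have hδc : δ ≤ c := by
    rw [hδd, div_le_iff₀ hden]
    have : c * (4 * Q + ε / c) = 4 * Q * c + ε := by field_simp
    rw [this]
    have : 0 < 4 * Q * c := by positivity
    linarith
  have hδQ : Q * (2 * δ) * 2 ≤ ε := by
    have h1 : δ * (4 * Q) ≤ δ * (4 * Q + ε / c) :=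
      mul_le_mul_of_nonneg_left (by have : 0 < ε / c := by positivity
                                    linarith) hδ.le
    have h2 : δ * (4 * Q + ε / c) = ε := by rw [hδd]; field_simp
    nlinarith
  refine ⟨2 * c / δ, by positivity, fun A => ?_⟩
  obtain ⟨w1, hw1⟩ := exists_nat_ge (2 * ((k:ℝ) + 1) ^ 2 / κ)
  filter_upwards [hstar A, base_one A κ hκ, ev_w_ge (max w1 2), ev_Wp_le,
    tendsto_logN.eventually_ge_atTop 1, ev_pow_le_self 1,
    tendsto_cWlog.eventually_ge_atTop (2 * (k:ℝ))] with N h1 h2 h3 h4 h5 h6 h7 B hB hBc G hG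
  have hL0 : 0 < Real.log N := by linarith
  have hNpos : (0:ℝ) < N := by
    rw [pow_one] at h6
    linarith
  have hcw0 := cW_pos' (wN N)
  obtain ⟨Λ, hΛd⟩ : ∃ Λ : ℝ, Λ = cW (Wp (wN N)) * Real.log N := ⟨_, rfl⟩
  rw [← hΛd] at h7
  have hΛ0 : 0 < Λ := by rw [hΛd]; exact mul_pos hcw0 hL0
  have hW0 : (0:ℝ) < Wp (wN N) := by exact_mod_cast SelDAux.Wp_pos (wN N)
  have hWN : Wp (wN N) ≤ N := by
    have h8 : Real.sqrt (Real.log N) ≤ Real.log N := by
      rw [Real.sqrt_le_left (by linarith)]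
      nlinarith
    rw [pow_one] at h6
    exact_mod_cast h4.trans (h8.trans h6)
  have hwR : (0:ℝ) < wN N := by
    have : 2 ≤ wN N := (le_max_right _ _).trans h3
    exact_mod_cast (by omega : 0 < wN N)
  have hq : ((k:ℝ) + 1) ^ 2 / wN N ≤ κ / 2 := by
    have h8 : 2 * ((k:ℝ) + 1) ^ 2 / κ ≤ wN N :=
      hw1.trans (by exact_mod_cast (le_max_left _ _).trans h3)
    rw [div_le_iff₀ hκ] at h8
    rw [div_le_iff₀ hwR]
    linarith
  obtain ⟨t, ht⟩ : ∃ t : ℝ, t = (N:ℝ) / Wp (wN N) := ⟨_, rfl⟩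
  have ht0 : 0 < t := by rw [ht]; positivity
  rw [← hΛd, ← ht] at h1 h2
  obtain ⟨τ, hτ⟩ : ∃ τ : ℝ, τ = t / Λ ^ (k + 1) := ⟨_, rfl⟩
  have hτ0 : 0 < τ := by rw [hτ]; positivity
  -- one class
  have hclass : ∀ a : ℕ, ∑ E ∈ Ga (wN N) G a, (Aa N (wN N) a E : ℝ) ≤
      (4 + 2 * κ) ^ k * (1 + κ) * τ * (Ga (wN N) G a).card +
        k * (K' * Λ) * ((Xa (wN N) B a).card : ℝ) ^ k * (C * τ) := by
    intro a
    have hXB : ∀ x ∈ Xa (wN N) B a, (x:ℝ) ≤ (Real.log N) ^ A ∧ (a + x).Coprime (Wp (wN N)) := by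
      intro x hx
      unfold Xa at hx
      rw [mem_filter] at hx
      exact ⟨hB x hx.1, hx.2⟩
    rw [hτ]
    refine class_sum (X := Xa (wN N) B a) (f := fun E => (Aa N (wN N) a E : ℝ)) hκ hΛ0 ht0.le
      (by positivity) hC.le ?_ ?_ ?_ (Ga (wN N) G a) (Ga_subset hG a)
    · intro d hd
      exact h2 a d (hXB d hd).2 (hXB d hd).1
    · intro F hF hFk S hS hSd
      by_contra hcon
      push Not at hcon
      have h8 := (h1 a F hFk (fun e he => (hXB e (hF he)).1)).1 S (fun d hd => (hXB d (hS hd)).1)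
        (fun d hd => (hSd d hd).1) hcon.le
      have hSne : S.Nonempty := by
        rw [← card_pos]
        have : (0:ℝ) < S.card := lt_trans (by positivity) hcon
        exact_mod_cast this
      have h9 := sum_lt_sum_of_nonempty hSne (fun d hd => (hSd d hd).2)
      rw [sum_const, nsmul_eq_mul] at h9
      have e1 : (S.card : ℝ) * ((4 + κ) / Λ * (Aa N (wN N) a F : ℝ) +
          κ * (t / Λ ^ (F.card + 1))) = (4 + κ) / Λ * (S.card * Aa N (wN N) a F) +
          κ * (S.card * (t / Λ ^ (F.card + 1))) := by ring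
      rw [e1] at h9
      exact absurd h8 (not_le.2 h9)
    · intro E hE
      rw [mem_powersetCard] at hE
      obtain ⟨d, hd⟩ : E.Nonempty := by
        rw [← card_pos, hE.2]; omega
      have hFc : (E.erase d).card = k := by
        rw [card_erase_of_mem hd, hE.2]
        rfl
      have h8 := (h1 a (E.erase d) hFc.le
        (fun e he => (hXB e (hE.1 (mem_of_mem_erase he))).1)).2 d (hXB d (hE.1 hd)).1
        (notMem_erase d E)
      rw [insert_erase hd, hFc] at h8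
      exact h8
  -- the moments
  obtain ⟨hmom, _⟩ := moment_cmp (range (Wp (wN N))) (fun a => (Xa (wN N) B a).card) (k := k) (Λ := Λ)
    (K := 2 * c / δ) (δ := δ) hc hδ hδc rfl h7 hΛ0 (by
      rw [card_range]
      have h8 := sum_card (wN N) B
      rw [h8]
      have h9 : 2 * c / δ * Real.log N * ((Wp (wN N) : ℝ) * cW (Wp (wN N))) ≤
          B.card * ((Wp (wN N) : ℝ) * cW (Wp (wN N))) :=
        mul_le_mul_of_nonneg_right hBc (by positivity)
      refine le_trans (le_of_eq ?_) h9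
      rw [hΛd]
      ring)
  rw [sum_choose] at hmom
  -- the sizes of the families of classes
  have hAC : ∀ E ∈ B.powersetCard (k + 1), τ * ((AC (wN N) E).card : ℝ) =
      SP (PPy (wN N)) E * ((N:ℝ) / (Real.log N) ^ (k + 1)) := by
    intro E hE
    rw [AC_card_SP, (mem_powersetCard.1 hE).2, hτ, ht, hΛd, mul_pow]
    field_simp
  have hSPS : ∀ E ∈ B.powersetCard (k + 1),
      SP (PPy (wN N)) E ≤ (1 + κ) * singularSeries E ∧ 0 ≤ singularSeries E := by
    intro E hE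
    have h8 := singularSeries_ge E (wN N) (by
      have : 2 ≤ wN N := (le_max_right _ _).trans h3
      omega)
    rw [(mem_powersetCard.1 hE).2] at h8
    push_cast at h8
    have hSP := SP_nonneg _ (PPy_prime (wN N)) E
    have h9 : 1 ≤ (1 + κ) * (1 - ((k:ℝ) + 1) ^ 2 / wN N) := by nlinarith
    have h10 : SP (PPy (wN N)) E ≤ (1 + κ) * (1 - ((k:ℝ) + 1) ^ 2 / wN N) * SP (PPy (wN N)) E :=
      le_mul_of_one_le_left hSP h9
    have h11 := mul_le_mul_of_nonneg_left h8 (by linarith : 0 ≤ 1 + κ)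
    have h12 : SP (PPy (wN N)) E ≤ (1 + κ) * singularSeries E := by
      rw [← mul_assoc] at h11
      exact h10.trans h11
    refine ⟨h12, ?_⟩
    have h13 : 0 ≤ (1 + κ) * singularSeries E := hSP.trans h12
    exact (mul_nonneg_iff_of_pos_left (by linarith)).1 h13
  obtain ⟨ν, hν⟩ : ∃ ν : ℝ, ν = (N:ℝ) / (Real.log N) ^ (k + 1) := ⟨_, rfl⟩
  have hν0 : 0 < ν := by rw [hν]; positivity
  rw [← hν] at hAC ⊢
  have hfam : ∀ G' ⊆ B.powersetCard (k + 1), τ * ∑ E ∈ G', ((AC (wN N) E).card : ℝ) ≤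
      ν * ((1 + κ) * ∑ E ∈ G', singularSeries E) := by
    intro G' hG'
    rw [mul_sum, mul_sum, mul_sum]
    refine sum_le_sum fun E hE => ?_
    rw [hAC E (hG' hE), mul_comm]
    exact mul_le_mul_of_nonneg_left (hSPS E (hG' hE)).1 hν0.le
  -- the sum
  have hstep1 : ∑ E ∈ G, (((Ioc N (2 * N)).filter (fun n => ∀ e ∈ E, (n + e).Prime)).card : ℝ) ≤
      ∑ a ∈ range (Wp (wN N)), ((4 + 2 * κ) ^ k * (1 + κ) * τ * (Ga (wN N) G a).card +
        k * (K' * Λ) * ((Xa (wN N) B a).card : ℝ) ^ k * (C * τ)) := by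
    calc _ ≤ ∑ E ∈ G, ∑ a ∈ AC (wN N) E, (Aa N (wN N) a E : ℝ) :=
          sum_le_sum fun E _ => block_le_classes hWN E
      _ = ∑ a ∈ range (Wp (wN N)), ∑ E ∈ Ga (wN N) G a, (Aa N (wN N) a E : ℝ) :=
          swap (wN N) G (fun a E => (Aa N (wN N) a E : ℝ))
      _ ≤ _ := sum_le_sum fun a _ => hclass a
  have hGcard : ∑ a ∈ range (Wp (wN N)), ((Ga (wN N) G a).card : ℝ) =
      ∑ E ∈ G, ((AC (wN N) E).card : ℝ) := by
    have h8 := swap (wN N) G (fun _ _ => (1:ℝ))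
    simp only [sum_const, nsmul_eq_mul, mul_one] at h8
    exact h8.symm
  have hstep2 : ∑ a ∈ range (Wp (wN N)), ((4 + 2 * κ) ^ k * (1 + κ) * τ * (Ga (wN N) G a).card +
        k * (K' * Λ) * ((Xa (wN N) B a).card : ℝ) ^ k * (C * τ)) =
      (4 + 2 * κ) ^ k * (1 + κ) * (τ * ∑ E ∈ G, ((AC (wN N) E).card : ℝ)) +
        Q * τ * (Λ * ∑ a ∈ range (Wp (wN N)), ((Xa (wN N) B a).card : ℝ) ^ k) := by
    rw [sum_add_distrib, ← mul_sum, hGcard, hQ]
    have e2 : ∀ a ∈ range (Wp (wN N)), k * (K' * Λ) * ((Xa (wN N) B a).card : ℝ) ^ k * (C * τ) =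
        (k * K' * C * τ * Λ) * ((Xa (wN N) B a).card : ℝ) ^ k := by
      intro a _
      ring
    rw [sum_congr rfl e2, ← mul_sum]
    ring
  rw [hstep2] at hstep1
  refine hstep1.trans ?_
  have hSG : 0 ≤ ∑ E ∈ G, singularSeries E := sum_nonneg fun E hE => (hSPS E (hG hE)).2
  have hSB : 0 ≤ ∑ E ∈ B.powersetCard (k + 1), singularSeries E :=
    sum_nonneg fun E hE => (hSPS E hE).2
  have hp1 : (4 + 2 * κ) ^ k * (1 + κ) * (τ * ∑ E ∈ G, ((AC (wN N) E).card : ℝ)) ≤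
      ν * ((4 ^ k + ε) * ∑ E ∈ G, singularSeries E) := by
    calc (4 + 2 * κ) ^ k * (1 + κ) * (τ * ∑ E ∈ G, ((AC (wN N) E).card : ℝ)) ≤
        (4 + 2 * κ) ^ k * (1 + κ) * (ν * ((1 + κ) * ∑ E ∈ G, singularSeries E)) :=
          mul_le_mul_of_nonneg_left (hfam G hG) (by positivity)
      _ = ((4 + 2 * κ) ^ k * (1 + κ) ^ 2) * (ν * ∑ E ∈ G, singularSeries E) := by ring
      _ ≤ (4 ^ k + ε) * (ν * ∑ E ∈ G, singularSeries E) :=
          mul_le_mul_of_nonneg_right hκε (by positivity)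
      _ = _ := by ring
  have hp2 : Q * τ * (Λ * ∑ a ∈ range (Wp (wN N)), ((Xa (wN N) B a).card : ℝ) ^ k) ≤
      ν * (ε * ∑ E ∈ B.powersetCard (k + 1), singularSeries E) := by
    calc Q * τ * (Λ * ∑ a ∈ range (Wp (wN N)), ((Xa (wN N) B a).card : ℝ) ^ k) ≤
        Q * τ * (2 * δ * ∑ E ∈ B.powersetCard (k + 1), ((AC (wN N) E).card : ℝ)) :=
          mul_le_mul_of_nonneg_left hmom (by positivity)
      _ = Q * (2 * δ) * (τ * ∑ E ∈ B.powersetCard (k + 1), ((AC (wN N) E).card : ℝ)) := by ring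
      _ ≤ Q * (2 * δ) * (ν * ((1 + κ) * ∑ E ∈ B.powersetCard (k + 1), singularSeries E)) :=
          mul_le_mul_of_nonneg_left (hfam _ (Subset.refl _)) (by positivity)
      _ ≤ Q * (2 * δ) * (ν * (2 * ∑ E ∈ B.powersetCard (k + 1), singularSeries E)) := by
          refine mul_le_mul_of_nonneg_left ?_ (by positivity)
          refine mul_le_mul_of_nonneg_left ?_ hν0.le
          exact mul_le_mul_of_nonneg_right (by linarith) hSB
      _ = (Q * (2 * δ) * 2) * (ν * ∑ E ∈ B.powersetCard (k + 1), singularSeries E) := by ring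
      _ ≤ ε * (ν * ∑ E ∈ B.powersetCard (k + 1), singularSeries E) :=
          mul_le_mul_of_nonneg_right hδQ (by positivity)
      _ = _ := by ring
  have hfin := add_le_add hp1 hp2
  rw [← mul_add] at hfin
  exact hfin

/-- the singular series is large on average -/
theorem sum_sing_ge (k : ℕ) : ∀ᶠ N : ℕ in atTop, ∀ B : Finset ℕ,
    2 * Real.log N ≤ B.card → 1 ≤ ∑ E ∈ B.powersetCard (k + 1), singularSeries E := by
  obtain ⟨c, hc⟩ : ∃ c : ℝ, c = 2 ^ (k + 1) * ((k + 1).factorial : ℝ) := ⟨_, rfl⟩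
  have hc0 : 0 < c := by rw [hc]; positivity
  obtain ⟨w1, hw1⟩ := exists_nat_ge (2 * ((k:ℝ) + 1) ^ 2)
  filter_upwards [ev_w_ge (max w1 2), tendsto_logN.eventually_ge_atTop 1,
    tendsto_logN.eventually_ge_atTop (2 * c),
    tendsto_cWlog.eventually_ge_atTop (2 * (k:ℝ))] with N h3 h5 h6 h7 B hBc
  have hL0 : 0 < Real.log N := by linarith
  have hcw0 := cW_pos' (wN N)
  obtain ⟨Λ, hΛd⟩ : ∃ Λ : ℝ, Λ = cW (Wp (wN N)) * Real.log N := ⟨_, rfl⟩
  rw [← hΛd] at h7
  have hΛ0 : 0 < Λ := by rw [hΛd]; exact mul_pos hcw0 hL0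
  have hW0 : (0:ℝ) < Wp (wN N) := by exact_mod_cast SelDAux.Wp_pos (wN N)
  have hwR : (0:ℝ) < wN N := by
    have : 2 ≤ wN N := (le_max_right _ _).trans h3
    exact_mod_cast (by omega : 0 < wN N)
  have hq : ((k:ℝ) + 1) ^ 2 / wN N ≤ 1 / 2 := by
    have h8 : 2 * ((k:ℝ) + 1) ^ 2 ≤ wN N :=
      hw1.trans (by exact_mod_cast (le_max_left _ _).trans h3)
    rw [div_le_iff₀ hwR]
    linarith
  obtain ⟨_, hmom⟩ := moment_cmp (range (Wp (wN N))) (fun a => (Xa (wN N) B a).card) (k := k)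
    (Λ := Λ) (K := 2 * c / c) (δ := c) hc hc0 le_rfl rfl h7 hΛ0 (by
      rw [card_range]
      have h8 := sum_card (wN N) B
      rw [h8, mul_div_assoc, div_self hc0.ne', mul_one]
      have h9 : 2 * Real.log N * ((Wp (wN N) : ℝ) * cW (Wp (wN N))) ≤
          B.card * ((Wp (wN N) : ℝ) * cW (Wp (wN N))) :=
        mul_le_mul_of_nonneg_right hBc (by positivity)
      refine le_trans (le_of_eq ?_) h9
      rw [hΛd]
      ring)
  rw [sum_choose, card_range] at hmom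
  have hAC : ∀ E ∈ B.powersetCard (k + 1), ((AC (wN N) E).card : ℝ) ≤
      ((Wp (wN N) : ℝ) * cW (Wp (wN N)) ^ (k + 1)) * (2 * singularSeries E) := by
    intro E hE
    have hEc := (mem_powersetCard.1 hE).2
    rw [AC_card_SP, hEc]
    refine mul_le_mul_of_nonneg_left ?_ (by positivity)
    have h8 := singularSeries_ge E (wN N) (by
      have : 2 ≤ wN N := (le_max_right _ _).trans h3
      omega)
    rw [hEc] at h8
    push_cast at h8
    have hSP := SP_nonneg _ (PPy_prime (wN N)) E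
    nlinarith
  have hsum := sum_le_sum hAC
  rw [← mul_sum, ← mul_sum] at hsum
  obtain ⟨S, hS⟩ : ∃ S : ℝ, S = ∑ E ∈ B.powersetCard (k + 1), singularSeries E := ⟨_, rfl⟩
  rw [← hS] at hsum ⊢
  have h8 : Λ ^ (k + 1) * (Wp (wN N) : ℝ) ≤
      c * (((Wp (wN N) : ℝ) * cW (Wp (wN N)) ^ (k + 1)) * (2 * S)) :=
    hmom.trans (mul_le_mul_of_nonneg_left hsum hc0.le)
  rw [hΛd, mul_pow] at h8
  have h9 : ((Wp (wN N) : ℝ) * cW (Wp (wN N)) ^ (k + 1)) * (Real.log N) ^ (k + 1) ≤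
      ((Wp (wN N) : ℝ) * cW (Wp (wN N)) ^ (k + 1)) * (2 * c * S) := by
    calc _ = cW (Wp (wN N)) ^ (k + 1) * Real.log N ^ (k + 1) * (Wp (wN N) : ℝ) := by ring
      _ ≤ _ := h8
      _ = _ := by ring
  have h10 : (Real.log N) ^ (k + 1) ≤ 2 * c * S := le_of_mul_le_mul_left h9 (by positivity)
  have h11 : Real.log N ≤ (Real.log N) ^ (k + 1) := by
    rw [pow_succ]
    exact le_mul_of_one_le_left hL0.le (one_le_pow₀ h5)
  have h12 : 2 * c * 1 ≤ 2 * c * S := by linarith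
  exact le_of_mul_le_mul_left h12 (by positivity)

end Pool.Agent.HLE.Fam34
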