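import Mathlib
import Pool.Agent.H34P.PSas2
import Pool.Agent.H34P.PSe3

/-!
Lower bound for the number of primes `n + d`, `n` in a block and in a class modulo the growing
product `Wp (wN N)`, uniformly in the shift `d ≤ (log N)^A`.
-/

set_option autoImplicit false

namespace Pool.Agent.HLE

open Finset Filter H34P Pool.Agent.HLT Pool.Agent.HL26 Pool.Agent.Maynard

lemma ev_primes_low (A : ℕ) (κ : ℝ) (hκ : 0 < κ) : ∀ᶠ N : ℕ in atTop,
    ∀ a d : ℕ, (d : ℝ) ≤ (Real.log N) ^ A → (a + d).Coprime (Wp (wN N)) →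
    (1 - κ) * (((N:ℝ) / Wp (wN N)) / (cW (Wp (wN N)) * Real.log N)) ≤
    (((XS N (wN N) a).filter (fun n => (n + d).Prime)).card : ℝ) := by
  obtain ⟨C, hC, hth⟩ := thAP_bound3
  have hpowN : ∀ᶠ N : ℕ in atTop, (Real.log (N:ℝ)) ^ A ≤ 1 * (N:ℝ) :=
    tendsto_natCast_atTop_atTop.eventually (ev_pow_le A 1 one_pos)
  filter_upwards [eventually_ge_atTop 3, tendsto_logN.eventually_ge_atTop 1, ev_Wp_le,
    tendsto_logN.eventually_ge_atTop (12 * C / κ), hpowN,
    tendsto_logN.eventually_ge_atTop (2 * Real.log 3 / κ)]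
    with N hN3 hL1 hWle hLC hNA hL3 a d hd hcop
  set W := Wp (wN N) with hWdef
  have hW : 0 < W := SelDAux.Wp_pos (wN N)
  have hφ : 0 < W.totient := Nat.totient_pos.2 hW
  have hφ' : (0:ℝ) < (W.totient : ℝ) := by exact_mod_cast hφ
  have hW' : (0:ℝ) < (W:ℝ) := by exact_mod_cast hW
  set L := Real.log (N:ℝ) with hL
  have hN0 : (0:ℝ) < (N:ℝ) := by
    have : 0 < N := by omega
    exact_mod_cast this
  have hL0 : 0 < L := by linarith
  have hdN : (d:ℝ) ≤ N := by linarith
  have hdN' : d ≤ N := by exact_mod_cast hdN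
  have hlog3 : 0 < Real.log 3 := Real.log_pos (by norm_num)
  have hS := sum_tht_eq N d W a
  have h1 := hth W (a + d) (2 * N + d) hW hcop (by omega)
  have h2 := hth W (a + d) (N + d) hW hcop (by omega)
  have hbd : ∀ y : ℕ, N ≤ y → (y:ℝ) ≤ 3 * N → C * W * y / Real.log y ^ 3 ≤ 3 * C * W * N / L ^ 3 := by
    intro y hy hy3
    have hlog : L ≤ Real.log y := Real.log_le_log hN0 (by exact_mod_cast hy)
    have hCW : 0 < C * W := by positivity
    have hn : C * W * (y:ℝ) ≤ 3 * C * W * N := by nlinarith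
    calc C * W * (y:ℝ) / Real.log y ^ 3 ≤ 3 * C * W * N / Real.log y ^ 3 := by gcongr
      _ ≤ 3 * C * W * N / L ^ 3 := by gcongr
  have h1' := h1.trans (hbd (2 * N + d) (by omega) (by push_cast; linarith))
  have h2' := h2.trans (hbd (N + d) (by omega) (by push_cast; linarith))
  set S := ∑ n ∈ (Finset.Ioc N (2 * N)).filter (fun n => n ≡ a [MOD W]), tht (n + d) with hSdef
  set T := ((N:ℝ) / W) / (cW W * L) with hT
  have hT' : T = (N:ℝ) / W.totient / L := by
    rw [hT]; unfold cW; field_simp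
  have hT0 : 0 < T := by rw [hT']; positivity
  have hSb : (N:ℝ) / W.totient - 6 * C * W * N / L ^ 3 ≤ S := by
    have a1 := (abs_le.1 h1').1
    have a2 := (abs_le.1 h2').2
    rw [hS]
    push_cast at a1 a2
    have e2 : (2 * (N:ℝ) + d) / W.totient = (N:ℝ) / W.totient + ((N:ℝ) + d) / W.totient := by ring
    have e3 : 3 * C * W * N / L ^ 3 + 3 * C * W * N / L ^ 3 = 6 * C * W * N / L ^ 3 := by ring
    linarith
  set P : ℝ := (((XS N (wN N) a).filter (fun n => (n + d).Prime)).card : ℝ) with hP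
  have hSP : S = ∑ n ∈ (XS N (wN N) a).filter (fun n => (n + d).Prime), Real.log ((n + d : ℕ) : ℝ) := by
    rw [hSdef, Finset.sum_filter (s := XS N (wN N) a)]
    rfl
  have hup : S ≤ P * (L + Real.log 3) := by
    rw [hSP, hP, ← nsmul_eq_mul, ← Finset.sum_const]
    refine Finset.sum_le_sum fun n hn => ?_
    have hn2 := (Finset.mem_Ioc.1 (Finset.mem_filter.1 (Finset.mem_filter.1 hn).1).1)
    rw [hL, ← Real.log_mul hN0.ne' (by norm_num)]
    apply Real.log_le_log
    · have : 0 < n + d := by omega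
      exact_mod_cast this
    · have : n + d ≤ N * 3 := by omega
      exact_mod_cast this
  have hδ : 6 * C * W * N / L ^ 3 ≤ (κ / 2) * (N / W.totient) := by
    have h3 : 12 * C ≤ κ * L := by
      rw [div_le_iff₀ hκ] at hLC
      linarith
    have h4 : (W:ℝ) * W.totient ≤ L := by
      have h5 : (W.totient : ℝ) ≤ W := by exact_mod_cast Nat.totient_le W
      have h6 : (W:ℝ) * W ≤ L := by
        have h7 := mul_self_le_mul_self hW'.le hWle
        rwa [Real.mul_self_sqrt hL0.le] at h7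
      nlinarith
    rw [mul_div_assoc', div_le_div_iff₀ (by positivity) (by positivity)]
    have h5 : 12 * C * ((W:ℝ) * W.totient) ≤ κ * L * L :=
      mul_le_mul h3 h4 (by positivity) (by positivity)
    have h6 : κ * L * L ≤ κ * L ^ 3 := by
      have : L ^ 2 ≤ L ^ 3 := pow_le_pow_right₀ hL1 (by norm_num)
      nlinarith
    have h7 := mul_le_mul_of_nonneg_right (h5.trans h6) hN0.le
    nlinarith [h7]
  have hTL : T * L = N / W.totient := by rw [hT']; field_simp
  have h3 : 2 * Real.log 3 ≤ κ * L := by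
    rw [div_le_iff₀ hκ] at hL3
    linarith
  by_contra hcon
  push Not at hcon
  have h7 : P * (L + Real.log 3) < (1 - κ) * T * (L + Real.log 3) :=
    mul_lt_mul_of_pos_right hcon (by linarith)
  have h8 : (1 - κ / 2) * (T * L) ≤ S := by rw [hTL]; nlinarith [hSb]
  have h10 : T * ((1 - κ) * (L + Real.log 3)) ≤ T * ((1 - κ / 2) * L) := by
    apply mul_le_mul_of_nonneg_left _ hT0.le
    nlinarith [mul_pos hκ hlog3]
  nlinarith

end Pool.Agent.HLE
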