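import Mathlib
import Pool.Agent.HLE.Comb
import Pool.Agent.HLE.Primes
import Pool.Agent.H34P.PSg
import Pool.Agent.HL26.Sing
import Pool.Agent.HL26.Engine

/-!
Lower half of the average over the `(k+1)`-subsets of every large set, one block.
-/

set_option autoImplicit false

namespace Pool.Agent.HLE

open Finset Filter H34P Pool.Agent.HLT Pool.Agent.HL26 Pool.Agent.Maynard

/-- the elements of `B` compatible with the class `a` -/
def Ba (w : ℕ) (B : Finset ℕ) (a : ℕ) : Finset ℕ := B.filter (fun b => (a + b).Coprime (Wp w))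

/-- the number of primes `n + b` -/
def XX (B : Finset ℕ) (n : ℕ) : ℕ := (B.filter (fun b => (n + b).Prime)).card

lemma AC_singleton (w b : ℕ) : ((AC w {b}).card : ℝ) = (Wp w : ℝ) * cW (Wp w) := by
  have h1 : (AC w {b}).card = (Wp w).totient := by
    rw [← Nat.filter_coprime_Ico_eq_totient (Wp w) b]
    unfold AC
    refine Finset.card_bij (fun r _ => r + b) ?_ ?_ ?_
    · intro r hr
      rw [Finset.mem_filter, Finset.mem_range] at hr
      rw [Finset.mem_filter, Finset.mem_Ico]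
      exact ⟨⟨by omega, by omega⟩, (hr.2 b (mem_singleton_self b)).symm⟩
    · intro r _ s _ h
      omega
    · intro n hn
      rw [Finset.mem_filter, Finset.mem_Ico] at hn
      refine ⟨n - b, ?_, by omega⟩
      rw [Finset.mem_filter, Finset.mem_range]
      refine ⟨by omega, ?_⟩
      intro t ht
      rw [mem_singleton] at ht
      subst ht
      rw [Nat.sub_add_cancel hn.1.1]
      exact hn.2.symm
  rw [h1]
  unfold cW
  have hW : (0:ℝ) < Wp w := by exact_mod_cast SelDAux.Wp_pos w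
  field_simp

/-- sum over the classes of the number of compatible elements -/
lemma sum_Ba (w : ℕ) (B : Finset ℕ) :
    ∑ a ∈ range (Wp w), ((Ba w B a).card : ℝ) = B.card * ((Wp w : ℝ) * cW (Wp w)) := by
  have h1 : ∑ a ∈ range (Wp w), (Ba w B a).card = ∑ b ∈ B, (AC w {b}).card := by
    unfold Ba AC
    simp only [card_filter, mem_singleton, forall_eq]
    rw [sum_comm]
  have h2 : ∑ a ∈ range (Wp w), ((Ba w B a).card : ℝ) = ∑ b ∈ B, ((AC w {b}).card : ℝ) := by
    exact_mod_cast h1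
  rw [h2]
  simp only [AC_singleton]
  rw [sum_const, nsmul_eq_mul]

/-- sum over the classes of the `(k+1)`-th powers -/
lemma sum_Ba_pow (w k : ℕ) (B : Finset ℕ) :
    ((k + 1).factorial : ℝ) * ((Wp w : ℝ) * cW (Wp w) ^ (k + 1) *
      ∑ E ∈ B.powersetCard (k + 1), SP (PPy w) E) ≤
    ∑ a ∈ range (Wp w), ((Ba w B a).card : ℝ) ^ (k + 1) := by
  have h1 := sum_choose_eq (range (Wp w)) B (fun a b => (a + b).Coprime (Wp w)) (k + 1)
  have h2 : ∑ a ∈ range (Wp w), ((Ba w B a).card.choose (k + 1) : ℝ) =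
      ∑ E ∈ B.powersetCard (k + 1), ((AC w E).card : ℝ) := by
    unfold Ba AC
    exact_mod_cast h1
  have h3 : ∑ E ∈ B.powersetCard (k + 1), ((AC w E).card : ℝ) =
      (Wp w : ℝ) * cW (Wp w) ^ (k + 1) * ∑ E ∈ B.powersetCard (k + 1), SP (PPy w) E := by
    rw [mul_sum]
    refine sum_congr rfl fun E hE => ?_
    rw [AC_card_SP, (mem_powersetCard.1 hE).2]
  rw [← h3, ← h2, mul_sum]
  exact sum_le_sum fun a _ => fact_choose_le k _

/-- the block, split into classes -/
lemma block_classes (N w : ℕ) (k : ℕ) (B : Finset ℕ) :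
    ∑ E ∈ B.powersetCard (k + 1),
      (((Ioc N (2 * N)).filter (fun n => ∀ e ∈ E, (n + e).Prime)).card : ℝ) =
    ∑ a ∈ range (Wp w), ∑ n ∈ XS N w a, ((XX B n).choose (k + 1) : ℝ) := by
  have h1 := sum_choose_eq (Ioc N (2 * N)) B (fun n b => (n + b).Prime) (k + 1)
  have h2 : ∑ a ∈ range (Wp w), ∑ n ∈ XS N w a, ((XX B n).choose (k + 1) : ℝ) =
      ∑ n ∈ Ioc N (2 * N), ((XX B n).choose (k + 1) : ℝ) := by
    rw [← sum_fiberwise_of_maps_to (s := Ioc N (2 * N)) (t := range (Wp w)) (g := fun n => n % Wp w)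
      (fun n _ => mem_range.2 (Nat.mod_lt _ (SelDAux.Wp_pos w)))]
    refine sum_congr rfl fun a ha => ?_
    refine sum_congr ?_ fun _ _ => rfl
    unfold XS
    refine filter_congr fun n _ => ?_
    unfold Nat.ModEq
    rw [Nat.mod_eq_of_lt (mem_range.1 ha)]
  rw [h2]
  unfold XX
  exact_mod_cast h1.symm

/-- the primes in one class -/
lemma sum_XX_ge (N w a : ℕ) (B : Finset ℕ) (t : ℝ)
    (h : ∀ b ∈ Ba w B a, t ≤ (((XS N w a).filter (fun n => (n + b).Prime)).card : ℝ)) :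
    (Ba w B a).card * t ≤ ∑ n ∈ XS N w a, (XX B n : ℝ) := by
  have h1 : ∑ b ∈ B, ((XS N w a).filter (fun n => (n + b).Prime)).card =
      ∑ n ∈ XS N w a, XX B n := by
    unfold XX
    simp only [card_filter]
    rw [sum_comm]
  have h2 : ∑ b ∈ B, (((XS N w a).filter (fun n => (n + b).Prime)).card : ℝ) =
      ∑ n ∈ XS N w a, (XX B n : ℝ) := by exact_mod_cast h1
  rw [← h2]
  calc ((Ba w B a).card : ℝ) * t = ∑ _b ∈ Ba w B a, t := by rw [sum_const, nsmul_eq_mul]
    _ ≤ ∑ b ∈ Ba w B a, (((XS N w a).filter (fun n => (n + b).Prime)).card : ℝ) := sum_le_sum h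
    _ ≤ _ := sum_le_sum_of_subset_of_nonneg (filter_subset _ _) fun _ _ _ => Nat.cast_nonneg _

/-- the singular series against its truncation -/
lemma ev_sing (r A : ℕ) (hr : 1 ≤ r) (κ : ℝ) (hκ : 0 < κ) : ∀ᶠ N : ℕ in atTop, ∀ E : Finset ℕ,
    E.card = r → (∀ e ∈ E, (e:ℝ) ≤ (Real.log N) ^ A) →
    singularSeries E ≤ (1 + κ) * SP (PPy (wN N)) E := by
  have hr0 : (0:ℝ) < r := by exact_mod_cast hr
  filter_upwards [ev_local A ((r:ℝ) ^ 3) κ (by positivity) hκ, ev_w_ge 2,
    tendsto_logN.eventually_ge_atTop 1] with N h1 hw hL E hE hEH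
  obtain ⟨H, hH⟩ : ∃ H : ℕ, H = ⌊(Real.log N) ^ A⌋₊ := ⟨_, rfl⟩
  have hL1 : (1:ℝ) ≤ (Real.log N) ^ A := one_le_pow₀ hL
  have hH1 : 1 ≤ H := by
    rw [hH]
    exact Nat.le_floor (by exact_mod_cast hL1)
  have hHr : (H:ℝ) ≤ (Real.log N) ^ A := by
    rw [hH]
    exact Nat.floor_le (by positivity)
  have hEH' : ∀ e ∈ E, e ≤ H := fun e he => by
    rw [hH]
    exact Nat.le_floor (hEH e he)
  have hne : E.Nonempty := by
    rw [← card_pos, hE]
    exact hr
  have h2 := singularSeries_le E hne (wN N) H hw hH1 hEH'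
  have h3 := h1 H hH1 hHr
  have hSP := SP_nonneg (PPy (wN N)) (PPy_prime (wN N)) E
  rw [hE] at h2
  have hw0 : (2:ℝ) ≤ wN N := by exact_mod_cast hw
  have hlw : 0 < Real.log (wN N) := Real.log_pos (by linarith)
  have h4 : (r:ℝ) ^ 3 * Real.log H / (wN N * Real.log (wN N)) ≤
      (r:ℝ) ^ 3 * (1 + Real.log H / Real.log (wN N)) / wN N := by
    have : (r:ℝ) ^ 3 * Real.log H / (wN N * Real.log (wN N)) =
        (r:ℝ) ^ 3 * (Real.log H / Real.log (wN N)) / wN N := by
      field_simp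
    rw [this]
    gcongr
    linarith
  calc singularSeries E ≤ _ := h2
    _ ≤ SP (PPy (wN N)) E * (1 + κ) :=
        mul_le_mul_of_nonneg_left ((Real.exp_le_exp.2 h4).trans h3) hSP
    _ = _ := by ring

end Pool.Agent.HLE
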