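import Mathlib
import Pool.Agent.HLE.Lower

/-!
Lower half of the average over the `(k+1)`-subsets of every large set, one block: the theorem.
-/

set_option autoImplicit false

namespace Pool.Agent.HLE

open Finset Filter H34P Pool.Agent.HLT Pool.Agent.HL26 Pool.Agent.Maynard

/-- one class -/
lemma class_lower (N w k a : ℕ) (B : Finset ℕ) {κ u t : ℝ} (hκ : 0 < κ) (hκ4 : κ ≤ 1 / 4)
    (hu : 0 < u) (ht : 0 < t) (hX1 : (1 - κ) * t ≤ (XS N w a).card)
    (hX2 : ((XS N w a).card : ℝ) ≤ (1 + κ) * t)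
    (h : ∀ b ∈ Ba w B a, (1 - κ) * (t * u) ≤
      (((XS N w a).filter (fun n => (n + b).Prime)).card : ℝ)) :
    t * ((1 - κ) * ((1 - 2 * κ) * (Ba w B a).card * u) ^ (k + 1) -
      2 * ((k + 1) * k) * ((1 - 2 * κ) * (Ba w B a).card * u) ^ k) ≤
    ((k + 1).factorial : ℝ) * ∑ n ∈ XS N w a, ((XX B n).choose (k + 1) : ℝ) := by
  set m : ℝ := ((Ba w B a).card : ℝ) with hm
  have hm0 : 0 ≤ m := Nat.cast_nonneg _
  set y : ℝ := (1 - 2 * κ) * m * u with hy
  have hρ : 0 < 1 - 2 * κ := by linarith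
  have hy0 : 0 ≤ y := by positivity
  have h1 := sum_XX_ge N w a B _ h
  rw [← hm] at h1
  have h2 : y * (XS N w a).card ≤ ∑ n ∈ XS N w a, (XX B n : ℝ) := by
    refine le_trans ?_ h1
    calc y * (XS N w a).card ≤ y * ((1 + κ) * t) := mul_le_mul_of_nonneg_left hX2 hy0
      _ = ((1 - 2 * κ) * (1 + κ)) * (m * (t * u)) := by rw [hy]; ring
      _ ≤ (1 - κ) * (m * (t * u)) := by
          apply mul_le_mul_of_nonneg_right _ (by positivity)
          nlinarith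
      _ = m * ((1 - κ) * (t * u)) := by ring
  refine le_trans ?_ (sum_choose_ge k (XS N w a) (XX B) hy0 h2)
  have h3 : (1 - κ) * t * y ^ (k + 1) ≤ (XS N w a).card * y ^ (k + 1) :=
    mul_le_mul_of_nonneg_right hX1 (by positivity)
  have h4 : ((XS N w a).card : ℝ) * (((k:ℝ) + 1) * k * y ^ k) ≤ (2 * t) * (((k:ℝ) + 1) * k * y ^ k) := by
    apply mul_le_mul_of_nonneg_right _ (by positivity)
    nlinarith
  nlinarith [h3, h4]

theorem lower_block (k : ℕ) (hk : 1 ≤ k) (ε : ℝ) (hε : 0 < ε) : ∃ K : ℝ, 0 < K ∧ ∀ A : ℕ,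
    ∀ᶠ N : ℕ in atTop, ∀ B : Finset ℕ, (∀ b ∈ B, (b:ℝ) ≤ (Real.log N) ^ A) →
    K * Real.log N ≤ B.card →
    (1 - ε) * ((N:ℝ) / (Real.log N) ^ (k + 1)) *
        ∑ E ∈ B.powersetCard (k + 1), singularSeries E ≤
      ∑ E ∈ B.powersetCard (k + 1),
        (((Ioc N (2 * N)).filter (fun n => ∀ e ∈ E, (n + e).Prime)).card : ℝ) := by
  have hk0 : (1:ℝ) ≤ k := by exact_mod_cast hk
  obtain ⟨κ, hκ, hκ4, hκε⟩ : ∃ κ : ℝ, 0 < κ ∧ κ ≤ 1 / 4 ∧ 2 * (k + 3) * κ ≤ ε := by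
    refine ⟨min (1 / 4) (ε / (2 * (k + 3))), by positivity, min_le_left _ _, ?_⟩
    have h := min_le_right (1 / 4 : ℝ) (ε / (2 * (k + 3)))
    rw [le_div_iff₀ (by positivity)] at h
    linarith
  obtain ⟨δ, hδ, hδκ⟩ : ∃ δ : ℝ, 0 < δ ∧ 2 * (((k:ℝ) + 1) * k) * δ = κ := by
    refine ⟨κ / (2 * (((k:ℝ) + 1) * k)), by positivity, ?_⟩
    field_simp
  refine ⟨4 / δ, by positivity, fun A => ?_⟩
  filter_upwards [ev_primes_low A κ hκ, ev_sing (k + 1) A (by omega) κ hκ, ev_Wp_le,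
    tendsto_logN.eventually_ge_atTop 1,
    tendsto_natCast_atTop_atTop.eventually (ev_pow_le 1 κ hκ), eventually_ge_atTop 1]
    with N h1 h2 hWle hL hlN hN1 B hB hKB
  set w := wN N with hw
  set L := Real.log (N:ℝ) with hLd
  have hL0 : 0 < L := by linarith
  have hN0 : (0:ℝ) < N := by exact_mod_cast hN1
  have hW0 : (0:ℝ) < Wp w := by exact_mod_cast SelDAux.Wp_pos w
  have hc0 : 0 < cW (Wp w) := by
    unfold cW
    have : (0:ℝ) < ((Wp w).totient : ℝ) := by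
      exact_mod_cast Nat.totient_pos.2 (SelDAux.Wp_pos w)
    positivity
  set c := cW (Wp w) with hcd
  set W : ℝ := (Wp w : ℝ) with hWd
  obtain ⟨t, htd⟩ : ∃ t : ℝ, t = (N:ℝ) / W := ⟨_, rfl⟩
  obtain ⟨u, hud⟩ : ∃ u : ℝ, u = 1 / (c * L) := ⟨_, rfl⟩
  have ht0 : 0 < t := by rw [htd]; positivity
  have hu0 : 0 < u := by rw [hud]; positivity
  have hWL : W ≤ L := by
    refine hWle.trans ?_
    rw [Real.sqrt_le_left (by linarith)]
    nlinarith
  have hκt : 1 ≤ κ * t := by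
    rw [htd, ← mul_div_assoc, le_div_iff₀ hW0]
    rw [pow_one] at hlN
    linarith
  have hXS : ∀ a : ℕ, (1 - κ) * t ≤ (XS N w a).card ∧ ((XS N w a).card : ℝ) ≤ (1 + κ) * t := by
    intro a
    have h := abs_le.1 (card_XS w N a)
    rw [← hWd, ← htd] at h
    constructor <;> nlinarith [h.1, h.2]
  -- the classes
  set y : ℕ → ℝ := fun a => (1 - 2 * κ) * (Ba w B a).card * u with hyd
  have hρ : 0 < 1 - 2 * κ := by linarith
  have hy0 : ∀ a, 0 ≤ y a := fun a => by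
    simp only [hyd]
    positivity
  have hcl : ∀ a ∈ range (Wp w), t * ((1 - κ) * y a ^ (k + 1) - 2 * (((k:ℝ) + 1) * k) * y a ^ k) ≤
      ((k + 1).factorial : ℝ) * ∑ n ∈ XS N w a, ((XX B n).choose (k + 1) : ℝ) := by
    intro a _
    refine class_lower N w k a B hκ hκ4 hu0 ht0 (hXS a).1 (hXS a).2 fun b hb => ?_
    have hb' := mem_filter.1 hb
    have h := h1 a b (hB b hb'.1) hb'.2
    refine le_trans (le_of_eq ?_) h
    rw [htd, hud, mul_one_div]
  have hsum := sum_le_sum hcl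
  rw [← mul_sum, ← mul_sum, ← block_classes N w k B, sum_sub_distrib, ← mul_sum, ← mul_sum] at hsum
  set Y := ∑ a ∈ range (Wp w), y a ^ (k + 1) with hY
  set Z := ∑ a ∈ range (Wp w), y a ^ k with hZ
  -- the mean
  have hmean : ∑ a ∈ range (Wp w), y a = (1 - 2 * κ) * (W * ((B.card : ℝ) / L)) := by
    simp only [hyd]
    rw [← sum_mul, ← mul_sum, sum_Ba, hud, ← hWd, ← hcd]
    field_simp
  have hZY : Z ≤ δ * Y := by
    refine moment_le k (Wp w) y hy0 hδ ?_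
    rw [hmean, ← hWd]
    have h3 : 4 / δ ≤ (B.card : ℝ) / L := by
      rw [le_div_iff₀ hL0]
      exact hKB
    have h4 : 2 / δ ≤ (1 - 2 * κ) * ((B.card : ℝ) / L) := by
      have h5 : 0 < 4 / δ := by positivity
      have h6 : 2 / δ = (1 / 2) * (4 / δ) := by ring
      rw [h6]
      exact mul_le_mul (by linarith) h3 h5.le hρ.le
    calc W * (2 / δ) ≤ W * ((1 - 2 * κ) * ((B.card : ℝ) / L)) :=
          mul_le_mul_of_nonneg_left h4 hW0.le
      _ = _ := by ring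
  have hY1 : (1 - 2 * κ) ^ (k + 1) * (((k + 1).factorial : ℝ) * (W / L ^ (k + 1) *
      ∑ E ∈ B.powersetCard (k + 1), SP (PPy w) E)) ≤ Y := by
    have h3 := sum_Ba_pow w k B
    rw [← hWd, ← hcd] at h3
    have h4 : Y = (1 - 2 * κ) ^ (k + 1) * (u ^ (k + 1) *
        ∑ a ∈ range (Wp w), ((Ba w B a).card : ℝ) ^ (k + 1)) := by
      rw [hY]
      simp only [hyd]
      rw [mul_sum, mul_sum]
      refine sum_congr rfl fun a _ => ?_
      rw [mul_pow, mul_pow]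
      ring
    rw [h4]
    apply mul_le_mul_of_nonneg_left _ (by positivity)
    refine le_trans (le_of_eq ?_) (mul_le_mul_of_nonneg_left h3 (by positivity : 0 ≤ u ^ (k + 1)))
    rw [hud, div_pow, mul_pow, one_pow]
    field_simp
  set S := ∑ E ∈ B.powersetCard (k + 1), SP (PPy w) E with hS
  have hS0 : 0 ≤ S := sum_nonneg fun E _ => SP_nonneg _ (PPy_prime w) E
  set T := ∑ E ∈ B.powersetCard (k + 1),
        (((Ioc N (2 * N)).filter (fun n => ∀ e ∈ E, (n + e).Prime)).card : ℝ) with hT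
  have hT0 : 0 ≤ T := sum_nonneg fun _ _ => Nat.cast_nonneg _
  have hf0 : (0:ℝ) < ((k + 1).factorial : ℝ) := by exact_mod_cast Nat.factorial_pos _
  have hY0 : 0 ≤ Y := sum_nonneg fun a _ => pow_nonneg (hy0 a) _
  have h5 : t * ((1 - 2 * κ) * Y) ≤ ((k + 1).factorial : ℝ) * T := by
    refine le_trans (mul_le_mul_of_nonneg_left ?_ ht0.le) hsum
    have h6 : 2 * (((k:ℝ) + 1) * k) * Z ≤ 2 * (((k:ℝ) + 1) * k) * (δ * Y) :=
      mul_le_mul_of_nonneg_left hZY (by positivity)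
    have h7 : 2 * (((k:ℝ) + 1) * k) * (δ * Y) = κ * Y := by rw [← mul_assoc, hδκ]
    linarith
  have h6 : (1 - 2 * κ) ^ (k + 2) * ((N:ℝ) / L ^ (k + 1) * S) ≤ T := by
    have h7 : t * ((1 - 2 * κ) * ((1 - 2 * κ) ^ (k + 1) * (((k + 1).factorial : ℝ) *
        (W / L ^ (k + 1) * S)))) ≤ ((k + 1).factorial : ℝ) * T :=
      le_trans (mul_le_mul_of_nonneg_left (mul_le_mul_of_nonneg_left hY1 hρ.le) ht0.le) h5
    have h8 : t * ((1 - 2 * κ) * ((1 - 2 * κ) ^ (k + 1) * (((k + 1).factorial : ℝ) *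
        (W / L ^ (k + 1) * S)))) = ((k + 1).factorial : ℝ) *
        ((1 - 2 * κ) ^ (k + 2) * ((N:ℝ) / L ^ (k + 1) * S)) := by
      rw [htd]
      field_simp
      ring
    rw [h8] at h7
    exact le_of_mul_le_mul_left h7 hf0
  have hsing : ∑ E ∈ B.powersetCard (k + 1), singularSeries E ≤ (1 + κ) * S := by
    rw [hS, mul_sum]
    refine sum_le_sum fun E hE => ?_
    rw [mem_powersetCard] at hE
    exact h2 E hE.2 fun e he => hB e (hE.1 he)
  have hNL : 0 ≤ (N:ℝ) / L ^ (k + 1) := by positivity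
  have hsing0 : 0 ≤ ∑ E ∈ B.powersetCard (k + 1), singularSeries E :=
    sum_nonneg fun E _ => singularSeries_nonneg E
  by_cases hε1 : ε ≤ 1
  · have h7 : 1 - 2 * ((k:ℝ) + 2) * κ ≤ (1 - 2 * κ) ^ (k + 2) := by
      have h8 := one_add_mul_le_pow (a := -(2 * κ)) (by linarith) (k + 2)
      push_cast at h8
      calc 1 - 2 * ((k:ℝ) + 2) * κ = 1 + ((k:ℝ) + 2) * -(2 * κ) := by ring
        _ ≤ (1 + -(2 * κ)) ^ (k + 2) := h8
        _ = _ := by ring_nf
    have h8 : (1 - ε) * (1 + κ) ≤ (1 - 2 * κ) ^ (k + 2) := by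
      refine le_trans ?_ h7
      nlinarith
    calc (1 - ε) * ((N:ℝ) / L ^ (k + 1)) * ∑ E ∈ B.powersetCard (k + 1), singularSeries E
        ≤ (1 - ε) * ((N:ℝ) / L ^ (k + 1)) * ((1 + κ) * S) :=
          mul_le_mul_of_nonneg_left hsing (mul_nonneg (by linarith) hNL)
      _ = ((1 - ε) * (1 + κ)) * ((N:ℝ) / L ^ (k + 1) * S) := by ring
      _ ≤ (1 - 2 * κ) ^ (k + 2) * ((N:ℝ) / L ^ (k + 1) * S) :=
          mul_le_mul_of_nonneg_right h8 (mul_nonneg hNL hS0)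
      _ ≤ T := h6
  · push Not at hε1
    refine le_trans ?_ hT0
    have : (1 - ε) * ((N:ℝ) / L ^ (k + 1)) * ∑ E ∈ B.powersetCard (k + 1), singularSeries E =
        -((ε - 1) * ((N:ℝ) / L ^ (k + 1)) * ∑ E ∈ B.powersetCard (k + 1), singularSeries E) := by
      ring
    rw [this]
    have : 0 ≤ (ε - 1) * ((N:ℝ) / L ^ (k + 1)) * ∑ E ∈ B.powersetCard (k + 1), singularSeries E :=
      mul_nonneg (mul_nonneg (by linarith) hNL) hsing0
    linarith

end Pool.Agent.HLE
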