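import Mathlib
import Pool.Agent.HLE.Lower2
import Pool.Agent.HLT.Final3

/-!
Lower half of the average over the `(k+1)`-subsets of every large set, passage from blocks to `x`.
-/

set_option autoImplicit false

namespace Pool.Agent.HLE

open Finset Filter Pool.Agent.HLT Pool.Agent.HL26 Pool.Agent.Maynard

/-- lower bound for the prime tuples of one set -/
lemma pi_lower' (m : ℕ) (B : Finset ℕ) (H I M : ℕ) (x δ T : ℝ) (hT : 0 ≤ T) (hB : ∀ e ∈ B, e ≤ H)
    (hM : M + H ≤ ⌊x⌋₊) (hx : 0 ≤ x) (hδ : δ ≤ 1) (hN : ∀ i < I, 2 ≤ M / 2 ^ (i + 1))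
    (hblk : ∀ i < I, (1 - δ) * (((M / 2 ^ (i + 1) : ℕ) : ℝ) /
        (Real.log ((M / 2 ^ (i + 1) : ℕ) : ℝ)) ^ (m + 1)) * T ≤
        ∑ E' ∈ B.powersetCard (m + 1),
          (((Finset.Ioc (M / 2 ^ (i + 1)) (2 * (M / 2 ^ (i + 1)))).filter
            (fun n => ∀ e ∈ E', (n + e).Prime)).card : ℝ)) :
    (1 - δ) * ((∑ i ∈ Finset.range I, ((M / 2 ^ (i + 1) : ℕ) : ℝ)) / (Real.log x) ^ (m + 1)) * T ≤
      ∑ E' ∈ B.powersetCard (m + 1), (tupleCount x (translate0 E') : ℝ) := by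
  have hMx : (M:ℝ) ≤ x := by
    have h1 : ((M + H : ℕ) : ℝ) ≤ ((⌊x⌋₊ : ℕ) : ℝ) := by exact_mod_cast hM
    have h2 := Nat.floor_le hx
    push_cast at h1
    have h3 : (0:ℝ) ≤ (H:ℝ) := by positivity
    linarith
  have h1 : ∀ i ∈ Finset.range I, (1 - δ) * (((M / 2 ^ (i + 1) : ℕ) : ℝ) /
        (Real.log x) ^ (m + 1)) * T ≤
        ∑ E' ∈ B.powersetCard (m + 1),
          (((Finset.Ioc (M / 2 ^ (i + 1)) (2 * (M / 2 ^ (i + 1)))).filter
            (fun n => ∀ e ∈ E', (n + e).Prime)).card : ℝ) := by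
    intro i hi
    have hi' := Finset.mem_range.mp hi
    refine le_trans ?_ (hblk i hi')
    apply mul_le_mul_of_nonneg_right _ hT
    apply mul_le_mul_of_nonneg_left _ (by linarith)
    have h2 : (2:ℝ) ≤ ((M / 2 ^ (i + 1) : ℕ) : ℝ) := by exact_mod_cast hN i hi'
    have h3 : ((M / 2 ^ (i + 1) : ℕ) : ℝ) ≤ x := by
      refine le_trans ?_ hMx
      exact_mod_cast Nat.div_le_self _ _
    have h4 : 0 < Real.log ((M / 2 ^ (i + 1) : ℕ) : ℝ) := Real.log_pos (by linarith)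
    have h5 : Real.log ((M / 2 ^ (i + 1) : ℕ) : ℝ) ≤ Real.log x :=
      Real.log_le_log (by linarith) h3
    apply div_le_div_of_nonneg_left (by linarith) (by positivity)
    exact pow_le_pow_left₀ h4.le h5 _
  have h2 := Finset.sum_le_sum h1
  rw [Finset.sum_comm] at h2
  have h3 : ∑ i ∈ Finset.range I, (1 - δ) * (((M / 2 ^ (i + 1) : ℕ) : ℝ) /
        (Real.log x) ^ (m + 1)) * T =
      (1 - δ) * ((∑ i ∈ Finset.range I, ((M / 2 ^ (i + 1) : ℕ) : ℝ)) / (Real.log x) ^ (m + 1)) *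
          T := by
    rw [← Finset.sum_mul, ← Finset.mul_sum, Finset.sum_div]
  rw [h3] at h2
  refine h2.trans ?_
  apply Finset.sum_le_sum
  intro E' hE'
  obtain ⟨hE1, hE2⟩ := Finset.mem_powersetCard.mp hE'
  have hne : E'.Nonempty := by
    rw [← Finset.card_pos]
    omega
  have h4 := count_le_tupleCount E' H M x hne (fun e he => hB e (hE1 he)) hM
  have h5 := E7aux.blocks (fun n => ∀ e ∈ E', (n + e).Prime) M I
  have h6 : ∑ i ∈ Finset.range I, ((Finset.Ioc (M / 2 ^ (i + 1)) (2 * (M / 2 ^ (i + 1)))).filter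
      (fun n => ∀ e ∈ E', (n + e).Prime)).card ≤ tupleCount x (translate0 E') := by
    omega
  exact_mod_cast h6

/-- For all `k ≥ 1`, `ε > 0` there is `K` such that for every `A`, all large `x` and every set `B`
of at least `K log x` integers in `[0, (log x)^A]`, the lower half of the Hardy-Littlewood
asymptotic holds on average over the `(k+1)`-subsets of `B`. -/
theorem lower_every_set (k : ℕ) (hk : 1 ≤ k) (ε : ℝ) (hε : 0 < ε) : ∃ K : ℝ, 0 < K ∧ ∀ A : ℕ,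
    ∃ X : ℝ, ∀ x : ℝ, X ≤ x → ∀ B : Finset ℕ, (∀ b ∈ B, (b:ℝ) ≤ (Real.log x) ^ A) →
    K * Real.log x ≤ B.card →
    (1 - ε) * (x / (Real.log x) ^ (k + 1)) *
        ∑ E ∈ B.powersetCard (k + 1), singularSeries (translate0 E) ≤
      ∑ E ∈ B.powersetCard (k + 1), (tupleCount x (translate0 E) : ℝ) := by
  obtain ⟨ε', hε', hε1, hεε⟩ : ∃ ε' : ℝ, 0 < ε' ∧ ε' ≤ 1 ∧ ε' ≤ ε :=
    ⟨min ε 1, lt_min hε one_pos, min_le_right _ _, min_le_left _ _⟩
  obtain ⟨K, hK, hblk⟩ := lower_block k hk (ε' / 2) (by positivity)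
  refine ⟨K, hK, fun A => ?_⟩
  obtain ⟨I, hI⟩ := exists_pow_lt_of_lt_one (show (0:ℝ) < ε' / 16 by positivity)
    (show (1/2:ℝ) < 1 by norm_num)
  have hI' : (1:ℝ) / 2 ^ I ≤ ε' / 16 := by
    rw [← one_div_pow]
    exact hI.le
  obtain ⟨N0, hN0⟩ := eventually_atTop.mp (hblk (A + 1))
  obtain ⟨X, hX⟩ := E7aux.asym A I ε' hε' hε1 hI' N0 0
  refine ⟨X, fun x hx B hB hBK => ?_⟩
  obtain ⟨-, hx1, hrest⟩ := hX x hx
  have hlx : 0 < Real.log x := Real.log_pos hx1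
  obtain ⟨H, hH⟩ : ∃ H : ℕ, H = ⌊(Real.log x) ^ A⌋₊ := ⟨_, rfl⟩
  have hHr : (H:ℝ) ≤ (Real.log x) ^ A := by
    rw [hH]
    exact Nat.floor_le (by positivity)
  have hBH : ∀ e ∈ B, e ≤ H := fun e he => by
    rw [hH]
    exact Nat.le_floor (hB e he)
  obtain ⟨hHf, hblocks, hsum⟩ := hrest H hHr
  set M := ⌊x⌋₊ - H with hM
  simp only [Pool.Agent.HL26.singularSeries_translate0]
  set T := ∑ E ∈ B.powersetCard (k + 1), singularSeries E with hT
  have hT0 : 0 ≤ T := sum_nonneg fun E _ => singularSeries_nonneg E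
  have h1 := pi_lower' k B H I M x (ε' / 2) T hT0 hBH (by omega) (by linarith) (by linarith)
    (fun i hi => (hblocks i hi).2.1) (fun i hi => ?_)
  · have hpow : 0 < (Real.log x) ^ (k + 1) := by positivity
    refine le_trans ?_ h1
    apply mul_le_mul_of_nonneg_right _ hT0
    have h2 : (1 - ε' / 8) * x / (Real.log x) ^ (k + 1) ≤
        (∑ i ∈ Finset.range I, ((M / 2 ^ (i + 1) : ℕ) : ℝ)) / (Real.log x) ^ (k + 1) :=
      div_le_div_of_nonneg_right hsum hpow.le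
    have h3 : 0 ≤ x / (Real.log x) ^ (k + 1) := by
      have : 0 ≤ x := by linarith
      positivity
    calc (1 - ε) * (x / (Real.log x) ^ (k + 1))
        ≤ ((1 - ε' / 2) * (1 - ε' / 8)) * (x / (Real.log x) ^ (k + 1)) := by
          apply mul_le_mul_of_nonneg_right _ h3
          nlinarith
      _ = (1 - ε' / 2) * ((1 - ε' / 8) * x / (Real.log x) ^ (k + 1)) := by ring
      _ ≤ _ := mul_le_mul_of_nonneg_left h2 (by linarith)
  · obtain ⟨g1, g2, g3⟩ := hblocks i hi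
    have g2' : (2:ℝ) ≤ ((M / 2 ^ (i + 1) : ℕ) : ℝ) := by exact_mod_cast g2
    have g4 : ((M / 2 ^ (i + 1) : ℕ) : ℝ) ≤ x := by
      calc ((M / 2 ^ (i + 1) : ℕ) : ℝ) ≤ (⌊x⌋₊ : ℝ) := by
            exact_mod_cast (Nat.div_le_self _ _).trans (Nat.sub_le _ _)
        _ ≤ x := Nat.floor_le (by linarith)
    have g5 : Real.log ((M / 2 ^ (i + 1) : ℕ) : ℝ) ≤ Real.log x :=
      Real.log_le_log (by linarith) g4
    refine hN0 (M / 2 ^ (i + 1)) g1 B (fun b hb => ?_) ?_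
    · refine le_trans ?_ g3
      exact_mod_cast hBH b hb
    · exact (mul_le_mul_of_nonneg_left g5 hK.le).trans hBK

end Pool.Agent.HLE
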