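import Mathlib
import Pool.Agent.HLE.Lower

/-!
The mean of the singular series over the `(k+1)`-subsets of an arbitrary large finite set.
-/

set_option autoImplicit false

namespace Pool.Agent.HLE

open Finset Filter H34P Pool.Agent.HLT Pool.Agent.HL26 Pool.Agent.Maynard

lemma sum_SP_ge (w k : ℕ) (B : Finset ℕ) :
    (cW (Wp w) * B.card) ^ (k + 1) - (k + 1) * k * (cW (Wp w) * B.card) ^ k ≤
      ((k + 1).factorial : ℝ) * (cW (Wp w) ^ (k + 1) *
        ∑ E ∈ B.powersetCard (k + 1), SP (PPy w) E) := by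
  have hW0 : (0:ℝ) < Wp w := by exact_mod_cast SelDAux.Wp_pos w
  have hc := cW_nonneg (Wp w)
  have h0 : 0 ≤ cW (Wp w) * (B.card : ℝ) := by positivity
  have h1 := sum_choose_ge k (range (Wp w)) (fun a => (Ba w B a).card) h0 (by
    rw [sum_Ba, card_range]
    exact le_of_eq (by ring))
  rw [card_range] at h1
  have h2 := sum_choose_eq (range (Wp w)) B (fun a b => (a + b).Coprime (Wp w)) (k + 1)
  have h3 : ∑ a ∈ range (Wp w), ((Ba w B a).card.choose (k + 1) : ℝ) =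
      ∑ E ∈ B.powersetCard (k + 1), ((AC w E).card : ℝ) := by
    unfold Ba AC
    exact_mod_cast h2
  have h4 : ∑ E ∈ B.powersetCard (k + 1), ((AC w E).card : ℝ) =
      (Wp w : ℝ) * cW (Wp w) ^ (k + 1) * ∑ E ∈ B.powersetCard (k + 1), SP (PPy w) E := by
    rw [mul_sum]
    refine sum_congr rfl fun E hE => ?_
    rw [AC_card_SP, (mem_powersetCard.1 hE).2]
  rw [h3, h4] at h1
  have h5 : (Wp w : ℝ) * ((cW (Wp w) * B.card) ^ (k + 1) -
      (k + 1) * k * (cW (Wp w) * B.card) ^ k) ≤ (Wp w : ℝ) * (((k + 1).factorial : ℝ) *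
      (cW (Wp w) ^ (k + 1) * ∑ E ∈ B.powersetCard (k + 1), SP (PPy w) E)) := by
    refine h1.trans (le_of_eq ?_)
    ring
  exact le_of_mul_le_mul_left h5 hW0

/-- For every finite set `B` of at least `M(k, ε)` natural numbers the mean of the singular series
over the `(k+1)`-subsets of `B` is at least `1 - ε`. -/
theorem sing_mean (k : ℕ) (ε : ℝ) (hε : 0 < ε) : ∃ M : ℝ, 0 < M ∧ ∀ B : Finset ℕ,
    M ≤ B.card → (1 - ε) * ((B.card).choose (k + 1) : ℝ) ≤
      ∑ E ∈ B.powersetCard (k + 1), singularSeries E := by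
  by_cases hε1 : ε ≤ 1
  swap
  · push Not at hε1
    refine ⟨1, one_pos, fun B _ => ?_⟩
    have h1 : 0 ≤ ∑ E ∈ B.powersetCard (k + 1), singularSeries E :=
      sum_nonneg fun E _ => singularSeries_nonneg E
    refine le_trans ?_ h1
    have : 0 ≤ (ε - 1) * ((B.card).choose (k + 1) : ℝ) :=
      mul_nonneg (by linarith) (Nat.cast_nonneg _)
    linarith
  obtain ⟨w, hw1, hw⟩ : ∃ w : ℕ, 1 ≤ w ∧ ((k:ℝ) + 1) ^ 2 / w ≤ ε / 2 := by
    obtain ⟨w, hw⟩ := exists_nat_ge (2 * ((k:ℝ) + 1) ^ 2 / ε + 1)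
    have h0 : (0:ℝ) < 2 * ((k:ℝ) + 1) ^ 2 / ε := by positivity
    have hw1 : (1:ℝ) ≤ w := by linarith
    refine ⟨w, by exact_mod_cast hw1, ?_⟩
    rw [div_le_iff₀ (by linarith)]
    have h1 : 2 * ((k:ℝ) + 1) ^ 2 / ε ≤ w := by linarith
    rw [div_le_iff₀ hε] at h1
    linarith
  have hW0 : (0:ℝ) < Wp w := by exact_mod_cast SelDAux.Wp_pos w
  have hc0 : 0 < cW (Wp w) := cW_pos (SelDAux.Wp_pos w)
  set c := cW (Wp w) with hc
  refine ⟨2 * (k + 1) * (k + 1) / (ε * c), by positivity, fun B hB => ?_⟩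
  have hb0 : (0:ℝ) < B.card := lt_of_lt_of_le (by positivity) hB
  set b : ℝ := (B.card : ℝ) with hb
  have h1 := sum_SP_ge w k B
  rw [← hc, ← hb] at h1
  set S := ∑ E ∈ B.powersetCard (k + 1), SP (PPy w) E with hS
  have hS0 : 0 ≤ S := sum_nonneg fun E _ => SP_nonneg _ (PPy_prime w) E
  have h2 : ((k:ℝ) + 1) * k * (c * b) ^ k ≤ ε / 2 * (c * b) ^ (k + 1) := by
    have h3 : ((k:ℝ) + 1) * k ≤ ε / 2 * (c * b) := by
      rw [div_le_iff₀ (by positivity)] at hB
      have hk : (0:ℝ) ≤ k := Nat.cast_nonneg k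
      nlinarith
    calc ((k:ℝ) + 1) * k * (c * b) ^ k ≤ (ε / 2 * (c * b)) * (c * b) ^ k :=
          mul_le_mul_of_nonneg_right h3 (by positivity)
      _ = _ := by ring
  have h3 : (1 - ε / 2) * (c ^ (k + 1) * b ^ (k + 1)) ≤
      ((k + 1).factorial : ℝ) * (c ^ (k + 1) * S) := by
    rw [← mul_pow]
    linarith
  have h4 : (1 - ε / 2) * b ^ (k + 1) ≤ ((k + 1).factorial : ℝ) * S := by
    have h5 : c ^ (k + 1) * ((1 - ε / 2) * b ^ (k + 1)) ≤
        c ^ (k + 1) * (((k + 1).factorial : ℝ) * S) := by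
      refine le_trans (le_of_eq ?_) (h3.trans (le_of_eq ?_)) <;> ring
    exact le_of_mul_le_mul_left h5 (by positivity)
  have h5 := fact_choose_le k B.card
  rw [← hb] at h5
  have hf0 : (0:ℝ) < ((k + 1).factorial : ℝ) := by exact_mod_cast Nat.factorial_pos _
  have h6 : (1 - ε / 2) * ((B.card).choose (k + 1) : ℝ) ≤ S := by
    have h7 : ((k + 1).factorial : ℝ) * ((1 - ε / 2) * ((B.card).choose (k + 1) : ℝ)) ≤
        ((k + 1).factorial : ℝ) * S := by
      refine le_trans ?_ h4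
      calc ((k + 1).factorial : ℝ) * ((1 - ε / 2) * ((B.card).choose (k + 1) : ℝ))
          = (1 - ε / 2) * (((k + 1).factorial : ℝ) * ((B.card).choose (k + 1) : ℝ)) := by ring
        _ ≤ _ := mul_le_mul_of_nonneg_left h5 (by linarith)
    exact le_of_mul_le_mul_left h7 hf0
  have h7 : (1 - ε / 2) * S ≤ ∑ E ∈ B.powersetCard (k + 1), singularSeries E := by
    rw [hS, mul_sum]
    refine sum_le_sum fun E hE => ?_
    have h8 := singularSeries_ge E w hw1
    rw [(mem_powersetCard.1 hE).2] at h8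
    push_cast at h8
    refine le_trans ?_ h8
    exact mul_le_mul_of_nonneg_right (by linarith) (SP_nonneg _ (PPy_prime w) E)
  have hC0 : (0:ℝ) ≤ ((B.card).choose (k + 1) : ℝ) := Nat.cast_nonneg _
  calc (1 - ε) * ((B.card).choose (k + 1) : ℝ)
      ≤ (1 - ε / 2) * ((1 - ε / 2) * ((B.card).choose (k + 1) : ℝ)) := by
        rw [← mul_assoc]
        apply mul_le_mul_of_nonneg_right _ hC0
        nlinarith [sq_nonneg ε]
    _ ≤ (1 - ε / 2) * S := mul_le_mul_of_nonneg_left h6 (by linarith)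
    _ ≤ _ := h7

end Pool.Agent.HLE
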