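import Mathlib
import Pool.Agent.HLE.SingMean
import Pool.Agent.H34P.PSi

/-!
Passage from blocks to `x` for the upper bound over a family of subsets.
-/

set_option autoImplicit false

namespace Pool.Agent.HLE

open Finset Filter H34P Pool.Agent.HLT Pool.Agent.HL26 Pool.Agent.Maynard

/-- the number of `n` in the block with all `n + e` prime -/
def AN (N : ℕ) (E : Finset ℕ) : ℕ := ((Ioc N (2 * N)).filter (fun n => ∀ e ∈ E, (n + e).Prime)).card

/-- upper bound for the average over a family of subsets, one block -/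
def FamBlock (k : ℕ) : Prop := ∀ ε : ℝ, 0 < ε → ∃ K : ℝ, 0 < K ∧ ∀ A : ℕ, ∀ᶠ N : ℕ in atTop,
  ∀ B : Finset ℕ, (∀ b ∈ B, (b:ℝ) ≤ (Real.log N) ^ A) → K * Real.log N ≤ B.card →
  ∀ G : Finset (Finset ℕ), G ⊆ B.powersetCard (k + 1) →
    ∑ E ∈ G, (AN N E : ℝ) ≤ ((N:ℝ) / (Real.log N) ^ (k + 1)) *
      ((4 ^ k + ε) * ∑ E ∈ G, singularSeries E +
        ε * ∑ E ∈ B.powersetCard (k + 1), singularSeries E)

/-- translation changes the block count by little -/
lemma AN_translate0 (N : ℕ) (E : Finset ℕ) :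
    AN N (translate0 E) ≤ AN N E + sInf (E : Set ℕ) := by
  unfold AN
  set μ := sInf (E : Set ℕ) with hμ
  have hle : ∀ e ∈ E, μ ≤ e := fun e he => Nat.sInf_le (by exact_mod_cast he)
  have h1 : (Ioc N (2 * N)).filter (fun n => ∀ e ∈ translate0 E, (n + e).Prime) ⊆
      Ioc N (N + μ) ∪ ((Ioc N (2 * N)).filter (fun n => ∀ e ∈ E, (n + e).Prime)).image
        (fun n => n + μ) := by
    intro n hn
    rw [mem_filter, mem_Ioc] at hn
    rw [mem_union, mem_Ioc, mem_image]
    by_cases h : n ≤ N + μ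
    · exact Or.inl ⟨hn.1.1, h⟩
    · right
      refine ⟨n - μ, ?_, by omega⟩
      rw [mem_filter, mem_Ioc]
      refine ⟨⟨by omega, by omega⟩, fun e he => ?_⟩
      have h2 := hn.2 (e - μ) (by
        unfold translate0
        exact mem_image_of_mem _ he)
      have h3 := hle e he
      have h4 : n - μ + e = n + (e - μ) := by omega
      rw [h4]
      exact h2
  refine (card_le_card h1).trans ((card_union_le _ _).trans ?_)
  have h2 : (Ioc N (N + μ)).card = μ := by simp
  have h3 := card_image_le (s := (Ioc N (2 * N)).filter (fun n => ∀ e ∈ E, (n + e).Prime))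
    (f := fun n => n + μ)
  omega

/-- upper bound for the average over a family of subsets -/
theorem fam_x (k : ℕ) (hk : 1 ≤ k) (hU : FamBlock k) (ε : ℝ) (hε : 0 < ε) : ∃ K : ℝ, 0 < K ∧
    ∀ A : ℕ, ∃ X : ℝ, ∀ x : ℝ, X ≤ x → ∀ B : Finset ℕ, (∀ b ∈ B, (b:ℝ) ≤ (Real.log x) ^ A) →
    K * Real.log x ≤ B.card → ∀ G : Finset (Finset ℕ), G ⊆ B.powersetCard (k + 1) →
    ∑ E ∈ G, (tupleCount x (translate0 E) : ℝ) ≤ (x / (Real.log x) ^ (k + 1)) *
      ((4 ^ k + ε) * ∑ E ∈ G, singularSeries (translate0 E) +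
        ε * ∑ E ∈ B.powersetCard (k + 1), singularSeries (translate0 E)) := by
  obtain ⟨C, hC, hblk⟩ := tupleCount_blocks (k + 1) (by omega)
  obtain ⟨I0, hI0⟩ := exists_pow_small C (ε / 4) (by positivity)
  obtain ⟨K, hK, hbb⟩ := hU (ε / 4) (by positivity)
  obtain ⟨M1, hM1, hmean⟩ := sing_mean k (1 / 2) (by norm_num)
  have h4k : (0:ℝ) < 4 ^ k := by positivity
  obtain ⟨δ, hδ0, hδ1, hδ2⟩ : ∃ δ : ℝ, 0 < δ ∧ δ ≤ 1 ∧ δ * (4 ^ k + ε / 4) ≤ ε / 4 := by
    refine ⟨min 1 ((ε / 4) / (4 ^ k + ε / 4)), by positivity, min_le_left _ _, ?_⟩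
    calc min 1 ((ε / 4) / (4 ^ k + ε / 4)) * ((4:ℝ) ^ k + ε / 4)
        ≤ ((ε / 4) / (4 ^ k + ε / 4)) * (4 ^ k + ε / 4) :=
          mul_le_mul_of_nonneg_right (min_le_right _ _) (by positivity)
      _ = ε / 4 := by field_simp
  refine ⟨K, hK, fun A => ?_⟩
  have hev : ∀ᶠ x : ℝ in atTop, ∀ i ∈ Finset.range I0, _ :=
    (Filter.eventually_all_finset (Finset.range I0)).2 fun i _ =>
      ev_block i A (k + 1) δ hδ0 _ (hbb (A + 1))
  have hev2 := hblk I0 (ε / 16) (by positivity)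
  -- the translations and the size of `B`
  have hev3 : ∀ᶠ x : ℝ in atTop, (I0 : ℝ) * (Real.log x) ^ A ≤
      ε / 16 * (x / (Real.log x) ^ (k + 1)) := by
    have h := (Real.isLittleO_pow_log_id_atTop (n := A + (k + 1))).def
      (c := ε / 16 / (I0 + 1)) (by positivity)
    filter_upwards [h, eventually_gt_atTop (1:ℝ)] with x hx hx1
    have hl : 0 < Real.log x := Real.log_pos hx1
    rw [Real.norm_of_nonneg (by positivity), id, Real.norm_of_nonneg (by linarith)] at hx
    rw [mul_div_assoc', le_div_iff₀ (by positivity)]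
    have h2 : (I0:ℝ) * (ε / 16 / (I0 + 1)) ≤ ε / 16 := by
      rw [mul_div_assoc', div_le_iff₀ (by positivity)]
      nlinarith
    calc (I0 : ℝ) * (Real.log x) ^ A * (Real.log x) ^ (k + 1) =
          (I0 : ℝ) * (Real.log x) ^ (A + (k + 1)) := by ring
      _ ≤ (I0 : ℝ) * (ε / 16 / (I0 + 1) * x) := mul_le_mul_of_nonneg_left hx (by positivity)
      _ = ((I0:ℝ) * (ε / 16 / (I0 + 1))) * x := by ring
      _ ≤ ε / 16 * x := mul_le_mul_of_nonneg_right h2 (by linarith)
  have hev4 : ∀ᶠ x : ℝ in atTop, M1 / K ≤ Real.log x :=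
    Real.tendsto_log_atTop.eventually_ge_atTop _
  obtain ⟨X, hX⟩ := Filter.eventually_atTop.1
    (hev.and (hev2.and (hev3.and (hev4.and (eventually_gt_atTop 1)))))
  refine ⟨X, fun x hx B hB hBK G hG => ?_⟩
  obtain ⟨h1, h2, h3, h4, hx1⟩ := hX x hx
  have hx0 : 0 < x := by linarith
  have hlogx : 0 < Real.log x := Real.log_pos hx1
  simp only [Pool.Agent.HL26.singularSeries_translate0]
  have hBM : M1 ≤ B.card := by
    rw [div_le_iff₀ hK] at h4
    linarith
  have hmB := hmean B hBM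
  set SB := ∑ E ∈ B.powersetCard (k + 1), singularSeries E with hSB
  set SG := ∑ E ∈ G, singularSeries E with hSG
  have hSG0 : 0 ≤ SG := sum_nonneg fun E _ => singularSeries_nonneg E
  have hSB0 : 0 ≤ SB := sum_nonneg fun E _ => singularSeries_nonneg E
  have hSGB : SG ≤ SB := sum_le_sum_of_subset_of_nonneg hG fun E _ _ => singularSeries_nonneg E
  have hGc : (G.card : ℝ) ≤ 2 * SB := by
    have h5 : G.card ≤ (B.card).choose (k + 1) := by
      rw [← card_powersetCard]
      exact card_le_card hG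
    have h6 : (G.card : ℝ) ≤ ((B.card).choose (k + 1) : ℝ) := by exact_mod_cast h5
    linarith
  set Q : ℝ := x / (Real.log x) ^ (k + 1) with hQ
  have hQ0 : 0 < Q := by positivity
  -- one tuple
  have hone : ∀ E ∈ G, (tupleCount x (translate0 E) : ℝ) ≤
      ∑ i ∈ Finset.range I0, (AN (⌊x⌋₊ / 2 ^ (i + 1)) E : ℝ) +
        Q * (ε / 4 * singularSeries E + ε / 8) := by
    intro E hE
    have hEB := mem_powersetCard.1 (hG hE)
    have hne : E.Nonempty := by
      rw [← card_pos]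
      omega
    have hcard : (translate0 E).card = k + 1 := by
      rw [Pool.Agent.HL26.card_translate0, hEB.2]
    set E' := translate0 E with hE'
    set e : Fin (k + 1) → ℕ := fun i => E'.orderEmbOfFin hcard i with he
    have himg : Finset.image e Finset.univ = E' := Finset.image_orderEmbOfFin_univ E' hcard
    have hinj : Function.Injective e := (E'.orderEmbOfFin hcard).injective
    have h5 := (abs_le.1 (h2 e hinj)).2
    rw [himg] at h5
    have hS' : singularSeries E' = singularSeries E := Pool.Agent.HL26.singularSeries_translate0 E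
    rw [hS'] at h5
    have hμ : ((sInf (E : Set ℕ) : ℕ) : ℝ) ≤ (Real.log x) ^ A := by
      have hmem := Nat.sInf_mem (s := (E : Set ℕ)) (by exact_mod_cast hne)
      exact hB _ (hEB.1 (by exact_mod_cast hmem))
    have h6 : ∀ i ∈ Finset.range I0, (((⌊x⌋₊ / 2 ^ (i + 1) : ℕ) : ℝ) / x *
          (Real.log x / Real.log ((⌊x⌋₊ / 2 ^ (i + 1) : ℕ) : ℝ)) ^ (k + 1)) *
            Pool.Agent.HLT.rr (⌊x⌋₊ / 2 ^ (i + 1)) e ≤
          (1 / Q) * ((AN (⌊x⌋₊ / 2 ^ (i + 1)) E : ℝ) + (Real.log x) ^ A) := by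
      intro i hi
      obtain ⟨b1, b2, b3, b4, b5⟩ := h1 i hi
      set N := ⌊x⌋₊ / 2 ^ (i + 1) with hN
      have hN0 : (0:ℝ) < N := by exact_mod_cast (by omega : 0 < N)
      have hlogN : 0 < Real.log (N : ℝ) := Real.log_pos (by exact_mod_cast (by omega : 1 < N))
      have h8 : Pool.Agent.HLT.rr N e = (AN N E' : ℝ) * (Real.log N) ^ (k + 1) / N := by
        unfold Pool.Agent.HLT.rr AN
        have h9 : (Finset.Ioc N (2 * N)).filter (fun n => ∀ i, (n + e i).Prime) =
            (Finset.Ioc N (2 * N)).filter (fun n => ∀ a ∈ E', (n + a).Prime) := by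
          apply Finset.filter_congr
          intro n _
          constructor
          · intro h a ha
            rw [← himg] at ha
            obtain ⟨j, _, rfl⟩ := Finset.mem_image.1 ha
            exact h j
          · intro h j
            exact h _ (himg ▸ Finset.mem_image_of_mem e (Finset.mem_univ j))
        rw [h9]
      have h9 : (((N : ℕ) : ℝ) / x * (Real.log x / Real.log (N : ℝ)) ^ (k + 1)) * Pool.Agent.HLT.rr N e =
          (1 / Q) * (AN N E' : ℝ) := by
        rw [h8, hQ, div_pow]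
        field_simp
      rw [h9]
      apply mul_le_mul_of_nonneg_left _ (by positivity)
      have h10 : (AN N E' : ℝ) ≤ (AN N E : ℝ) + ((sInf (E : Set ℕ) : ℕ) : ℝ) := by
        exact_mod_cast AN_translate0 N E
      linarith
    have h7 := Finset.sum_le_sum h6
    rw [← mul_sum, sum_add_distrib, sum_const, card_range, nsmul_eq_mul] at h7
    have h8 : C * singularSeries E / 2 ^ I0 ≤ ε / 4 * singularSeries E := by
      rw [mul_div_right_comm]
      exact mul_le_mul_of_nonneg_right hI0 (singularSeries_nonneg E)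
    have h9 : (tupleCount x E' : ℝ) * (Real.log x) ^ (k + 1) / x = (1 / Q) * tupleCount x E' := by
      rw [hQ]
      field_simp
    rw [h9] at h5
    have h10 : (1 / Q) * (tupleCount x E' : ℝ) ≤
        (1 / Q) * (∑ i ∈ Finset.range I0, (AN (⌊x⌋₊ / 2 ^ (i + 1)) E : ℝ) + ε / 16 * Q) +
          (ε / 4 * singularSeries E + ε / 16) := by
      have h11 : (1 / Q) * (∑ i ∈ Finset.range I0, (AN (⌊x⌋₊ / 2 ^ (i + 1)) E : ℝ) +
          I0 * (Real.log x) ^ A) ≤ (1 / Q) * (∑ i ∈ Finset.range I0,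
            (AN (⌊x⌋₊ / 2 ^ (i + 1)) E : ℝ) + ε / 16 * Q) :=
        mul_le_mul_of_nonneg_left (by linarith) (by positivity)
      linarith
    have h12 := mul_le_mul_of_nonneg_left h10 hQ0.le
    have h13 : Q * ((1 / Q) * (tupleCount x E' : ℝ)) = tupleCount x E' := by
      field_simp
    rw [h13] at h12
    refine h12.trans (le_of_eq ?_)
    field_simp
    ring
  refine (sum_le_sum hone).trans ?_
  rw [sum_add_distrib, ← mul_sum, sum_add_distrib, ← mul_sum, sum_const, nsmul_eq_mul, sum_comm,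
    ← hSG]
  -- the blocks
  have h5 : ∀ i ∈ Finset.range I0, ∑ E ∈ G, (AN (⌊x⌋₊ / 2 ^ (i + 1)) E : ℝ) ≤
      (1 / 2 ^ (i + 1)) * (Q * ((1 + δ) * ((4 ^ k + ε / 4) * SG + ε / 4 * SB))) := by
    intro i hi
    obtain ⟨b1, b2, b3, b4, b5⟩ := h1 i hi
    have h7 := b1 B (fun b hb => (hB b hb).trans b3)
      ((mul_le_mul_of_nonneg_left b5 hK.le).trans hBK) G hG
    refine h7.trans ?_
    set N := ⌊x⌋₊ / 2 ^ (i + 1) with hN
    have hN0 : (0:ℝ) < N := by exact_mod_cast (by omega : 0 < N)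
    have hlogN : 0 < Real.log (N : ℝ) := Real.log_pos (by exact_mod_cast (by omega : 1 < N))
    have h10 : (N : ℝ) ≤ (1 / 2 ^ (i + 1)) * x := by
      have h11 : (N : ℝ) ≤ (⌊x⌋₊ : ℝ) / ((2 ^ (i + 1) : ℕ) : ℝ) := Nat.cast_div_le
      push_cast at h11
      have h12 : (⌊x⌋₊ : ℝ) ≤ x := Nat.floor_le hx0.le
      rw [le_div_iff₀ (by positivity)] at h11
      rw [div_mul_eq_mul_div, one_mul, le_div_iff₀ (by positivity)]
      linarith
    have h11 : (N:ℝ) / (Real.log N) ^ (k + 1) ≤ (1 / 2 ^ (i + 1)) * (Q * (1 + δ)) := by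
      have h12 : (N:ℝ) / (Real.log N) ^ (k + 1) =
          (N:ℝ) / (Real.log x) ^ (k + 1) * (Real.log x / Real.log (N : ℝ)) ^ (k + 1) := by
        rw [div_pow]
        field_simp
      rw [h12]
      calc (N:ℝ) / (Real.log x) ^ (k + 1) * (Real.log x / Real.log (N : ℝ)) ^ (k + 1)
          ≤ ((1 / 2 ^ (i + 1)) * x) / (Real.log x) ^ (k + 1) * (1 + δ) := by
            apply mul_le_mul _ b4 (by positivity) (by positivity)
            exact div_le_div_of_nonneg_right h10 (by positivity)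
        _ = (1 / 2 ^ (i + 1)) * (Q * (1 + δ)) := by
            rw [hQ]
            ring
    calc _ ≤ ((1 / 2 ^ (i + 1)) * (Q * (1 + δ))) * ((4 ^ k + ε / 4) * SG + ε / 4 * SB) :=
          mul_le_mul_of_nonneg_right h11 (by positivity)
      _ = _ := by ring
  have h6 := sum_le_sum h5
  rw [← sum_mul] at h6
  have h7 : (∑ i ∈ Finset.range I0, (1 / 2 ^ (i + 1) : ℝ)) *
      (Q * ((1 + δ) * ((4 ^ k + ε / 4) * SG + ε / 4 * SB))) ≤
      1 * (Q * ((1 + δ) * ((4 ^ k + ε / 4) * SG + ε / 4 * SB))) :=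
    mul_le_mul_of_nonneg_right (sum_half I0) (by positivity)
  have h8 : (1 + δ) * ((4 ^ k + ε / 4) * SG + ε / 4 * SB) ≤
      (4 ^ k + ε / 2) * SG + ε / 2 * SB := by
    have h9 : δ * (4 ^ k + ε / 4) * SG ≤ ε / 4 * SG := mul_le_mul_of_nonneg_right hδ2 hSG0
    have h10 : δ * (ε / 4 * SB) ≤ 1 * (ε / 4 * SB) :=
      mul_le_mul_of_nonneg_right hδ1 (by positivity)
    have h11 : (1 + δ) * ((4 ^ k + ε / 4) * SG + ε / 4 * SB) =
        (4 ^ k + ε / 4) * SG + ε / 4 * SB + δ * (4 ^ k + ε / 4) * SG + δ * (ε / 4 * SB) := by ring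
    rw [h11]
    linarith
  have h9 := mul_le_mul_of_nonneg_left h8 hQ0.le
  have h10 : Q * (ε / 4 * SG + (G.card : ℝ) * (ε / 8)) ≤ Q * (ε / 4 * SG + ε / 4 * SB) := by
    apply mul_le_mul_of_nonneg_left _ hQ0.le
    have := mul_le_mul_of_nonneg_right hGc (by positivity : 0 ≤ ε / 8)
    linarith
  calc _ ≤ Q * ((4 ^ k + ε / 2) * SG + ε / 2 * SB) + Q * (ε / 4 * SG + ε / 4 * SB) :=
        add_le_add ((h6.trans h7).trans (by linarith)) h10
    _ ≤ Q * ((4 ^ k + ε) * SG + ε * SB) := by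
        rw [← mul_add]
        apply mul_le_mul_of_nonneg_left _ hQ0.le
        nlinarith [mul_nonneg hε.le hSG0, mul_nonneg hε.le hSB0]

end Pool.Agent.HLE
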