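import Mathlib
import Pool.Agent.HLE.UpperX
import Pool.Agent.HLE.LowerX

/-!
Every set of shifts: two-sided bounds on average and the mass of the tuples above a level.
-/

set_option autoImplicit false

namespace Pool.Agent.HLE

open Finset Filter Pool.Agent.HLT Pool.Agent.HL26 Pool.Agent.Maynard

open Classical in
/-- Every set of shifts. -/
theorem every_set_of (k : ℕ) (hk : 1 ≤ k) (hU : FamBlock k) (ε : ℝ) (hε : 0 < ε) :
    ∃ K : ℝ, 0 < K ∧ ∀ A : ℕ, ∃ X : ℝ, ∀ x : ℝ, X ≤ x → ∀ B : Finset ℕ,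
    (∀ b ∈ B, (b:ℝ) ≤ (Real.log x) ^ A) → K * Real.log x ≤ B.card →
    (1 - ε) * ((x / (Real.log x) ^ (k + 1)) *
        ∑ E ∈ B.powersetCard (k + 1), singularSeries (translate0 E)) ≤
      ∑ E ∈ B.powersetCard (k + 1), (tupleCount x (translate0 E) : ℝ) ∧
    ∑ E ∈ B.powersetCard (k + 1), (tupleCount x (translate0 E) : ℝ) ≤
      (4 ^ k + ε) * ((x / (Real.log x) ^ (k + 1)) *
        ∑ E ∈ B.powersetCard (k + 1), singularSeries (translate0 E)) ∧
    ∀ θ : ℝ, 0 ≤ θ → θ ≤ 1 → ((1 - θ) / (4 ^ k - θ) - ε) *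
        ∑ E ∈ B.powersetCard (k + 1), singularSeries (translate0 E) ≤
      ∑ E ∈ (B.powersetCard (k + 1)).filter (fun E =>
        θ * (singularSeries (translate0 E) * (x / (Real.log x) ^ (k + 1))) ≤
          (tupleCount x (translate0 E) : ℝ)), singularSeries (translate0 E) := by
  obtain ⟨η, hη, hηε⟩ : ∃ η : ℝ, 0 < η ∧ 2 * η ≤ ε := ⟨ε / 2, by positivity, by linarith⟩
  obtain ⟨K1, hK1, hlow⟩ := lower_every_set k hk η hη
  obtain ⟨K2, hK2, hupp⟩ := fam_x k hk hU η hη
  refine ⟨max K1 K2, lt_max_of_lt_left hK1, fun A => ?_⟩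
  obtain ⟨X1, hX1⟩ := hlow A
  obtain ⟨X2, hX2⟩ := hupp A
  refine ⟨max (max X1 X2) 2, fun x hx B hB hBK => ?_⟩
  have hx1 : X1 ≤ x := (le_max_left _ _).trans ((le_max_left _ _).trans hx)
  have hx2 : X2 ≤ x := (le_max_right _ _).trans ((le_max_left _ _).trans hx)
  have hx3 : 2 ≤ x := (le_max_right _ _).trans hx
  have hlogx : 0 < Real.log x := Real.log_pos (by linarith)
  have h1 := hX1 x hx1 B hB ((mul_le_mul_of_nonneg_right (le_max_left _ _) hlogx.le).trans hBK)
  have h2 := hX2 x hx2 B hB ((mul_le_mul_of_nonneg_right (le_max_right _ _) hlogx.le).trans hBK)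
  set Q : ℝ := x / (Real.log x) ^ (k + 1) with hQ
  have hQ0 : 0 < Q := by
    have : 0 < x := by linarith
    positivity
  set SB := ∑ E ∈ B.powersetCard (k + 1), singularSeries (translate0 E) with hSB
  have hS0 : ∀ E : Finset ℕ, 0 ≤ singularSeries (translate0 E) := fun E => singularSeries_nonneg _
  have hSB0 : 0 ≤ SB := sum_nonneg fun E _ => hS0 E
  have hQS : 0 ≤ Q * SB := by positivity
  refine ⟨?_, ?_, ?_⟩
  · refine le_trans ?_ h1
    rw [mul_assoc]
    exact mul_le_mul_of_nonneg_right (by linarith) hQS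
  · refine (h2 _ Subset.rfl).trans ?_
    rw [← hSB]
    have h3 : Q * ((4 ^ k + η) * SB + η * SB) = (4 ^ k + 2 * η) * (Q * SB) := by ring
    rw [h3]
    exact mul_le_mul_of_nonneg_right (by linarith) hQS
  · intro θ hθ0 hθ1
    set G := (B.powersetCard (k + 1)).filter (fun E =>
        θ * (singularSeries (translate0 E) * Q) ≤ (tupleCount x (translate0 E) : ℝ)) with hG
    have h3 := h2 G (filter_subset _ _)
    set SG := ∑ E ∈ G, singularSeries (translate0 E) with hSG
    have hSG0 : 0 ≤ SG := sum_nonneg fun E _ => hS0 E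
    have h4 : ∑ E ∈ (B.powersetCard (k + 1)).filter (fun E =>
        ¬ (θ * (singularSeries (translate0 E) * Q) ≤ (tupleCount x (translate0 E) : ℝ))),
          (tupleCount x (translate0 E) : ℝ) ≤ θ * Q * (SB - SG) := by
      have h5 : SB - SG = ∑ E ∈ (B.powersetCard (k + 1)).filter (fun E =>
          ¬ (θ * (singularSeries (translate0 E) * Q) ≤ (tupleCount x (translate0 E) : ℝ))),
            singularSeries (translate0 E) := by
        have h6 := sum_filter_add_sum_filter_not (B.powersetCard (k + 1)) (fun E =>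
          θ * (singularSeries (translate0 E) * Q) ≤ (tupleCount x (translate0 E) : ℝ))
          (fun E => singularSeries (translate0 E))
        rw [hSB, ← h6, hSG, hG]
        ring
      rw [h5, mul_sum]
      refine sum_le_sum fun E hE => ?_
      have h6 := (mem_filter.1 hE).2
      push Not at h6
      linarith
    have h5 := sum_filter_add_sum_filter_not (B.powersetCard (k + 1)) (fun E =>
          θ * (singularSeries (translate0 E) * Q) ≤ (tupleCount x (translate0 E) : ℝ))
          (fun E => (tupleCount x (translate0 E) : ℝ))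
    rw [← h5] at h1
    have h6 : (1 - η) * Q * SB ≤ Q * ((4 ^ k + η) * SG + η * SB) + θ * Q * (SB - SG) :=
      h1.trans (add_le_add h3 h4)
    have h7 : (1 - θ - 2 * η) * SB ≤ (4 ^ k + η - θ) * SG := by
      have h8 : Q * ((1 - θ - 2 * η) * SB) ≤ Q * ((4 ^ k + η - θ) * SG) := by
        nlinarith [h6]
      exact le_of_mul_le_mul_left h8 hQ0
    have h4k : (4:ℝ) ≤ 4 ^ k := by
      calc (4:ℝ) = 4 ^ 1 := by norm_num
        _ ≤ 4 ^ k := pow_le_pow_right₀ (by norm_num) hk
    obtain ⟨D, hD⟩ : ∃ D : ℝ, D = 4 ^ k - θ := ⟨_, rfl⟩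
    have hD3 : 3 ≤ D := by rw [hD]; linarith
    rw [← hD]
    have h8 : 4 ^ k + η - θ = D + η := by rw [hD]; ring
    rw [h8] at h7
    have h9 : ((1 - θ) / D - ε) * (D + η) ≤ 1 - θ - 2 * η := by
      have h10 : ((1 - θ) / D) * (D + η) = (1 - θ) + (1 - θ) * η / D := by
        field_simp
      have h11 : (1 - θ) * η / D ≤ η := by
        rw [div_le_iff₀ (by linarith)]
        nlinarith
      have h12 : 3 * ε ≤ ε * (D + η) := by nlinarith
      rw [sub_mul, h10]
      linarith
    have h10 : (D + η) * (((1 - θ) / D - ε) * SB) ≤ (D + η) * SG := by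
      refine le_trans ?_ h7
      calc (D + η) * (((1 - θ) / D - ε) * SB) = (((1 - θ) / D - ε) * (D + η)) * SB := by ring
        _ ≤ (1 - θ - 2 * η) * SB := mul_le_mul_of_nonneg_right h9 hSB0
    exact le_of_mul_le_mul_left h10 (by linarith)

end Pool.Agent.HLE
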