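import Mathlib
import Pool.Agent.HLE.Level
import Pool.Agent.HLE.Fam34b

/-!
Every set of shifts: the unconditional theorems (MP_485179_nt, helper34 and helper74).
-/

set_option autoImplicit false

namespace Pool.Agent.HLE.Every34

open Finset Filter Pool.Agent.HLT Pool.Agent.HL26 Pool.Agent.Maynard

/-- the family bound in one block -/
theorem fam_block (k : ℕ) (hk : 1 ≤ k) : FamBlock k := by
  intro ε hε
  obtain ⟨K, hK, h⟩ := Fam34.family_block k hk ε hε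
  exact ⟨K, hK, h⟩

open Classical in
/-- every set of shifts: two-sided bounds for every family of subsets and the mass of the tuples
above a level -/
theorem every_set (k : ℕ) (hk : 1 ≤ k) (ε : ℝ) (hε : 0 < ε) :
    ∃ K : ℝ, 0 < K ∧ ∀ A : ℕ, ∃ X : ℝ, ∀ x : ℝ, X ≤ x → ∀ B : Finset ℕ,
    (∀ b ∈ B, (b:ℝ) ≤ (Real.log x) ^ A) → K * Real.log x ≤ B.card →
    (1 - ε) * ((x / (Real.log x) ^ (k + 1)) *
        ∑ E ∈ B.powersetCard (k + 1), singularSeries (translate0 E)) ≤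
      ∑ E ∈ B.powersetCard (k + 1), (tupleCount x (translate0 E) : ℝ) ∧
    (∀ G : Finset (Finset ℕ), G ⊆ B.powersetCard (k + 1) →
      ∑ E ∈ G, (tupleCount x (translate0 E) : ℝ) ≤ (x / (Real.log x) ^ (k + 1)) *
        ((4 ^ k + ε) * ∑ E ∈ G, singularSeries (translate0 E) +
          ε * ∑ E ∈ B.powersetCard (k + 1), singularSeries (translate0 E))) ∧
    ∀ θ : ℝ, 0 ≤ θ → θ ≤ 1 → ((1 - θ) / (4 ^ k - θ) - ε) *
        ∑ E ∈ B.powersetCard (k + 1), singularSeries (translate0 E) ≤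
      ∑ E ∈ (B.powersetCard (k + 1)).filter (fun E =>
        θ * (singularSeries (translate0 E) * (x / (Real.log x) ^ (k + 1))) ≤
          (tupleCount x (translate0 E) : ℝ)), singularSeries (translate0 E) := by
  obtain ⟨K1, hK1, h1⟩ := every_set_of k hk (fam_block k hk) ε hε
  obtain ⟨K2, hK2, h2⟩ := fam_x k hk (fam_block k hk) ε hε
  refine ⟨max K1 K2, lt_max_of_lt_left hK1, fun A => ?_⟩
  obtain ⟨X1, hX1⟩ := h1 A
  obtain ⟨X2, hX2⟩ := h2 A
  refine ⟨max (max X1 X2) 2, fun x hx B hB hBK => ?_⟩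
  have hx1 : X1 ≤ x := (le_max_left _ _).trans ((le_max_left _ _).trans hx)
  have hx2 : X2 ≤ x := (le_max_right _ _).trans ((le_max_left _ _).trans hx)
  have hx3 : 2 ≤ x := (le_max_right _ _).trans hx
  have hlogx : 0 < Real.log x := Real.log_pos (by linarith)
  obtain ⟨a1, _, a3⟩ := hX1 x hx1 B hB
    ((mul_le_mul_of_nonneg_right (le_max_left _ _) hlogx.le).trans hBK)
  exact ⟨a1, hX2 x hx2 B hB
    ((mul_le_mul_of_nonneg_right (le_max_right _ _) hlogx.le).trans hBK), a3⟩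

open Classical in
/-- every set of shifts: the lower half on average, the mean of the singular series and the mass of
the tuples above a level -/
theorem every_set_lower (k : ℕ) (hk : 1 ≤ k) (ε : ℝ) (hε : 0 < ε) :
    ∃ K : ℝ, ∀ A : ℕ, ∃ X : ℝ, ∀ x : ℝ, X ≤ x → ∀ B : Finset ℕ,
    (∀ b ∈ B, (b:ℝ) ≤ (Real.log x) ^ A) → K * Real.log x ≤ B.card →
    (1 - ε) * (x / (Real.log x) ^ (k + 1)) *
        ∑ E ∈ B.powersetCard (k + 1), singularSeries (translate0 E) ≤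
      ∑ E ∈ B.powersetCard (k + 1), (tupleCount x (translate0 E) : ℝ) ∧
    (1 - ε) * (B.card.choose (k + 1) : ℝ) ≤
      ∑ E ∈ B.powersetCard (k + 1), singularSeries (translate0 E) ∧
    ∀ θ : ℝ, 0 ≤ θ → θ ≤ 1 → ((1 - θ) / (4 ^ k - θ) - ε) *
        ∑ E ∈ B.powersetCard (k + 1), singularSeries (translate0 E) ≤
      ∑ E ∈ (B.powersetCard (k + 1)).filter (fun E =>
        θ * (singularSeries (translate0 E) * (x / (Real.log x) ^ (k + 1))) ≤
          (tupleCount x (translate0 E) : ℝ)), singularSeries (translate0 E) := by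
  obtain ⟨K, hK, h⟩ := every_set k hk ε hε
  obtain ⟨M, hM, hmean⟩ := sing_mean k ε hε
  refine ⟨K, fun A => ?_⟩
  obtain ⟨X, hX⟩ := h A
  have hev : ∀ᶠ x : ℝ in atTop, M / K ≤ Real.log x :=
    Real.tendsto_log_atTop.eventually_ge_atTop _
  obtain ⟨X1, hX1⟩ := Filter.eventually_atTop.1 hev
  refine ⟨max X X1, fun x hx B hB hBK => ?_⟩
  obtain ⟨a1, _, a3⟩ := hX x ((le_max_left _ _).trans hx) B hB hBK
  refine ⟨?_, ?_, a3⟩
  · rw [mul_assoc]
    exact a1
  · have h1 := hX1 x ((le_max_right _ _).trans hx)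
    rw [div_le_iff₀ hK] at h1
    have h2 := hmean B (by linarith)
    simp only [Pool.Agent.HL26.singularSeries_translate0]
    exact h2

/-- every set of shifts and every family of subsets: both sides in one sentence -/
theorem every_family (k : ℕ) (hk : 1 ≤ k) (ε : ℝ) (hε : 0 < ε) :
    ∃ K : ℝ, 0 < K ∧ ∀ A : ℕ, ∃ X : ℝ, ∀ x : ℝ, X ≤ x → ∀ B : Finset ℕ,
    (∀ b ∈ B, (b:ℝ) ≤ (Real.log x) ^ A) → K * Real.log x ≤ B.card →
    ∀ G : Finset (Finset ℕ), G ⊆ B.powersetCard (k + 1) →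
      (x / (Real.log x) ^ (k + 1)) *
        ((1 - ε) * ∑ E ∈ B.powersetCard (k + 1), singularSeries (translate0 E) -
          4 ^ k * ∑ E ∈ B.powersetCard (k + 1) \ G, singularSeries (translate0 E)) ≤
        ∑ E ∈ G, (tupleCount x (translate0 E) : ℝ) ∧
      ∑ E ∈ G, (tupleCount x (translate0 E) : ℝ) ≤ (x / (Real.log x) ^ (k + 1)) *
        ((4 ^ k + ε) * ∑ E ∈ G, singularSeries (translate0 E) +
          ε * ∑ E ∈ B.powersetCard (k + 1), singularSeries (translate0 E)) := by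
  obtain ⟨K, hK, h⟩ := every_set k hk (ε / 3) (by positivity)
  refine ⟨K, hK, fun A => ?_⟩
  obtain ⟨X, hX⟩ := h A
  refine ⟨max X 2, fun x hx B hB hBK G hG => ?_⟩
  obtain ⟨a1, a2, _⟩ := hX x ((le_max_left _ _).trans hx) B hB hBK
  have hx3 : 2 ≤ x := (le_max_right _ _).trans hx
  have hlogx : 0 < Real.log x := Real.log_pos (by linarith)
  have hx0 : 0 < x := by linarith
  obtain ⟨Q, hQ⟩ : ∃ Q : ℝ, Q = x / (Real.log x) ^ (k + 1) := ⟨_, rfl⟩
  have hQ0 : 0 < Q := by rw [hQ]; positivity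
  rw [← hQ] at a1 a2 ⊢
  have b1 := a2 G hG
  have b2 := a2 (B.powersetCard (k + 1) \ G) sdiff_subset
  have b3 := sum_sdiff hG (f := fun E => (tupleCount x (translate0 E) : ℝ))
  have b4 := sum_sdiff hG (f := fun E => singularSeries (translate0 E))
  have hS0 : ∀ E : Finset ℕ, 0 ≤ singularSeries (translate0 E) := fun E => singularSeries_nonneg _
  obtain ⟨SB, hSB⟩ : ∃ SB : ℝ, SB = ∑ E ∈ B.powersetCard (k + 1), singularSeries (translate0 E) :=
    ⟨_, rfl⟩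
  obtain ⟨SG, hSG⟩ : ∃ SG : ℝ, SG = ∑ E ∈ G, singularSeries (translate0 E) := ⟨_, rfl⟩
  obtain ⟨SC, hSC⟩ : ∃ SC : ℝ, SC = ∑ E ∈ B.powersetCard (k + 1) \ G,
    singularSeries (translate0 E) := ⟨_, rfl⟩
  obtain ⟨PB, hPB⟩ : ∃ PB : ℝ, PB = ∑ E ∈ B.powersetCard (k + 1),
    (tupleCount x (translate0 E) : ℝ) := ⟨_, rfl⟩
  obtain ⟨PG, hPG⟩ : ∃ PG : ℝ, PG = ∑ E ∈ G, (tupleCount x (translate0 E) : ℝ) := ⟨_, rfl⟩
  obtain ⟨PC, hPC⟩ : ∃ PC : ℝ, PC = ∑ E ∈ B.powersetCard (k + 1) \ G,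
    (tupleCount x (translate0 E) : ℝ) := ⟨_, rfl⟩
  rw [← hSB, ← hPB] at a1
  rw [← hSB, ← hPG, ← hSG] at b1
  rw [← hSB, ← hPC, ← hSC] at b2
  rw [← hPC, ← hPG, ← hPB] at b3
  rw [← hSC, ← hSG, ← hSB] at b4
  rw [← hSB, ← hPG, ← hSG, ← hSC]
  have hSG0 : 0 ≤ SG := by rw [hSG]; exact sum_nonneg fun E _ => hS0 E
  have hSC0 : 0 ≤ SC := by rw [hSC]; exact sum_nonneg fun E _ => hS0 E
  constructor
  · have e1 : Q * ((1 - ε) * SB - 4 ^ k * SC) = (1 - ε / 3) * (Q * SB) -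
        Q * ((4 ^ k + ε / 3) * SC + ε / 3 * SB) - Q * (ε / 3 * (SB - SC)) := by ring
    have e2 : 0 ≤ Q * (ε / 3 * (SB - SC)) := by
      have : 0 ≤ SB - SC := by linarith
      positivity
    linarith
  · refine b1.trans ?_
    refine mul_le_mul_of_nonneg_left ?_ hQ0.le
    have hSB0 : 0 ≤ SB := by linarith
    have e3 : 0 ≤ ε * SG := by positivity
    have e4 : 0 ≤ ε * SB := by positivity
    linarith

end Pool.Agent.HLE.Every34
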