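import Mathlib
import Pool.Agent.H34P.PSi
import Pool.Agent.HLT.Final6
import Pool.Agent.HLE.Fam34b

/-!
The family bound for the counts up to `x` (MP_485179_nt, EverySet (iii), helper34).
-/

set_option autoImplicit false

namespace Pool.Agent.HLE.Fam34

open Finset Filter Pool.Agent.HLT Pool.Agent.HL26 Pool.Agent.Maynard H34P

/-- one tuple: the count up to `x` and the counts in the blocks -/
lemma tuple_le_blocks (k : ℕ) (hk : 1 ≤ k) (η : ℝ) (hη : 0 < η) : ∃ I0 : ℕ, ∀ᶠ x : ℝ in atTop,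
    ∀ E : Finset ℕ, E.card = k + 1 → (tupleCount x E : ℝ) ≤
      ∑ i ∈ range I0, (((Ioc (⌊x⌋₊ / 2 ^ (i + 1)) (2 * (⌊x⌋₊ / 2 ^ (i + 1)))).filter
        (fun n => ∀ e ∈ E, (n + e).Prime)).card : ℝ) +
      (x / (Real.log x) ^ (k + 1)) * (η * singularSeries E) + (k + 1 : ℕ) := by
  obtain ⟨C, hC, hblk⟩ := tupleCount_blocks (k + 1) (by omega)
  obtain ⟨c, hc, hlow⟩ := exists_singularSeries_lower (k + 1)
  obtain ⟨I0, hI0⟩ := exists_pow_small C (η / 2) (by positivity)
  refine ⟨I0, ?_⟩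
  have hlogN : Tendsto (fun N : ℕ => Real.log (N : ℝ)) atTop atTop :=
    Real.tendsto_log_atTop.comp tendsto_natCast_atTop_atTop
  have hev : ∀ᶠ x : ℝ in atTop, ∀ i ∈ Finset.range I0, 2 ≤ ⌊x⌋₊ / 2 ^ (i + 1) :=
    (Filter.eventually_all_finset (Finset.range I0)).2 fun i _ =>
      (tendsto_block i).eventually (eventually_ge_atTop 2)
  filter_upwards [hblk I0 (c * (η / 2)) (by positivity), eventually_gt_atTop 1, hev]
    with x h2 h3 h4 E hcard
  have hx0 : 0 < x := by linarith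
  have hL : 0 < Real.log x := Real.log_pos h3
  have hXX : 0 < x / (Real.log x) ^ (k + 1) := by positivity
  have hsum0 : 0 ≤ ∑ i ∈ range I0, (((Ioc (⌊x⌋₊ / 2 ^ (i + 1))
      (2 * (⌊x⌋₊ / 2 ^ (i + 1)))).filter (fun n => ∀ e ∈ E, (n + e).Prime)).card : ℝ) :=
    sum_nonneg fun i _ => Nat.cast_nonneg _
  have hk0 : (0:ℝ) ≤ ((k + 1 : ℕ) : ℝ) := Nat.cast_nonneg _
  rcases (singularSeries_nonneg E).lt_or_eq with hpos | hzero
  · have hS := hlow E hcard (fun p hp => admissible_of_pos E hpos p hp)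
    obtain ⟨e, he⟩ : ∃ e : Fin (k + 1) → ℕ, e = fun i => E.orderEmbOfFin hcard i := ⟨_, rfl⟩
    have himg : Finset.image e Finset.univ = E := by
      rw [he]
      exact Finset.image_orderEmbOfFin_univ E hcard
    have hinj : Function.Injective e := by
      rw [he]
      exact (E.orderEmbOfFin hcard).injective
    have h5 := h2 e hinj
    rw [himg] at h5
    have h6 := (abs_le.1 h5).2
    have h7 : ∑ i ∈ Finset.range I0, (((⌊x⌋₊ / 2 ^ (i + 1) : ℕ) : ℝ) / x *
          (Real.log x / Real.log ((⌊x⌋₊ / 2 ^ (i + 1) : ℕ) : ℝ)) ^ (k + 1)) *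
            HLT.rr (⌊x⌋₊ / 2 ^ (i + 1)) e = (∑ i ∈ range I0, (((Ioc (⌊x⌋₊ / 2 ^ (i + 1))
        (2 * (⌊x⌋₊ / 2 ^ (i + 1)))).filter (fun n => ∀ e ∈ E, (n + e).Prime)).card : ℝ)) *
          ((Real.log x) ^ (k + 1) / x) := by
      rw [sum_mul]
      refine sum_congr rfl fun i hi => ?_
      have h8 := h4 i hi
      obtain ⟨N, hN⟩ : ∃ N : ℕ, N = ⌊x⌋₊ / 2 ^ (i + 1) := ⟨_, rfl⟩
      rw [← hN] at h8 ⊢
      have hN0 : (0:ℝ) < N := by exact_mod_cast (by omega : 0 < N)
      have hlogN : 0 < Real.log (N : ℝ) := Real.log_pos (by exact_mod_cast (by omega : 1 < N))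
      unfold HLT.rr
      have h9 : (Finset.Ioc N (2 * N)).filter (fun n => ∀ i, (n + e i).Prime) =
          (Finset.Ioc N (2 * N)).filter (fun n => ∀ a ∈ E, (n + a).Prime) := by
        apply Finset.filter_congr
        intro n _
        constructor
        · intro h a ha
          rw [← himg] at ha
          obtain ⟨j, _, rfl⟩ := Finset.mem_image.1 ha
          exact h j
        · intro h j
          exact h _ (himg ▸ Finset.mem_image_of_mem e (Finset.mem_univ j))
      rw [h9, div_pow]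
      field_simp
    rw [h7] at h6
    have h8 : C * singularSeries E / 2 ^ I0 ≤ η / 2 * singularSeries E := by
      rw [mul_div_right_comm]
      exact mul_le_mul_of_nonneg_right hI0 hpos.le
    have h9 : c * (η / 2) ≤ η / 2 * singularSeries E := by
      rw [mul_comm]
      exact mul_le_mul_of_nonneg_left hS (by positivity)
    have h10 : (tupleCount x E : ℝ) * (Real.log x) ^ (k + 1) / x ≤
        (∑ i ∈ range I0, (((Ioc (⌊x⌋₊ / 2 ^ (i + 1))
        (2 * (⌊x⌋₊ / 2 ^ (i + 1)))).filter (fun n => ∀ e ∈ E, (n + e).Prime)).card : ℝ)) *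
          ((Real.log x) ^ (k + 1) / x) + η * singularSeries E := by
      linarith
    have h11 := mul_le_mul_of_nonneg_left h10 hXX.le
    have e1 : x / (Real.log x) ^ (k + 1) *
        ((tupleCount x E : ℝ) * (Real.log x) ^ (k + 1) / x) = tupleCount x E := by
      field_simp
    have e2 : x / (Real.log x) ^ (k + 1) * ((∑ i ∈ range I0, (((Ioc (⌊x⌋₊ / 2 ^ (i + 1))
        (2 * (⌊x⌋₊ / 2 ^ (i + 1)))).filter (fun n => ∀ e ∈ E, (n + e).Prime)).card : ℝ)) *
          ((Real.log x) ^ (k + 1) / x) + η * singularSeries E) =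
        (∑ i ∈ range I0, (((Ioc (⌊x⌋₊ / 2 ^ (i + 1))
        (2 * (⌊x⌋₊ / 2 ^ (i + 1)))).filter (fun n => ∀ e ∈ E, (n + e).Prime)).card : ℝ)) +
          x / (Real.log x) ^ (k + 1) * (η * singularSeries E) := by
      field_simp
    rw [e1, e2] at h11
    linarith
  · have h5 := tupleCount_le_of_zero E hzero.symm x
    rw [hcard] at h5
    have h6 : (tupleCount x E : ℝ) ≤ ((k + 1 : ℕ) : ℝ) := by exact_mod_cast h5
    rw [← hzero, mul_zero, mul_zero]
    linarith

/-- the shift -/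
lemma tuple_translate0 (x : ℝ) (E : Finset ℕ) :
    tupleCount x (translate0 E) ≤ tupleCount x E + sInf (E : Set ℕ) := by
  have h := F6U.tupleCount_shift x (translate0 E) (sInf (E : Set ℕ))
  have h2 : (translate0 E).image (fun d => sInf (E : Set ℕ) + d) = E := by
    have h3 := translate0_add E
    have h4 : (fun d : ℕ => sInf (E : Set ℕ) + d) = (fun d => d + sInf (E : Set ℕ)) := by
      funext d
      exact add_comm _ _
    rw [h4]
    exact h3
  rw [h2] at h
  exact h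

/-- sums over a family: counts of the translates and counts of the sets -/
lemma sum_translate0 (x T : ℝ) (B : Finset ℕ) (hB : ∀ b ∈ B, (b:ℝ) ≤ T) (j : ℕ) (hj : 1 ≤ j)
    (G : Finset (Finset ℕ)) (hG : G ⊆ B.powersetCard j) :
    ∑ E ∈ G, (tupleCount x (translate0 E) : ℝ) ≤
      ∑ E ∈ G, (tupleCount x E : ℝ) + G.card * T := by
  have h1 : ∀ E ∈ G, (tupleCount x (translate0 E) : ℝ) ≤ (tupleCount x E : ℝ) + T := by
    intro E hE
    have h2 := mem_powersetCard.1 (hG hE)
    have hne : E.Nonempty := by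
      rw [← card_pos, h2.2]
      omega
    have h3 := hB _ (h2.1 (sInf_mem_of_nonempty E hne))
    have h4 : (tupleCount x (translate0 E) : ℝ) ≤
        (tupleCount x E : ℝ) + ((sInf (E : Set ℕ) : ℕ) : ℝ) := by
      exact_mod_cast tuple_translate0 x E
    linarith
  refine (sum_le_sum h1).trans ?_
  rw [sum_add_distrib, sum_const, nsmul_eq_mul]

/-- **the family bound** for the counts up to `x` -/
theorem family_x (k : ℕ) (hk : 1 ≤ k) (ε : ℝ) (hε : 0 < ε) : ∃ K : ℝ, 0 < K ∧ ∀ A : ℕ,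
    ∃ X : ℝ, ∀ x : ℝ, X ≤ x → ∀ B : Finset ℕ, (∀ b ∈ B, (b:ℝ) ≤ (Real.log x) ^ A) →
      K * Real.log x ≤ B.card → ∀ G ⊆ B.powersetCard (k + 1),
      ∑ E ∈ G, (tupleCount x (translate0 E) : ℝ) ≤
        (x / (Real.log x) ^ (k + 1)) * ((4 ^ k + ε) * ∑ E ∈ G, singularSeries E +
          ε * ∑ E ∈ B.powersetCard (k + 1), singularSeries E) := by
  classical
  obtain ⟨η, hη⟩ : ∃ η : ℝ, η = ε / 4 := ⟨_, rfl⟩
  have hη0 : 0 < η := by rw [hη]; positivity
  obtain ⟨I0, htup⟩ := tuple_le_blocks k hk η hη0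
  obtain ⟨K, hK, hfam⟩ := family_block k hk η hη0
  obtain ⟨M, hM⟩ : ∃ M : ℝ, M = 4 ^ k := ⟨_, rfl⟩
  have hM0 : 0 < M := by rw [hM]; positivity
  rw [← hM] at hfam ⊢
  obtain ⟨δ, hδ⟩ : ∃ δ : ℝ, δ = min 1 (η / (M + η)) := ⟨_, rfl⟩
  have hδ0 : 0 < δ := by
    rw [hδ]
    exact lt_min one_pos (by positivity)
  have hδ1 : (1 + δ) * (M + η) ≤ M + 2 * η := by
    have h1 : δ * (M + η) ≤ η := by
      have h2 : δ ≤ η / (M + η) := by rw [hδ]; exact min_le_right _ _
      have h3 := mul_le_mul_of_nonneg_right h2 (by positivity : 0 ≤ M + η)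
      rwa [div_mul_cancel₀ _ (by positivity)] at h3
    linarith
  have hδ2 : (1 + δ) * η ≤ 2 * η := by
    have h2 : δ ≤ 1 := by rw [hδ]; exact min_le_left _ _
    nlinarith
  refine ⟨max K 2, lt_of_lt_of_le hK (le_max_left _ _), fun A => ?_⟩
  have hev : ∀ᶠ x : ℝ in atTop, ∀ i ∈ Finset.range I0, _ :=
    (Filter.eventually_all_finset (Finset.range I0)).2 fun i _ =>
      ev_block i A (k + 1) δ hδ0 _ (hfam (A + 1))
  -- the powers of the logarithm
  have hpow : ∀ᶠ x : ℝ in atTop, (Real.log x) ^ ((A + 1) * (k + 1) + A + 1 + (k + 1)) ≤ η * x := by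
    have h1 := (Real.isLittleO_pow_log_id_atTop (n := (A + 1) * (k + 1) + A + 1 + (k + 1))).bound
      (c := η) hη0
    filter_upwards [h1, eventually_gt_atTop 1] with x h2 h3
    rw [Real.norm_eq_abs, Real.norm_eq_abs, id, abs_of_pos (by linarith : 0 < x)] at h2
    exact (le_abs_self _).trans h2
  have hlogx : Tendsto (fun x : ℝ => Real.log x) atTop atTop := Real.tendsto_log_atTop
  have hsing : ∀ᶠ x : ℝ in atTop, ∀ B : Finset ℕ,
      2 * Real.log ((⌊x⌋₊ : ℕ) : ℝ) ≤ B.card →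
        1 ≤ ∑ E ∈ B.powersetCard (k + 1), singularSeries E :=
    tendsto_nat_floor_atTop.eventually (sum_sing_ge k)
  obtain ⟨X, hX⟩ := Filter.eventually_atTop.1 (hev.and (htup.and (hpow.and
    (hsing.and ((hlogx.eventually_ge_atTop (k + 3)).and (eventually_ge_atTop 2))))))
  refine ⟨X, fun x hx B hB hBc G hG => ?_⟩
  obtain ⟨h1, h2, h3, h4, h5, h6⟩ := hX x hx
  have hx0 : 0 < x := by linarith
  have hL3 : (k:ℝ) + 3 ≤ Real.log x := h5
  have hk0 : (0:ℝ) ≤ k := Nat.cast_nonneg _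
  have hL : 0 < Real.log x := by linarith
  have hXX : 0 < x / (Real.log x) ^ (k + 1) := by positivity
  have hSG : 0 ≤ ∑ E ∈ G, singularSeries E := sum_nonneg fun E _ => singularSeries_nonneg E
  have hSB : 1 ≤ ∑ E ∈ B.powersetCard (k + 1), singularSeries E := by
    apply h4 B
    have h7 : Real.log ((⌊x⌋₊ : ℕ) : ℝ) ≤ Real.log x := by
      apply Real.log_le_log
      · have : 1 ≤ ⌊x⌋₊ := Nat.le_floor (by push_cast; linarith)
        exact_mod_cast this
      · exact Nat.floor_le hx0.le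
    have h8 : 2 * Real.log x ≤ max K 2 * Real.log x :=
      mul_le_mul_of_nonneg_right (le_max_right _ _) hL.le
    linarith
  -- the tuples
  have hsum1 : ∑ E ∈ G, (tupleCount x E : ℝ) ≤
      ∑ i ∈ range I0, ∑ E ∈ G, (((Ioc (⌊x⌋₊ / 2 ^ (i + 1)) (2 * (⌊x⌋₊ / 2 ^ (i + 1)))).filter
        (fun n => ∀ e ∈ E, (n + e).Prime)).card : ℝ) +
      (x / (Real.log x) ^ (k + 1)) * (η * ∑ E ∈ G, singularSeries E) +
        G.card * ((k + 1 : ℕ) : ℝ) := by
    have h7 := sum_le_sum fun E hE => h2 E (mem_powersetCard.1 (hG hE)).2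
    rw [sum_add_distrib, sum_add_distrib, sum_comm, ← mul_sum, ← mul_sum, sum_const,
      nsmul_eq_mul] at h7
    exact h7
  have hsum2 := sum_translate0 x _ B hB (k + 1) (by omega) G hG
  -- the blocks
  obtain ⟨Z0, hZ0⟩ : ∃ Z0 : ℝ, Z0 = (M + 2 * η) * ∑ E ∈ G, singularSeries E +
      2 * η * ∑ E ∈ B.powersetCard (k + 1), singularSeries E := ⟨_, rfl⟩
  have hZ00 : 0 ≤ Z0 := by
    rw [hZ0]
    positivity
  have hblocks : ∑ i ∈ range I0, ∑ E ∈ G, (((Ioc (⌊x⌋₊ / 2 ^ (i + 1))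
      (2 * (⌊x⌋₊ / 2 ^ (i + 1)))).filter (fun n => ∀ e ∈ E, (n + e).Prime)).card : ℝ) ≤
      (x / (Real.log x) ^ (k + 1)) * Z0 := by
    have h7 : ∀ i ∈ range I0, ∑ E ∈ G, (((Ioc (⌊x⌋₊ / 2 ^ (i + 1))
      (2 * (⌊x⌋₊ / 2 ^ (i + 1)))).filter (fun n => ∀ e ∈ E, (n + e).Prime)).card : ℝ) ≤
        (1 / 2 ^ (i + 1)) * ((x / (Real.log x) ^ (k + 1)) * Z0) := by
      intro i hi
      obtain ⟨b1, b2, b3, b4, b5⟩ := h1 i hi
      obtain ⟨N, hN⟩ : ∃ N : ℕ, N = ⌊x⌋₊ / 2 ^ (i + 1) := ⟨_, rfl⟩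
      rw [← hN] at b1 b2 b3 b4 b5 ⊢
      have hN0 : (0:ℝ) < N := by exact_mod_cast (by omega : 0 < N)
      have hlogN : 0 < Real.log (N : ℝ) := Real.log_pos (by exact_mod_cast (by omega : 1 < N))
      have h8 := b1 B (fun b hb => (hB b hb).trans b3) (by
        refine le_trans ?_ hBc
        exact mul_le_mul (le_max_left _ _) b5 hlogN.le (hK.le.trans (le_max_left _ _))) G hG
      refine h8.trans ?_
      have h10 : (N : ℝ) ≤ (1 / 2 ^ (i + 1)) * x := by
        have h11 : (N : ℝ) ≤ (⌊x⌋₊ : ℝ) / ((2 ^ (i + 1) : ℕ) : ℝ) := by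
          rw [hN]
          exact Nat.cast_div_le
        push_cast at h11
        have h12 : (⌊x⌋₊ : ℝ) ≤ x := Nat.floor_le hx0.le
        have h13 : (⌊x⌋₊ : ℝ) / 2 ^ (i + 1) ≤ x / 2 ^ (i + 1) :=
          div_le_div_of_nonneg_right h12 (by positivity)
        calc (N:ℝ) ≤ x / 2 ^ (i + 1) := h11.trans h13
          _ = _ := by ring
      have h14 : (N:ℝ) / (Real.log N) ^ (k + 1) ≤
          (1 / 2 ^ (i + 1)) * (1 + δ) * (x / (Real.log x) ^ (k + 1)) := by
        have h15 : (N:ℝ) / (Real.log N) ^ (k + 1) =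
            (N * (Real.log x / Real.log N) ^ (k + 1)) / (Real.log x) ^ (k + 1) := by
          rw [div_pow]
          field_simp
        rw [h15]
        have h16 : N * (Real.log x / Real.log N) ^ (k + 1) ≤ (1 / 2 ^ (i + 1)) * x * (1 + δ) :=
          mul_le_mul h10 b4 (by positivity) (by positivity)
        calc _ ≤ ((1 / 2 ^ (i + 1)) * x * (1 + δ)) / (Real.log x) ^ (k + 1) :=
              div_le_div_of_nonneg_right h16 (by positivity)
          _ = _ := by ring
      have h17 : 0 ≤ (M + η) * ∑ E ∈ G, singularSeries E +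
          η * ∑ E ∈ B.powersetCard (k + 1), singularSeries E := by positivity
      calc _ ≤ (1 / 2 ^ (i + 1)) * (1 + δ) * (x / (Real.log x) ^ (k + 1)) *
            ((M + η) * ∑ E ∈ G, singularSeries E +
              η * ∑ E ∈ B.powersetCard (k + 1), singularSeries E) :=
            mul_le_mul_of_nonneg_right h14 h17
        _ = (1 / 2 ^ (i + 1)) * ((x / (Real.log x) ^ (k + 1)) *
            (((1 + δ) * (M + η)) * ∑ E ∈ G, singularSeries E +
              ((1 + δ) * η) * ∑ E ∈ B.powersetCard (k + 1), singularSeries E)) := by ring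
        _ ≤ _ := by
            refine mul_le_mul_of_nonneg_left ?_ (by positivity)
            refine mul_le_mul_of_nonneg_left ?_ hXX.le
            rw [hZ0]
            exact add_le_add (mul_le_mul_of_nonneg_right hδ1 hSG)
              (mul_le_mul_of_nonneg_right hδ2 (by linarith))
    refine (sum_le_sum h7).trans ?_
    rw [← sum_mul]
    calc _ ≤ 1 * ((x / (Real.log x) ^ (k + 1)) * Z0) :=
          mul_le_mul_of_nonneg_right (sum_half I0) (by positivity)
      _ = _ := one_mul _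
  -- the small terms
  have hGc : (G.card : ℝ) ≤ (Real.log x) ^ ((A + 1) * (k + 1)) := by
    have h7 : (G.card : ℝ) ≤ (B.card : ℝ) ^ (k + 1) := by
      have h8 := card_le_card hG
      rw [card_powersetCard] at h8
      exact_mod_cast h8.trans (Nat.choose_le_pow _ _)
    have h9 : (B.card : ℝ) ≤ (Real.log x) ^ (A + 1) := by
      have h10 : B ⊆ range (⌊(Real.log x) ^ A⌋₊ + 1) := by
        intro b hb
        rw [mem_range]
        have := Nat.le_floor (hB b hb)
        omega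
      have h11 := card_le_card h10
      rw [card_range] at h11
      have h12 : (B.card : ℝ) ≤ ((⌊(Real.log x) ^ A⌋₊ + 1 : ℕ) : ℝ) := by exact_mod_cast h11
      push_cast at h12
      have h13 : ((⌊(Real.log x) ^ A⌋₊ : ℕ) : ℝ) ≤ (Real.log x) ^ A := Nat.floor_le (by positivity)
      have h14 : 1 ≤ (Real.log x) ^ A := one_le_pow₀ (by linarith)
      have h15 : (Real.log x) ^ (A + 1) = (Real.log x) ^ A * Real.log x := pow_succ _ _
      have h16 : (Real.log x) ^ A * 2 ≤ (Real.log x) ^ A * Real.log x :=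
        mul_le_mul_of_nonneg_left (by linarith) (by positivity)
      linarith
    calc (G.card : ℝ) ≤ (B.card : ℝ) ^ (k + 1) := h7
      _ ≤ ((Real.log x) ^ (A + 1)) ^ (k + 1) := pow_le_pow_left₀ (Nat.cast_nonneg _) h9 _
      _ = _ := by rw [← pow_mul]
  have hsmall : G.card * ((k + 1 : ℕ) : ℝ) + G.card * (Real.log x) ^ A ≤
      (x / (Real.log x) ^ (k + 1)) * (η * 1) := by
    have h7 : ((k + 1 : ℕ) : ℝ) + (Real.log x) ^ A ≤ (Real.log x) ^ (A + 1) := by
      have h14 : 1 ≤ (Real.log x) ^ A := one_le_pow₀ (by linarith)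
      have h15 : (Real.log x) ^ (A + 1) = (Real.log x) ^ A * Real.log x := pow_succ _ _
      have h16 : (Real.log x) ^ A * ((k:ℝ) + 3) ≤ (Real.log x) ^ A * Real.log x :=
        mul_le_mul_of_nonneg_left hL3 (by positivity)
      push_cast
      nlinarith
    have h8 : (G.card : ℝ) * (((k + 1 : ℕ) : ℝ) + (Real.log x) ^ A) ≤
        (Real.log x) ^ ((A + 1) * (k + 1)) * (Real.log x) ^ (A + 1) :=
      mul_le_mul hGc h7 (by positivity) (by positivity)
    rw [← pow_add] at h8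
    have h9 : (Real.log x) ^ ((A + 1) * (k + 1) + (A + 1)) * (Real.log x) ^ (k + 1) ≤ η * x := by
      rw [← pow_add]
      exact h3
    have h10 : (Real.log x) ^ ((A + 1) * (k + 1) + (A + 1)) ≤
        (x / (Real.log x) ^ (k + 1)) * (η * 1) := by
      have e1 : (x / (Real.log x) ^ (k + 1)) * (η * 1) = (η * x) / (Real.log x) ^ (k + 1) := by
        ring
      rw [e1, le_div_iff₀ (by positivity)]
      exact h9
    linarith
  have hηB : η * 1 ≤ η * ∑ E ∈ B.powersetCard (k + 1), singularSeries E :=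
    mul_le_mul_of_nonneg_left hSB hη0.le
  have hsmall2 := hsmall.trans (mul_le_mul_of_nonneg_left hηB hXX.le)
  have e3 : (x / (Real.log x) ^ (k + 1)) * Z0 +
      (x / (Real.log x) ^ (k + 1)) * (η * ∑ E ∈ G, singularSeries E) +
      (x / (Real.log x) ^ (k + 1)) * (η * ∑ E ∈ B.powersetCard (k + 1), singularSeries E) =
      (x / (Real.log x) ^ (k + 1)) * ((M + 3 * η) * ∑ E ∈ G, singularSeries E +
        3 * η * ∑ E ∈ B.powersetCard (k + 1), singularSeries E) := by
    rw [hZ0]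
    ring
  have hfin : (x / (Real.log x) ^ (k + 1)) * ((M + 3 * η) * ∑ E ∈ G, singularSeries E +
        3 * η * ∑ E ∈ B.powersetCard (k + 1), singularSeries E) ≤
      (x / (Real.log x) ^ (k + 1)) * ((M + ε) * ∑ E ∈ G, singularSeries E +
        ε * ∑ E ∈ B.powersetCard (k + 1), singularSeries E) := by
    refine mul_le_mul_of_nonneg_left ?_ hXX.le
    have h7 : 3 * η ≤ ε := by rw [hη]; linarith
    exact add_le_add (mul_le_mul_of_nonneg_right (by linarith) hSG)
      (mul_le_mul_of_nonneg_right h7 (by linarith))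
  linarith

end Pool.Agent.HLE.Fam34
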