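import Mathlib
import Pool.Agent.PosProp.MainDefs
import Pool.Agent.H34P.PSe
import Pool.Agent.HLE.Lower

/-!
Interface of the modules for small sets of shifts.
-/

set_option autoImplicit false

namespace Pool.Agent.HLE

open Finset Filter H34P Pool.Agent.HLT Pool.Agent.HL26 Pool.Agent.Maynard Pool.Agent.PosProp
  Pool.Agent.PosProp.Main

open Classical in
/-- Maynard's sieve in one class modulo `W` -/
def MayClass (r m C : ℕ) : Prop :=
  ∀ᶠ N : ℕ in atTop, ∀ W : ℕ, 0 < W → (W:ℝ) ≤ (Real.log N) ^ C →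
    (∀ p : ℕ, p.Prime → p < K0k r → p ∣ W) →
    ∀ h : Fin r → ℕ, (∀ i, h i ≤ N) →
    (∀ p : ℕ, p.Prime → ¬ p ∣ W → ∀ i j, i ≠ j → ¬ (h i ≡ h j [MOD p])) →
    ∀ a : ℕ, (∀ i, (a + h i).Coprime W) →
    Real.exp (-(r:ℝ) ^ 11) * (((N:ℝ) / W) / (cW W * Real.log N) ^ r) ≤
      (((Ioc N (2 * N)).filter (fun n => n ≡ a [MOD W] ∧ (∀ i, Pool.Agent.PosProp.Rough (Pool.Agent.PosProp.Main.zz r N) (n + h i)) ∧
        m ≤ npr h n)).card : ℝ)

open Classical in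
/-- Maynard's sieve in one class modulo `Wp (wN N)` -/
def MayXS (r m A : ℕ) : Prop :=
  ∀ᶠ N : ℕ in atTop, ∀ (H : Finset ℕ) (a : ℕ), H.card = r →
    (∀ e ∈ H, (e:ℝ) ≤ (Real.log N) ^ A) → (∀ e ∈ H, (a + e).Coprime (Wp (wN N))) →
    Real.exp (-(r:ℝ) ^ 11) / 2 * (((N:ℝ) / Wp (wN N)) / (cW (Wp (wN N)) * Real.log N) ^ r) ≤
      (((XS N (wN N) a).filter (fun n => (∀ e ∈ H, Pool.Agent.PosProp.Rough (Pool.Agent.PosProp.Main.zz r N) (n + e)) ∧
        m ≤ (H.filter (fun e => (n + e).Prime)).card)).card : ℝ)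

open Classical in
/-- the number of rough elements in the translate of `B` -/
noncomputable def YY (r N : ℕ) (B : Finset ℕ) (n : ℕ) : ℕ :=
  (B.filter (fun b => Pool.Agent.PosProp.Rough (Pool.Agent.PosProp.Main.zz r N) (n + b))).card

end Pool.Agent.HLE
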