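import Mathlib
import Pool.Agent.HLE.MayDefs
import Pool.Agent.PosProp.MainC

/-!
Maynard's sieve in one class modulo a modulus up to a power of the logarithm.
-/

set_option autoImplicit false

namespace Pool.Agent.HLE

open Finset Filter Pool.Agent.Maynard Pool.Agent.PosProp Pool.Agent.PosProp.Main

/-- what is needed for the modulus -/
structure MF (k N W : ℕ) : Prop where
  ZK : 64 * (k:ℝ) * KV W ≤ cW W * Real.log (Zk k N)
  KVz : 10 ^ 6 * (k:ℝ) ^ 2 * KV W * (5 + 4 * Real.log (Nat.log 2 (Zk k N) + 1)) ≤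
    cW W * Real.log (Zk k N)
  WRR : W * (Zk k N ^ MM k * Zk k N ^ MM k) ≤ N
  WRRθ : W * (Zk k N ^ MM k * Zk k N ^ MM k) ≤ ⌊((3 * N : ℕ):ℝ) ^ (1 / 4 : ℝ)⌋₊
  err1 : 10 ^ 4 * (k:ℝ) ^ 2 * (zz k N : ℝ) *
    ((Zk k N : ℝ) ^ MM k * LL (Zk k N ^ MM k) ^ (4 * k)) ^ 2 ≤ (N:ℝ) / W

theorem final_count2 {k q N W : ℕ} (hk : 100 ≤ k) (hW : 0 < W) (hF : Facts k q N)
    (hZK : 64 * (k:ℝ) * KV W ≤ cW W * Real.log (Zk k N)) :
    Real.exp (-(k:ℝ)^11) * (((N:ℝ)/W) / (cW W * Real.log N)^k) ≤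
      ((N:ℝ)/W * SS k W (Zk k N) k) /
        (k * ((2:ℝ) ^ (k * Nat.log (zz k N) (3*N)) *
          (hT k * cellU W (K0k k) (Zk k N))^k)^2) := by
  have hk' : (100:ℝ) ≤ k := by exact_mod_cast hk
  have hk0 : (0:ℝ) < k := by linarith
  have hN3 := hF.N3
  have hN0 : (0:ℝ) < N := by exact_mod_cast (show 0 < N by omega)
  have hN1 : (1:ℝ) ≤ N := by exact_mod_cast (show 1 ≤ N by omega)
  have hWpos : (0:ℝ) < W := by exact_mod_cast hW
  set x := Real.log N with hx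
  have hx8 : 8 ≤ x := hF.logN
  set Z := Zk k N with hZ
  have hZ2 : 2 ≤ Z := hF.Z2
  have hZ1 : (1:ℝ) ≤ Z := by exact_mod_cast (show 1 ≤ Z by omega)
  set D := cW W * Real.log Z with hD
  have hKV := KV_pos hW
  have hZK : 64 * (k:ℝ) * KV W ≤ D := hZK
  have hD0 : 0 < D := lt_of_lt_of_le (by positivity) hZK
  have hcW := cW_pos hW
  -- `Z ≤ N`
  have hMM0 := fc_MM_pos (k := k) (by omega)
  have hZN : Real.log Z ≤ x := by
    refine Real.log_le_log (by linarith) ?_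
    have h1 : Z ≤ Z ^ MM k := Nat.le_self_pow hMM0.ne' Z
    have h2 : ((Z ^ MM k : ℕ) : ℝ) ≤ (N:ℝ) ^ (1 / 64 : ℝ) := hF.RN
    have h3 : (N:ℝ) ^ (1 / 64 : ℝ) ≤ (N:ℝ) ^ (1:ℝ) :=
      Real.rpow_le_rpow_of_exponent_le hN1 (by norm_num)
    rw [Real.rpow_one] at h3
    exact (Nat.cast_le.2 h1).trans (h2.trans h3)
  have hDx : D ≤ cW W * x := mul_le_mul_of_nonneg_left hZN hcW.le
  -- the cell constant
  have hK0 : (32:ℝ) ≤ K0k k := by
    have h1 : 32 ≤ K0k k := by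
      unfold K0k
      calc 32 ≤ 1 * k := by omega
        _ ≤ 2 ^ (k + 10) * k := Nat.mul_le_mul_right k Nat.one_le_two_pow
    exact_mod_cast h1
  have hKVD : KV W ≤ D := by
    have : 1 * KV W ≤ 64 * (k:ℝ) * KV W := mul_le_mul_of_nonneg_right (by linarith) hKV.le
    linarith
  have hU : cellU W (K0k k) Z ≤ 4 * D := by
    unfold cellU
    rw [← hD]
    have h1 : 32 / (K0k k : ℝ) ≤ 1 := by
      rw [div_le_one (by linarith)]; exact hK0
    calc (D + KV W) * (1 + 32 / (K0k k : ℝ)) ≤ (D + D) * (1 + 1) := by gcongr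
      _ = 4 * D := by ring
  have hU0 : 0 < cellU W (K0k k) Z := by
    unfold cellU
    rw [← hD]
    have : (0:ℝ) ≤ 32 / (K0k k : ℝ) := by positivity
    positivity
  have hT1 := hT_ge_one (T := k) (by omega)
  have hTk := hT_le k
  have hUk : hT k * cellU W (K0k k) Z ≤ 4 * k * D := by
    calc hT k * cellU W (K0k k) Z ≤ k * (4 * D) := by gcongr
      _ = _ := by ring
  have hU0' : 0 < hT k * cellU W (K0k k) Z := by positivity
  -- the power of `2`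
  have hL := fc_log_bound hk hF
  have h2L : (2:ℝ) ^ (k * Nat.log (zz k N) (3*N)) ≤ 2 ^ (k ^ 10) := by
    refine pow_le_pow_right₀ (by norm_num) ?_
    calc k * Nat.log (zz k N) (3*N) ≤ k * k ^ 9 := Nat.mul_le_mul_left k hL
      _ = k ^ 10 := by ring
  set den := (k:ℝ) * ((2:ℝ) ^ (k * Nat.log (zz k N) (3*N)) *
          (hT k * cellU W (K0k k) Z)^k)^2 with hden
  have hden0 : 0 < den := by positivity
  have hdenle : den ≤ (k * ((2:ℝ) ^ (k ^ 10) * (4 * (k:ℝ)) ^ k) ^ 2) * (D ^ k) ^ 2 := by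
    calc den ≤ (k:ℝ) * ((2:ℝ) ^ (k ^ 10) * (4 * k * D) ^ k) ^ 2 := by
          rw [hden]
          gcongr
      _ = _ := by
          rw [mul_pow (4 * (k:ℝ)) D k]
          ring
  have hE := fc_exp_arith hk
  have hdenle2 : den ≤ Real.exp ((k:ℝ) ^ 11) * (D ^ k) ^ 2 :=
    hdenle.trans (mul_le_mul_of_nonneg_right hE (by positivity))
  have hSS : D ^ k ≤ SS k W Z k := by
    unfold SS
    rw [← hD]
    refine pow_le_pow_left₀ hD0.le ?_ k
    exact le_mul_of_one_le_right hD0.le (gT2_ge_one (T := k) (by omega))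
  set X : ℝ := (N:ℝ) / W with hX
  have hX0 : 0 < X := by positivity
  have hDk0 : 0 < D ^ k := by positivity
  have hDxk : D ^ k ≤ (cW W * x) ^ k := pow_le_pow_left₀ hD0.le hDx k
  rw [le_div_iff₀ hden0]
  calc Real.exp (-(k:ℝ)^11) * (X / (cW W * x)^k) * den
      ≤ Real.exp (-(k:ℝ)^11) * (X / D^k) * (Real.exp ((k:ℝ) ^ 11) * (D ^ k) ^ 2) := by
        gcongr
    _ = (Real.exp (-(k:ℝ)^11) * Real.exp ((k:ℝ) ^ 11)) * (X * D ^ k) := by
        field_simp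
    _ = X * D ^ k := by
        rw [← Real.exp_add]
        simp
    _ ≤ X * SS k W Z k := mul_le_mul_of_nonneg_left hSS hX0.le


lemma m1_ev_loglog (A : ℝ) : ∀ᶠ N : ℕ in atTop,
    A * (Real.log (Real.log N)) ^ 3 ≤ Real.log N := by
  have h1 : ∀ᶠ x : ℝ in atTop, A * (Real.log x) ^ 3 ≤ x := by
    have h2 := (Real.isLittleO_pow_log_id_atTop (n := 3)).bound (c := (|A| + 1)⁻¹) (by positivity)
    filter_upwards [h2, eventually_ge_atTop 1] with x hx hx1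
    have hl : 0 ≤ Real.log x := Real.log_nonneg hx1
    rw [id, Real.norm_of_nonneg (by positivity), Real.norm_of_nonneg (by linarith)] at hx
    have h3 : A ≤ |A| + 1 := (le_abs_self A).trans (by linarith)
    have h4 : (|A| + 1) * (Real.log x) ^ 3 ≤ (|A| + 1) * ((|A| + 1)⁻¹ * x) :=
      mul_le_mul_of_nonneg_left hx (by positivity)
    have h5 : (|A| + 1) * ((|A| + 1)⁻¹ * x) = x := by field_simp
    have h6 : A * (Real.log x) ^ 3 ≤ (|A| + 1) * (Real.log x) ^ 3 :=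
      mul_le_mul_of_nonneg_right h3 (by positivity)
    linarith
  exact tendsto_log_nat.eventually h1

lemma m1_ev_loglog_ge (A : ℝ) : ∀ᶠ N : ℕ in atTop, A ≤ Real.log (Real.log N) :=
  (Real.tendsto_log_atTop.comp tendsto_log_nat).eventually_ge_atTop A

lemma m1_natlog_le {V : ℕ} (hV : 0 < V) : (Nat.log 2 V : ℝ) ≤ 2 * Real.log V := by
  have hV0 : (0:ℝ) < V := by exact_mod_cast hV
  have h1 : ((2 ^ Nat.log 2 V : ℕ) : ℝ) ≤ V := by
    exact_mod_cast Nat.pow_log_le_self 2 hV.ne'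
  have h2 : (Nat.log 2 V : ℝ) * Real.log 2 ≤ Real.log V := by
    have h3 := Real.log_le_log (by positivity) h1
    push_cast at h3
    rw [Real.log_pow] at h3
    exact h3
  have h4 : (1:ℝ) / 2 ≤ Real.log 2 := by
    have := Real.log_two_gt_d9
    linarith
  have h5 : (0:ℝ) ≤ Nat.log 2 V := Nat.cast_nonneg _
  nlinarith

lemma m1_KV_eq (W : ℕ) : KV W = 9 + 2 * Real.log W := by
  unfold KV KW
  ring

/-- the modulus facts hold for all `W ≤ (log N) ^ C` -/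
theorem ev_MF (k C : ℕ) (hk : 100 ≤ k) : ∀ᶠ N : ℕ in atTop, ∀ W : ℕ, 0 < W →
    (W:ℝ) ≤ (Real.log N) ^ C → MF k N W := by
  have hM0 : 0 < MM k := fc_MM_pos (k := k) (by omega)
  have hM0r : (0:ℝ) < MM k := by exact_mod_cast hM0
  filter_upwards [ev_facts k 1 hk le_rfl, m1_ev_loglog_ge 1,
    m1_ev_loglog (64 * (k:ℝ) * (9 + 2 * C) * (1 + 2 * C) * (128 * (MM k : ℝ))),
    m1_ev_loglog (10 ^ 6 * (k:ℝ) ^ 2 * (9 + 2 * C) * 17 * (1 + 2 * C) * (128 * (MM k : ℝ))),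
    ev_log_pow_le (s := 1 / 8) (by norm_num) C,
    ev_LL_pow_le (s := 1 / 64) (by norm_num) (8 * k + 8),
    ev_rpow_ge (s := 1 / 64) (by norm_num) (10 ^ 4 * (k:ℝ) ^ 2)]
    with N hF hll hA1 hA2 hW8 hLL hk4 W hW hWlog
  set x := Real.log N with hx
  set l := Real.log x with hl
  set M := MM k with hM
  set Z := Zk k N with hZ
  have hN3 := hF.N3
  have hk' : (100:ℝ) ≤ k := by exact_mod_cast hk
  have hx8 : 8 ≤ x := hF.logN
  have hx0 : 0 < x := by linarith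
  have hx1 : 1 ≤ x := by linarith
  have hN0 : (0:ℝ) < N := by exact_mod_cast (show 0 < N by omega)
  have hN1 : (1:ℝ) ≤ N := by exact_mod_cast (show 1 ≤ N by omega)
  have hW0 : (0:ℝ) < W := by exact_mod_cast hW
  have hlogZ : 1 / (128 * (M : ℝ)) * x ≤ Real.log Z := hF.logZ
  have hZ2 : 2 ≤ Z := hF.Z2
  have hZ0 : (0:ℝ) < Z := by exact_mod_cast (show 0 < Z by omega)
  have hRN : ((Z ^ M : ℕ) : ℝ) ≤ (N:ℝ) ^ (1 / 64 : ℝ) := hF.RN
  have hN64 : (N:ℝ) ^ (1 / 64 : ℝ) ≤ N := by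
    calc (N:ℝ) ^ (1 / 64 : ℝ) ≤ (N:ℝ) ^ (1 : ℝ) :=
          Real.rpow_le_rpow_of_exponent_le hN1 (by norm_num)
      _ = _ := Real.rpow_one _
  have hRleN : Z ^ M ≤ N := by exact_mod_cast hRN.trans hN64
  have hZN : Z ≤ N := (Nat.le_self_pow hM0.ne' _).trans hRleN
  have hzz : (zz k N : ℝ) ≤ (N:ℝ) ^ (1 / 64 : ℝ) := by
    refine le_trans ?_ hRN
    exact_mod_cast hF.zR
  -- the density
  have hlogW : Real.log W ≤ C * l := by
    calc Real.log W ≤ Real.log (x ^ C) := Real.log_le_log hW0 hWlog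
      _ = _ := Real.log_pow _ _
  have hC0 : (0:ℝ) ≤ C := Nat.cast_nonneg _
  have hKV : KV W ≤ (9 + 2 * C) * l := by
    rw [m1_KV_eq]
    nlinarith
  have hKV0 : 0 < KV W := KV_pos hW
  have hn : (Nat.log 2 W : ℝ) + 1 ≤ (1 + 2 * C) * l := by
    have := m1_natlog_le hW
    nlinarith
  have hn0 : (0:ℝ) < (Nat.log 2 W : ℝ) + 1 := by positivity
  have hcV := Pool.Agent.PosProp.WB.cW_ge_log hW
  have hcW0 := cW_pos hW
  have key : ∀ T : ℝ, 0 ≤ T → T * ((1 + 2 * C) * l) * (128 * (M:ℝ)) ≤ x → T ≤ cW W * Real.log Z := by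
    intro T hT h1
    have h2 : T * ((Nat.log 2 W : ℝ) + 1) ≤ Real.log Z := by
      refine le_trans ?_ hlogZ
      rw [one_div, inv_mul_eq_div, le_div_iff₀ (by positivity)]
      refine le_trans ?_ h1
      gcongr
    have hlz : 0 ≤ Real.log Z := Real.log_natCast_nonneg _
    calc T = 1 / ((Nat.log 2 W : ℝ) + 1) * (T * ((Nat.log 2 W : ℝ) + 1)) := by field_simp
      _ ≤ cW W * Real.log Z := mul_le_mul hcV h2 (by positivity) hcW0.le
  have hWN8 : (W:ℝ) ≤ (N:ℝ) ^ (1 / 8 : ℝ) := hWlog.trans hW8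
  have hRNr : (Z:ℝ) ^ M ≤ (N:ℝ) ^ (1 / 64 : ℝ) := by
    have := hRN
    push_cast at this
    exact this
  have hP : ∀ s t : ℝ, (N:ℝ) ^ s * (N:ℝ) ^ t = (N:ℝ) ^ (s + t) := fun s t =>
    (Real.rpow_add hN0 s t).symm
  have hWRRr : ((W * (Z ^ M * Z ^ M) : ℕ) : ℝ) ≤ (N:ℝ) ^ (1 / 4 : ℝ) := by
    push_cast
    calc (W:ℝ) * ((Z:ℝ) ^ M * (Z:ℝ) ^ M) ≤
          (N:ℝ) ^ (1 / 8 : ℝ) * ((N:ℝ) ^ (1 / 64 : ℝ) * (N:ℝ) ^ (1 / 64 : ℝ)) := by gcongr
      _ = (N:ℝ) ^ ((1 / 8 : ℝ) + (1 / 64 + 1 / 64)) := by rw [hP, hP]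
      _ ≤ _ := Real.rpow_le_rpow_of_exponent_le hN1 (by norm_num)
  have hLLge : 1 ≤ LL (Z ^ M) := LL_ge_one _
  have hLLle : LL (Z ^ M) ≤ LL N := LL_mono hRleN
  have hLL8 : LL (Z ^ M) ^ (8 * k + 8) ≤ (N:ℝ) ^ (1 / 64 : ℝ) :=
    (pow_le_pow_left₀ (by linarith) hLLle _).trans hLL
  have hLL8' : LL (Z ^ M) ^ (8 * k) ≤ (N:ℝ) ^ (1 / 64 : ℝ) :=
    (pow_le_pow_right₀ hLLge (by omega)).trans hLL8
  have hl0 : 0 ≤ l := by linarith
  have hl2 : l ^ 2 ≤ l ^ 3 := pow_le_pow_right₀ hll (by norm_num)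
  refine ⟨?_, ?_, ?_, ?_, ?_⟩
  · -- ZK
    refine key _ (by positivity) ?_
    refine le_trans ?_ hA1
    calc 64 * (k:ℝ) * KV W * ((1 + 2 * C) * l) * (128 * (M:ℝ)) ≤
          64 * (k:ℝ) * ((9 + 2 * C) * l) * ((1 + 2 * C) * l) * (128 * (M:ℝ)) := by gcongr
      _ = 64 * (k:ℝ) * (9 + 2 * C) * (1 + 2 * C) * (128 * (M : ℝ)) * l ^ 2 := by ring
      _ ≤ _ := by gcongr
  · -- KVz
    have h3 : (Nat.log 2 Z : ℝ) ≤ 2 * x := by
      refine (m1_natlog_le (by omega)).trans ?_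
      have : Real.log Z ≤ x := Real.log_le_log hZ0 (by exact_mod_cast hZN)
      linarith
    have h4 : Real.log (Nat.log 2 Z + 1) ≤ 3 * l := by
      have h5 : (Nat.log 2 Z : ℝ) + 1 ≤ x ^ 3 := by
        have e1 : (64:ℝ) ≤ x ^ 2 := by nlinarith
        have e2 : x ^ 3 = x ^ 2 * x := by ring
        have e3 : 64 * x ≤ x ^ 2 * x := mul_le_mul_of_nonneg_right e1 hx0.le
        rw [e2]
        linarith
      calc Real.log (Nat.log 2 Z + 1) ≤ Real.log (x ^ 3) := Real.log_le_log (by positivity) h5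
        _ = 3 * l := by rw [Real.log_pow, hl]; norm_num
    have h6 : 5 + 4 * Real.log (Nat.log 2 Z + 1) ≤ 17 * l := by linarith
    have h7 : 0 ≤ Real.log ((Nat.log 2 Z : ℝ) + 1) := Real.log_nonneg (by
      have : (0:ℝ) ≤ Nat.log 2 Z := Nat.cast_nonneg _
      linarith)
    refine key _ (by positivity) ?_
    refine le_trans ?_ hA2
    calc 10 ^ 6 * (k:ℝ) ^ 2 * KV W * (5 + 4 * Real.log (Nat.log 2 Z + 1)) * ((1 + 2 * C) * l) *
          (128 * (M:ℝ)) ≤ 10 ^ 6 * (k:ℝ) ^ 2 * ((9 + 2 * C) * l) * (17 * l) * ((1 + 2 * C) * l) *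
          (128 * (M:ℝ)) := by gcongr
      _ = _ := by ring
  · -- WRR
    have h1 : ((W * (Z ^ M * Z ^ M) : ℕ) : ℝ) ≤ (N : ℕ) := by
      refine hWRRr.trans ?_
      calc (N:ℝ) ^ (1 / 4 : ℝ) ≤ (N:ℝ) ^ (1 : ℝ) :=
            Real.rpow_le_rpow_of_exponent_le hN1 (by norm_num)
        _ = _ := Real.rpow_one _
    exact_mod_cast h1
  · -- WRRθ
    refine Nat.le_floor (hWRRr.trans ?_)
    push_cast
    exact Real.rpow_le_rpow hN0.le (by linarith) (by norm_num)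
  · -- err1
    rw [le_div_iff₀ hW0]
    have h1 : ((Z:ℝ) ^ M * LL (Z ^ M) ^ (4 * k)) ^ 2 ≤
        ((N:ℝ) ^ (1 / 64 : ℝ) * (N:ℝ) ^ (1 / 64 : ℝ)) * (N:ℝ) ^ (1 / 64 : ℝ) := by
      have e1 : ((Z:ℝ) ^ M * LL (Z ^ M) ^ (4 * k)) ^ 2 =
          ((Z:ℝ) ^ M * (Z:ℝ) ^ M) * LL (Z ^ M) ^ (8 * k) := by ring
      rw [e1]
      gcongr
    calc 10 ^ 4 * (k:ℝ) ^ 2 * (zz k N : ℝ) * ((Z:ℝ) ^ M * LL (Z ^ M) ^ (4 * k)) ^ 2 * W ≤
          (N:ℝ) ^ (1 / 64 : ℝ) * (N:ℝ) ^ (1 / 64 : ℝ) * (((N:ℝ) ^ (1 / 64 : ℝ) *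
            (N:ℝ) ^ (1 / 64 : ℝ)) * (N:ℝ) ^ (1 / 64 : ℝ)) * (N:ℝ) ^ (1 / 8 : ℝ) := by gcongr
      _ = (N:ℝ) ^ ((1 / 64 : ℝ) + 1 / 64 + (1 / 64 + 1 / 64 + 1 / 64) + 1 / 8) := by
          simp only [hP]
      _ ≤ (N:ℝ) ^ (1 : ℝ) := Real.rpow_le_rpow_of_exponent_le hN1 (by norm_num)
      _ = _ := Real.rpow_one _


lemma setting_PW2 {W K0 : ℕ} (hK : ∀ p : ℕ, p.Prime → p < K0 → p ∣ W) (R : ℕ) :
    Setting (PW W R) W K0 R where
  prime p hp := (Finset.mem_filter.1 hp).2.1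
  ndvd p hp := (Finset.mem_filter.1 hp).2.2
  ge p hp := by
    by_contra hcon
    push Not at hcon
    exact (Finset.mem_filter.1 hp).2.2 (hK p (Finset.mem_filter.1 hp).2.1 hcon)
  le p hp := by
    have := Finset.mem_range.1 (Finset.mem_filter.1 hp).1
    omega
  mem p hp hd hR := Finset.mem_filter.2 ⟨Finset.mem_range.2 (by omega), hp, hd⟩

open Classical in
/-- the non-rough `n` -/
theorem bad_le2 {k : ℕ} {P : Finset ℕ} {W K0 Z T M z N a : ℕ} {h : Fin k → ℕ}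
    (hS : Setting P W K0 (Z ^ M)) (hzR : z ≤ Z ^ M)
    (ha : ∀ i, (a + h i).Coprime W) {B : ℝ}
    (hB : ∑ i : Fin k, ∑ p ∈ P.filter (· ≤ z), ∑ n ∈ (Ioc N (2*N)).filter
      (fun n => n ≡ a [MOD W] ∧ p ∣ n + h i), GG (cc Z T M) (JJ (P:=P) h n)^2 ≤ B) :
    ∑ n ∈ ((Ioc N (2 * N)).filter (fun n => n ≡ a [MOD W])).filter
        (fun n => ¬ ∀ i, Rough z (n + h i)), GG (cc Z T M) (JJ (P := P) h n) ^ 2 ≤ B := by
  refine le_trans ?_ hB
  set g : ℕ → ℝ := fun n => GG (cc Z T M) (JJ (P := P) h n) ^ 2 with hg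
  have hg0 : ∀ n, 0 ≤ g n := fun n => sq_nonneg _
  set A := (Ioc N (2 * N)).filter (fun n => n ≡ a [MOD W]) with hA
  have e1 : ∀ (i : Fin k) (p : ℕ), ∑ n ∈ (Ioc N (2*N)).filter
      (fun n => n ≡ a [MOD W] ∧ p ∣ n + h i), g n =
      ∑ n ∈ A, if p ∣ n + h i then g n else 0 := by
    intro i p
    rw [← Finset.sum_filter, hA, Finset.filter_filter]
  simp_rw [e1]
  have e2 : ∑ i : Fin k, ∑ p ∈ P.filter (· ≤ z), ∑ n ∈ A, (if p ∣ n + h i then g n else 0) =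
      ∑ n ∈ A, ∑ i : Fin k, ∑ p ∈ P.filter (· ≤ z), (if p ∣ n + h i then g n else 0) := by
    rw [Finset.sum_comm' (s := (Finset.univ : Finset (Fin k))) (t := fun _ => P.filter (· ≤ z))
      (t' := P.filter (· ≤ z)) (s' := fun _ => Finset.univ) (by simp)]
    rw [Finset.sum_congr rfl fun p _ => Finset.sum_comm, Finset.sum_comm]
    exact Finset.sum_congr rfl fun n _ => Finset.sum_comm
  rw [e2, Finset.sum_filter]
  refine Finset.sum_le_sum fun n hn => ?_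
  by_cases hr : ∀ i, Rough z (n + h i)
  · rw [if_neg (not_not.2 hr)]
    exact Finset.sum_nonneg fun i _ => Finset.sum_nonneg fun p _ => by
      split_ifs
      · exact hg0 n
      · exact le_rfl
  · rw [if_pos hr]
    obtain ⟨i, hi⟩ := not_forall.1 hr
    unfold Rough at hi
    push Not at hi
    obtain ⟨p, hp, hpz, hpd⟩ := hi
    have hnW : ¬ p ∣ W := by
      intro hcon
      rw [hA, Finset.mem_filter] at hn
      have h3 : n + h i ≡ a + h i [MOD p] := Nat.ModEq.add_right _ (hn.2.of_dvd hcon)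
      have h4 : p ∣ a + h i := (h3.dvd_iff dvd_rfl).1 hpd
      exact Nat.Prime.not_coprime_iff_dvd.2 ⟨p, hp, h4, hcon⟩ (ha i)
    have hpP : p ∈ P.filter (· ≤ z) :=
      Finset.mem_filter.2 ⟨hS.mem p hp hnW (hpz.trans hzR), hpz⟩
    have h5 : g n = (if p ∣ n + h i then g n else 0) := by rw [if_pos hpd]
    have h6 : (if p ∣ n + h i then g n else 0) ≤
        ∑ p ∈ P.filter (· ≤ z), (if p ∣ n + h i then g n else 0) :=
      Finset.single_le_sum (f := fun p => if p ∣ n + h i then g n else 0)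
        (fun p _ => by
          split_ifs
          · exact hg0 n
          · exact le_rfl) hpP
    have h7 : ∑ p ∈ P.filter (· ≤ z), (if p ∣ n + h i then g n else 0) ≤
        ∑ i : Fin k, ∑ p ∈ P.filter (· ≤ z), (if p ∣ n + h i then g n else 0) :=
      Finset.single_le_sum (f := fun i => ∑ p ∈ P.filter (· ≤ z), if p ∣ n + h i then g n else 0)
        (fun i _ => Finset.sum_nonneg fun p _ => by
          split_ifs
          · exact hg0 n
          · exact le_rfl) (Finset.mem_univ i)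
    exact h5.le.trans (h6.trans h7)

open Classical in
/-- the estimate for one tuple and one class -/
theorem one_tuple2 {m k N W : ℕ} (hk : 100 ≤ k)
    (hT' : 864 * ((m:ℝ) + 1) * 64 ≤ hT k) (hF : Facts k 1 N) (hM : MF k N W) (hWpos : 0 < W)
    (hK : ∀ p : ℕ, p.Prime → p < K0k k → p ∣ W)
    (h : Fin k → ℕ) (hle : ∀ i, h i ≤ N)
    (herr : ∀ s : ℕ, s ≤ N →
      ∀ (P : Finset ℕ) (K0 R : ℕ), Setting P W K0 R → R ≤ N →
      W * (R * R) ≤ N → W * (R * R) ≤ ⌊((3 * N : ℕ):ℝ) ^ (1 / 4 : ℝ)⌋₊ →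
      L0 P k ^ 2 * ∑ B : P → Bool, FB P N s W (R * R) B * pm (fun _ => (2 * (k:ℝ) + 1) ^ 2) B ≤
        N / (W * (Real.log N) ^ 2))
    (hsep' : ∀ p : ℕ, p.Prime → ¬ p ∣ W → ∀ i j, i ≠ j → ¬ (h i ≡ h j [MOD p]))
    (a : ℕ) (ha : ∀ i, (a + h i).Coprime W) :
    Real.exp (-(k:ℝ) ^ 11) * (((N:ℝ) / W) / (cW W * Real.log N) ^ k) ≤
      (((Ioc N (2 * N)).filter (fun n => n ≡ a [MOD W] ∧ (∀ i, Rough (Pool.Agent.PosProp.Main.zz k N) (n + h i)) ∧
        m ≤ npr h n)).card : ℝ) := by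
  set K0 := K0k k with hK0
  have hx0 : 0 < Real.log N := by have := hF.logN; linarith
  set Z := Zk k N with hZ
  set M := MM k with hMdef
  set P := PW W (Z ^ M) with hP
  have hS : Setting P W K0 (Z ^ M) := setting_PW2 hK (Z ^ M)
  have hsep : Sep P h := fun p hp i j hij =>
    hsep' p (Finset.mem_filter.1 hp).2.1 (Finset.mem_filter.1 hp).2.2 i j hij
  have hk1 : 1 ≤ k := by omega
  have hk2 : 2 ≤ k := by omega
  have hkr : (100:ℝ) ≤ k := by exact_mod_cast hk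
  have hM1 : k ≤ M := le_MM hk1
  have hM0 : 0 < M := by omega
  obtain ⟨hmod1, hmod2⟩ := model_bounds (P := P) (M := M) (T := k) (k := k) hS hWpos hk2 hk1
    le_rfl (MM_ge k) (le_of_eq rfl) hF.Z2 (Nat.pow_le_pow_right (by have := hF.Z2; omega) hM1) hM.ZK
  have hN3 := hF.N3
  have hN1 : (1:ℝ) ≤ N := by exact_mod_cast (show 1 ≤ N by omega)
  have hRleN : Z ^ M ≤ N := by
    have h1 : ((Z ^ M : ℕ) : ℝ) ≤ (N:ℝ) ^ (1:ℝ) := hF.RN.trans
      (Real.rpow_le_rpow_of_exponent_le hN1 (by norm_num))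
    rw [Real.rpow_one] at h1
    exact_mod_cast h1
  have hKV1 : 1 ≤ KV W := by
    unfold KV
    have := KW_pos hWpos
    linarith
  have hcWpos := cW_pos hWpos
  set D := cW W * Real.log Z with hD
  have hD1 : 1 ≤ D := by
    refine le_trans ?_ hM.ZK
    have h1 := mul_le_mul (show (1:ℝ) ≤ 64 * k by linarith) hKV1 zero_le_one (by positivity)
    rwa [one_mul] at h1
  have hG1 := gT2_ge_one (T := k) hk1
  set Sk := SS k W Z k with hSk
  have hSk1 : 1 ≤ Sk := by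
    rw [hSk]; unfold SS
    rw [← hD]
    exact one_le_pow₀ (one_le_mul_of_one_le_of_one_le hD1 hG1)
  have hWr : (0:ℝ) < W := by exact_mod_cast hWpos
  have hX0 : 0 < (N:ℝ) / W := by positivity
  set S := (N:ℝ) / W * Sk with hSdef
  have hXS : (N:ℝ) / W ≤ S := le_mul_of_one_le_right hX0.le hSk1
  have hS0 : 0 < S := lt_of_lt_of_le hX0 hXS
  have hlogZ1 : 1 ≤ Real.log Z := by
    have h1 : D ≤ 1 * Real.log Z :=
      mul_le_mul_of_nonneg_right (cW_le_one W) (Real.log_natCast_nonneg _)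
    linarith
  have hz2 := hF.z2
  set z := zz k N with hz
  have hLL1 := LL_ge_one (Z ^ M)
  have hsup : ((Z:ℝ) ^ M * LL (Z ^ M) ^ (4 * k)) ^ 2 ≤ (N:ℝ) / W := by
    refine le_trans ?_ hM.err1
    refine le_mul_of_one_le_left (sq_nonneg _) ?_
    have h1 : (1:ℝ) ≤ z := by exact_mod_cast (show 1 ≤ z by omega)
    have h2 : (1:ℝ) ≤ 10 ^ 4 * (k:ℝ) ^ 2 := by nlinarith
    exact one_le_mul_of_one_le_of_one_le h2 h1
  set g : ℕ → ℝ := fun n => GG (cc Z k M) (JJ (P := P) h n) ^ 2 with hg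
  have hg0 : ∀ n, 0 ≤ g n := fun n => sq_nonneg _
  set A := (Finset.Ioc N (2 * N)).filter (fun n => n ≡ a [MOD W]) with hA
  have h1 : ∑ n ∈ A, g n ≤ 3 * S := total_le hS hWpos hF.Z2 hsep hmod1 hSk1 hsup
  have h2 : (3 * ((m:ℝ) + 1)) * S ≤ ∑ n ∈ A, (npr h n : ℝ) * g n := by
    refine npr_ge hk2 hS hWpos hF.Z2 hsep ha hmod2 hD1 hM0 (MM_le hk1) hF.logZ hlogZ1 hN3 hF.logN
      hRleN hle (fun i => ?_) (by positivity) hT'
    exact herr (h i) (hle i) P K0 (Z ^ M) hS hRleN hM.WRR hM.WRRθ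
  have hzR := hF.zR
  have h3 : ∑ n ∈ A.filter (fun n => ¬ ∀ i, Rough z (n + h i)), g n ≤ S / (100 * k) := by
    refine bad_le2 hS hzR ha ?_
    exact rough_sum hS hWpos hk hk1 (le_of_eq rfl) hF.Z2 hM.ZK hsep hz2 hF.zZ hM.KVz N a hM.err1
  have hlogZ0 : 0 < Real.log Z := by linarith
  have hKV0 : 0 < KV W := by linarith
  set G : ℝ := ((2:ℝ) ^ (k * Nat.log z (3 * N)) * (hT k * cellU W K0 Z) ^ k) ^ 2 with hG
  have hcell : 0 < cellU W K0 Z := by
    unfold cellU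
    have : (0:ℝ) ≤ 32 / (K0:ℝ) := by positivity
    have h6 : 0 < cW W * Real.log Z + KV W := by positivity
    positivity
  have hh1 := hT_ge_one (T := k) hk1
  have hG0 : 0 < G := by
    rw [hG]
    have : 0 < hT k := by linarith
    positivity
  have h7 : ∀ n ∈ A, (∀ i, Rough z (n + h i)) → g n ≤ G := by
    intro n hn hr
    rw [hA, Finset.mem_filter, Finset.mem_Ioc] at hn
    have hK16 : 16 ≤ K0 := by
      rw [hK0]
      unfold K0k
      have : 2 ^ (k + 10) ≥ 2 ^ 10 := Nat.pow_le_pow_right (by norm_num) (by omega)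
      nlinarith
    have e1 := GG_sup (T := k) (M := M) (h := h) (n := n) (B := 3 * N) hS hWpos hK16 hF.Z2 hz2
      (by omega) (fun i => by
        have e2 := hle i
        omega) (fun p hp hpz i => hr i p (hS.prime p hp) hpz)
    rw [hG]
    simp only [hg]
    rw [← sq_abs]
    exact pow_le_pow_left₀ (abs_nonneg _) e1 2
  have h8 := comb hg0 (fun n => npr h n) (fun _ => 0)
    (fun _ => 0) (fun n => ∀ i, Rough z (n + h i)) (m := m) (L := 1) (c2 := 0) (c3 := 0)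
    hk1 le_rfl (fun n => npr_le h n)
    hS0.le h1 h2 (by
      refine le_trans (le_of_eq ?_) h3
      refine Finset.sum_congr ?_ fun _ _ => rfl
      ext n
      simp only [Finset.mem_filter]) (by simp) (by norm_num) (by simp) (by
      have : (0:ℝ) ≤ m := Nat.cast_nonneg _
      linarith) h7 hG0
  have h9 := final_count2 hk hWpos hF hM.ZK
  refine h9.trans (h8.trans (le_of_eq ?_))
  congr 2
  ext n
  simp only [Finset.mem_filter, hA]
  constructor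
  · rintro ⟨⟨e1, e2⟩, e3, -, e4⟩
    exact ⟨e1, e2, e3, by omega⟩
  · rintro ⟨e1, e2, e3, e4⟩
    exact ⟨⟨e1, e2⟩, e3, by omega, by omega⟩

theorem may_class (r m C : ℕ) (hr : 100 ≤ r) (hT' : 864 * ((m:ℝ) + 1) * 64 ≤ hT r) :
    MayClass r m C := by
  unfold MayClass
  filter_upwards [ev_facts r 1 hr le_rfl, ev_MF r C hr,
    Pool.Agent.PP.ev_err_unif (bvHyp (θ := 1 / 4) (by norm_num)) r C 2]
    with N hF hMF herr W hW hWlog hK h hle hsep a ha
  exact one_tuple2 hr hT' hF (hMF W hW hWlog) hW hK h hle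
    (fun s hs P K0 R hS hR h1 h2 => herr W s hW hWlog hs P K0 R hS hR h1 h2) hsep a ha

end Pool.Agent.HLE
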