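import Mathlib
import Pool.Agent.HLE.MayDefs

/-!
From one class modulo `W` to one class modulo `Wp (wN N)` (MP_485179_nt, SmallSets, helper34).
-/

set_option autoImplicit false

namespace Pool.Agent.HLE.May2

open Finset Filter H34P Pool.Agent.HLT Pool.Agent.HL26

/-- solutions of a linear congruence -/
lemma card_dvd_le {p D V : ℕ} (hp : p.Prime) (hpD : p ∣ D) (hpV : ¬ p ∣ V) (c : ℕ) :
    ((range D).filter (fun t => p ∣ c + V * t)).card ≤ D / p := by
  classical
  rcases ((range D).filter (fun t => p ∣ c + V * t)).eq_empty_or_nonempty with h | ⟨t0, ht0⟩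
  · rw [h]
    simp
  · have h0 := (mem_filter.1 ht0).2
    have hsub : (range D).filter (fun t => p ∣ c + V * t) ⊆
        (range D).filter (fun t => t ≡ t0 [MOD p]) := by
      intro t ht
      rw [mem_filter] at ht ⊢
      refine ⟨ht.1, ?_⟩
      have h1 : c + V * t ≡ c + V * t0 [MOD p] :=
        ((Nat.modEq_zero_iff_dvd.2 ht.2).trans (Nat.modEq_zero_iff_dvd.2 h0).symm)
      have h2 : V * t ≡ V * t0 [MOD p] := Nat.ModEq.add_left_cancel' c h1
      have hco : p.gcd V = 1 := (Nat.Prime.coprime_iff_not_dvd hp).2 hpV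
      exact Nat.ModEq.cancel_left_of_coprime hco h2
    refine (card_le_card hsub).trans ?_
    have h3 := Nat.count_modEq_card D hp.pos t0
    rw [Nat.count_eq_card_filter_range] at h3
    rw [h3, Nat.mod_eq_zero_of_dvd hpD]
    simp

/-- the good classes -/
lemma card_good {P H : Finset ℕ} (hP : ∀ p ∈ P, p.Prime) {V : ℕ} (hV : ∀ p ∈ P, ¬ p ∣ V) (a : ℕ)
    (hs : (H.card : ℝ) * ∑ p ∈ P, 1 / (p:ℝ) ≤ 1 / 2) :
    ((∏ p ∈ P, p : ℕ) : ℝ) / 2 ≤
      (((range (∏ p ∈ P, p)).filter (fun t => ∀ e ∈ H,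
        (a + V * t + e).Coprime (∏ p ∈ P, p))).card : ℝ) := by
  classical
  obtain ⟨D, hD⟩ : ∃ D : ℕ, D = ∏ p ∈ P, p := ⟨_, rfl⟩
  rw [← hD]
  have hD0 : 0 < D := by
    rw [hD]
    exact Finset.prod_pos fun p hp => (hP p hp).pos
  have hsplit := card_filter_add_card_filter_not (s := range D)
    (fun t => ∀ e ∈ H, (a + V * t + e).Coprime D)
  rw [card_range] at hsplit
  have hbad : (((range D).filter (fun t => ¬ ∀ e ∈ H, (a + V * t + e).Coprime D)).card : ℝ) ≤
      (D:ℝ) / 2 := by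
    have hsub : (range D).filter (fun t => ¬ ∀ e ∈ H, (a + V * t + e).Coprime D) ⊆
        H.biUnion (fun e => P.biUnion (fun p =>
          (range D).filter (fun t => p ∣ (a + e) + V * t))) := by
      intro t ht
      rw [mem_filter] at ht
      obtain ⟨ht1, ht2⟩ := ht
      push Not at ht2
      obtain ⟨e, he, hne⟩ := ht2
      obtain ⟨p, hp, hp1, hp2⟩ := Nat.Prime.not_coprime_iff_dvd.1 hne
      have hpP : p ∈ P := by
        rw [hD] at hp2
        obtain ⟨q, hq, hpq⟩ := (Prime.dvd_finsetProd_iff hp.prime _).1 hp2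
        have := (Nat.prime_dvd_prime_iff_eq hp (hP q hq)).1 hpq
        rw [this]
        exact hq
      rw [mem_biUnion]
      refine ⟨e, he, mem_biUnion.2 ⟨p, hpP, mem_filter.2 ⟨ht1, ?_⟩⟩⟩
      have e1 : a + e + V * t = a + V * t + e := by ring
      rw [e1]
      exact hp1
    have h1 := (card_le_card hsub).trans card_biUnion_le
    have h2 : ∑ e ∈ H, (P.biUnion (fun p =>
        (range D).filter (fun t => p ∣ (a + e) + V * t))).card ≤ ∑ e ∈ H, ∑ p ∈ P, D / p := by
      refine sum_le_sum fun e _ => card_biUnion_le.trans (sum_le_sum fun p hp => ?_)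
      refine card_dvd_le (hP p hp) ?_ (hV p hp) (a + e)
      rw [hD]
      exact dvd_prod_of_mem _ hp
    have h3 : (((range D).filter (fun t => ¬ ∀ e ∈ H, (a + V * t + e).Coprime D)).card : ℝ) ≤
        ((∑ e ∈ H, ∑ p ∈ P, D / p : ℕ) : ℝ) := by exact_mod_cast h1.trans h2
    refine h3.trans ?_
    push_cast
    rw [sum_const, nsmul_eq_mul]
    have h4 : ∑ p ∈ P, ((D / p : ℕ) : ℝ) ≤ D * ∑ p ∈ P, 1 / (p:ℝ) := by
      rw [mul_sum]
      refine sum_le_sum fun p _ => ?_
      rw [mul_one_div]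
      exact Nat.cast_div_le
    have h5 := mul_le_mul_of_nonneg_left h4 (Nat.cast_nonneg H.card : (0:ℝ) ≤ H.card)
    have h6 := mul_le_mul_of_nonneg_left hs (Nat.cast_nonneg D : (0:ℝ) ≤ D)
    calc (H.card : ℝ) * ∑ p ∈ P, ((D / p : ℕ) : ℝ) ≤ H.card * (D * ∑ p ∈ P, 1 / (p:ℝ)) := h5
      _ = D * (H.card * ∑ p ∈ P, 1 / (p:ℝ)) := by ring
      _ ≤ D * (1 / 2) := h6
      _ = _ := by ring
  have h7 : (((range D).filter (fun t => ∀ e ∈ H, (a + V * t + e).Coprime D)).card : ℝ) +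
      (((range D).filter (fun t => ¬ ∀ e ∈ H, (a + V * t + e).Coprime D)).card : ℝ) = D := by
    exact_mod_cast hsplit
  linarith

/-- the sum of the reciprocals of the large prime factors -/
lemma sum_inv_le {P : Finset ℕ} {w : ℕ} (hw : 2 ≤ w) (hP : ∀ p ∈ P, w < p) :
    ∑ p ∈ P, 1 / (p:ℝ) ≤ Real.log ((∏ p ∈ P, p : ℕ) : ℝ) / (w * Real.log w) := by
  have hw0 : (0:ℝ) < w := by exact_mod_cast (by omega : 0 < w)
  have hlw : 0 < Real.log w := Real.log_pos (by exact_mod_cast (by omega : 1 < w))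
  have h1 : (P.card : ℝ) * Real.log w ≤ Real.log ((∏ p ∈ P, p : ℕ) : ℝ) := by
    push_cast
    rw [Real.log_prod (fun p hp => by
      have := hP p hp
      exact_mod_cast (by omega : p ≠ 0)), ← nsmul_eq_mul, ← sum_const]
    refine sum_le_sum fun p hp => ?_
    exact Real.log_le_log hw0 (by exact_mod_cast (hP p hp).le)
  have h2 : ∑ p ∈ P, 1 / (p:ℝ) ≤ P.card * (1 / (w:ℝ)) := by
    rw [← nsmul_eq_mul, ← sum_const]
    refine sum_le_sum fun p hp => ?_
    exact one_div_le_one_div_of_le hw0 (by exact_mod_cast (hP p hp).le)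
  refine h2.trans ?_
  rw [le_div_iff₀ (by positivity)]
  calc (P.card : ℝ) * (1 / (w:ℝ)) * (w * Real.log w) = P.card * Real.log w := by field_simp
    _ ≤ _ := h1

/-- the local estimate -/
lemma ev_small (r A : ℕ) : ∀ᶠ N : ℕ in atTop, ∀ D : ℕ, 0 < D → (D:ℝ) ≤ (Real.log N) ^ A →
    (r:ℝ) * (Real.log D / (wN N * Real.log (wN N))) ≤ 1 / 2 := by
  have h1 : Tendsto (fun N : ℕ => (r:ℝ) * (6 * A) / Real.log (wN N)) atTop (nhds 0) :=
    (tendsto_const_nhds).div_atTop
      (Real.tendsto_log_atTop.comp (tendsto_natCast_atTop_atTop.comp tendsto_wN))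
  have h2 : ∀ᶠ N : ℕ in atTop, (r:ℝ) * (6 * A) / Real.log (wN N) < 1 / 2 :=
    h1.eventually_lt_const (by norm_num)
  filter_upwards [h2, ev_w_ge 20, tendsto_loglogN.eventually_ge_atTop 0,
    tendsto_logN.eventually_gt_atTop 1] with N h3 hw h4 h5 D hD0 hD
  have hw0 : (20:ℝ) ≤ wN N := by exact_mod_cast hw
  have hlw : 0 < Real.log (wN N) := Real.log_pos (by linarith)
  have h6 : Real.log D ≤ A * Real.log (Real.log N) := by
    rw [← Real.log_pow]
    exact Real.log_le_log (by exact_mod_cast hD0) hD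
  have h7 := lt_w N
  have h8 : Real.log D ≤ 6 * A * wN N := by
    have h9 : Real.log (Real.log N) ≤ 6 * wN N := by linarith
    have hA : (0:ℝ) ≤ A := Nat.cast_nonneg _
    nlinarith
  have h9 : Real.log D / (wN N * Real.log (wN N)) ≤ 6 * A / Real.log (wN N) := by
    rw [div_le_div_iff₀ (by positivity) hlw]
    nlinarith
  have hr : (0:ℝ) ≤ r := Nat.cast_nonneg _
  calc (r:ℝ) * (Real.log D / (wN N * Real.log (wN N))) ≤ r * (6 * A / Real.log (wN N)) :=
        mul_le_mul_of_nonneg_left h9 hr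
    _ = (r:ℝ) * (6 * A) / Real.log (wN N) := by ring
    _ ≤ 1 / 2 := h3.le

/-- the product of the differences -/
def dif (H : Finset ℕ) : ℕ := ∏ e ∈ H, ∏ e' ∈ H.filter (fun e' => e < e'), (e' - e)

lemma dif_pos (H : Finset ℕ) : 0 < dif H := by
  unfold dif
  refine prod_pos fun e _ => prod_pos fun e' he' => ?_
  have := (mem_filter.1 he').2
  omega

lemma dif_le {H : Finset ℕ} {T : ℝ} (hT : 1 ≤ T) (hH : ∀ e ∈ H, (e:ℝ) ≤ T) :
    (dif H : ℝ) ≤ T ^ (H.card ^ 2) := by
  unfold dif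
  push_cast
  have h1 : ∀ e ∈ H, ∏ e' ∈ H.filter (fun e' => e < e'), ((e' - e : ℕ) : ℝ) ≤ T ^ H.card := by
    intro e he
    calc ∏ e' ∈ H.filter (fun e' => e < e'), ((e' - e : ℕ) : ℝ) ≤
        ∏ e' ∈ H.filter (fun e' => e < e'), T := by
          refine prod_le_prod (fun e' _ => Nat.cast_nonneg _) fun e' he' => ?_
          have h2 := hH e' (mem_filter.1 he').1
          have h3 : ((e' - e : ℕ) : ℝ) ≤ e' := by exact_mod_cast Nat.sub_le _ _
          linarith
      _ = T ^ (H.filter (fun e' => e < e')).card := by rw [prod_const]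
      _ ≤ T ^ H.card := pow_le_pow_right₀ hT (card_filter_le _ _)
  calc ∏ e ∈ H, ∏ e' ∈ H.filter (fun e' => e < e'), ((e' - e : ℕ) : ℝ) ≤ ∏ e ∈ H, T ^ H.card :=
        prod_le_prod (fun e _ => prod_nonneg fun e' _ => Nat.cast_nonneg _) h1
    _ = T ^ (H.card ^ 2) := by
        rw [prod_const, ← pow_mul, sq]

lemma dvd_dif {H : Finset ℕ} {e e' p : ℕ} (he : e ∈ H) (he' : e' ∈ H) (hne : e ≠ e')
    (h : e ≡ e' [MOD p]) : p ∣ dif H := by
  have key : ∀ u ∈ H, ∀ v ∈ H, u < v → u ≡ v [MOD p] → p ∣ dif H := by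
    intro u hu v hv huv hmod
    have h1 : p ∣ v - u := (Nat.modEq_iff_dvd' huv.le).1 hmod
    unfold dif
    refine h1.trans ?_
    have h2 : v - u ∣ ∏ e' ∈ H.filter (fun e' => u < e'), (e' - u) :=
      dvd_prod_of_mem (fun e' => e' - u) (mem_filter.2 ⟨hv, huv⟩)
    exact h2.trans (dvd_prod_of_mem (fun e => ∏ e' ∈ H.filter (fun e' => e < e'), (e' - e)) hu)
  rcases lt_or_gt_of_ne hne with h1 | h1
  · exact key e he e' he' h1 h
  · exact key e' he' e he h1 h.symm

lemma dvd_Wp {p w : ℕ} (hp : p.Prime) (h : p ≤ w) : p ∣ Wp w := by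
  unfold Wp
  apply dvd_prod_of_mem (fun p => p)
  unfold PPy
  rw [mem_filter, mem_range]
  exact ⟨by omega, hp⟩

lemma not_dvd_Wp {p w : ℕ} (hp : p.Prime) (h : w < p) : ¬ p ∣ Wp w := by
  intro hd
  unfold Wp at hd
  obtain ⟨q, hq, hpq⟩ := (Prime.dvd_finsetProd_iff hp.prime _).1 hd
  have h1 := (Nat.prime_dvd_prime_iff_eq hp (PPy_prime w q hq)).1 hpq
  unfold PPy at hq
  rw [mem_filter, mem_range] at hq
  omega

end Pool.Agent.HLE.May2

namespace Pool.Agent.HLE

open Finset Filter H34P Pool.Agent.HLT Pool.Agent.HL26 Pool.Agent.Maynard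

/-- from one class modulo `W` to one class modulo `Wp (wN N)` -/
theorem may_XS (r m A : ℕ) (hr : 100 ≤ r) (h1 : MayClass r m ((A + 1) * r ^ 2 + 1)) :
    MayXS r m A := by
  classical
  unfold MayXS
  unfold MayClass at h1
  filter_upwards [h1, ev_w_ge (max (PosProp.Main.K0k r) 20), ev_Wp_le, May2.ev_small r (A * r ^ 2),
    ev_pow_le_self A, tendsto_logN.eventually_ge_atTop 1]
    with N hM hw hWp hsm hpow hL H a hcard hH hco
  have hw20 : 20 ≤ wN N := (le_max_right _ _).trans hw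
  have hwK : PosProp.Main.K0k r ≤ wN N := (le_max_left _ _).trans hw
  obtain ⟨V, hV⟩ : ∃ V : ℕ, V = Wp (wN N) := ⟨_, rfl⟩
  rw [← hV] at hWp hco ⊢
  have hV0 : 0 < V := by rw [hV]; exact SelDAux.Wp_pos (wN N)
  obtain ⟨P, hP⟩ : ∃ P : Finset ℕ, P = (May2.dif H).primeFactors.filter (fun p => wN N < p) :=
    ⟨_, rfl⟩
  have hPp : ∀ p ∈ P, p.Prime := fun p hp => by
    rw [hP, mem_filter] at hp
    exact Nat.prime_of_mem_primeFactors hp.1
  have hPw : ∀ p ∈ P, wN N < p := fun p hp => by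
    rw [hP, mem_filter] at hp
    exact hp.2
  have hPV : ∀ p ∈ P, ¬ p ∣ V := fun p hp => by
    rw [hV]
    exact May2.not_dvd_Wp (hPp p hp) (hPw p hp)
  obtain ⟨D, hD⟩ : ∃ D : ℕ, D = ∏ p ∈ P, p := ⟨_, rfl⟩
  have hD0 : 0 < D := by
    rw [hD]
    exact Finset.prod_pos fun p hp => (hPp p hp).pos
  have hDdif : D ≤ May2.dif H := by
    apply Nat.le_of_dvd (May2.dif_pos H)
    rw [hD, hP]
    exact (prod_dvd_prod_of_subset _ _ _ (filter_subset _ _)).trans (Nat.prod_primeFactors_dvd _)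
  have hLA : (1:ℝ) ≤ (Real.log N) ^ A := one_le_pow₀ hL
  have hDlog : (D:ℝ) ≤ (Real.log N) ^ (A * r ^ 2) := by
    have h2 := May2.dif_le hLA hH
    rw [hcard, ← pow_mul] at h2
    exact le_trans (by exact_mod_cast hDdif) h2
  have hsum : (H.card : ℝ) * ∑ p ∈ P, 1 / (p:ℝ) ≤ 1 / 2 := by
    have h2 := May2.sum_inv_le (by omega) hPw
    rw [← hD] at h2
    rw [hcard]
    exact (mul_le_mul_of_nonneg_left h2 (Nat.cast_nonneg r)).trans (hsm D hD0 hDlog)
  have hgood := May2.card_good hPp hPV a hsum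
  rw [← hD] at hgood
  obtain ⟨Gd, hGd⟩ : ∃ Gd : Finset ℕ, Gd = (range D).filter (fun t => ∀ e ∈ H,
    (a + V * t + e).Coprime D) := ⟨_, rfl⟩
  rw [← hGd] at hgood
  obtain ⟨h, hh⟩ : ∃ h : Fin r → ℕ, h = fun i => H.orderEmbOfFin hcard i := ⟨_, rfl⟩
  have himg : Finset.image h Finset.univ = H := by
    rw [hh]
    exact Finset.image_orderEmbOfFin_univ H hcard
  have hinj : Function.Injective h := by
    rw [hh]
    exact (H.orderEmbOfFin hcard).injective
  have hmem : ∀ i, h i ∈ H := fun i => by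
    rw [← himg]
    exact mem_image_of_mem h (mem_univ i)
  have hW0 : 0 < V * D := Nat.mul_pos hV0 hD0
  have hWlog : ((V * D : ℕ) : ℝ) ≤ (Real.log N) ^ ((A + 1) * r ^ 2 + 1) := by
    have h2 : (V:ℝ) ≤ Real.log N := by
      refine hWp.trans ?_
      rw [Real.sqrt_le_left (by linarith)]
      nlinarith
    have h3 : (V:ℝ) * D ≤ Real.log N * (Real.log N) ^ (A * r ^ 2) :=
      mul_le_mul h2 hDlog (Nat.cast_nonneg _) (by linarith)
    push_cast
    calc (V:ℝ) * D ≤ Real.log N * (Real.log N) ^ (A * r ^ 2) := h3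
      _ = (Real.log N) ^ (A * r ^ 2 + 1) := by ring
      _ ≤ _ := pow_le_pow_right₀ hL (by
          have : A * r ^ 2 ≤ (A + 1) * r ^ 2 := Nat.mul_le_mul_right _ (by omega)
          omega)
  -- the sets
  obtain ⟨T, hT⟩ : ∃ T : ℕ → Finset ℕ, T = fun t => (Ioc N (2 * N)).filter (fun n =>
    n ≡ a + V * t [MOD V * D] ∧ (∀ i, PosProp.Rough (PosProp.Main.zz r N) (n + h i)) ∧
      m ≤ npr h n) := ⟨_, rfl⟩
  have hTt : ∀ t ∈ Gd, Real.exp (-(r:ℝ) ^ 11) *
      (((N:ℝ) / ((V * D : ℕ) : ℝ)) / (cW (V * D) * Real.log N) ^ r) ≤ ((T t).card : ℝ) := by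
    intro t ht
    rw [hGd, mem_filter] at ht
    have h2 := hM (V * D) hW0 hWlog (fun p hp hpK => by
        refine Dvd.dvd.mul_right ?_ D
        rw [hV]
        exact May2.dvd_Wp hp (by omega)) h (fun i => by
        have h3 := (hH _ (hmem i)).trans hpow
        exact_mod_cast h3) (fun p hp hpW i j hij hmod => by
        apply hpW
        have h3 := May2.dvd_dif (hmem i) (hmem j) (fun h4 => hij (hinj h4)) hmod
        by_cases h5 : p ≤ wN N
        · refine Dvd.dvd.mul_right ?_ D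
          rw [hV]
          exact May2.dvd_Wp hp h5
        · push Not at h5
          refine Dvd.dvd.mul_left ?_ V
          rw [hD]
          apply dvd_prod_of_mem (fun p => p)
          rw [hP, mem_filter]
          exact ⟨Nat.mem_primeFactors.2 ⟨hp, h3, (May2.dif_pos H).ne'⟩, h5⟩) (a + V * t)
        (fun i => by
          refine Nat.Coprime.mul_right ?_ (ht.2 _ (hmem i))
          have h3 := hco _ (hmem i)
          have e1 : a + V * t + h i = (a + h i) + V * t := by ring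
          rw [e1]
          exact (Nat.coprime_add_mul_left_left _ _ _).2 h3)
    rw [hT]
    exact h2
  -- the union
  have hdisj : ∀ t ∈ Gd, ∀ t' ∈ Gd, t ≠ t' → Disjoint (T t) (T t') := by
    intro t ht t' ht' hne
    rw [hGd, mem_filter, mem_range] at ht ht'
    rw [disjoint_left]
    intro n hn hn'
    rw [hT] at hn hn'
    have h2 := (mem_filter.1 hn).2.1
    have h3 := (mem_filter.1 hn').2.1
    have h4 : V * t ≡ V * t' [MOD V * D] := Nat.ModEq.add_left_cancel' a (h2.symm.trans h3)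
    have h5 : t ≡ t' [MOD D] := Nat.ModEq.mul_left_cancel' hV0.ne' h4
    apply hne
    have h6 := h5
    unfold Nat.ModEq at h6
    rwa [Nat.mod_eq_of_lt ht.1, Nat.mod_eq_of_lt ht'.1] at h6
  have hsub : Gd.biUnion T ⊆ (XS N (wN N) a).filter (fun n =>
      (∀ e ∈ H, PosProp.Rough (PosProp.Main.zz r N) (n + e)) ∧
        m ≤ (H.filter (fun e => (n + e).Prime)).card) := by
    intro n hn
    rw [mem_biUnion] at hn
    obtain ⟨t, ht, hn⟩ := hn
    rw [hT] at hn
    obtain ⟨h2, h3, h4, h5⟩ := mem_filter.1 hn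
    rw [mem_filter]
    unfold XS
    rw [mem_filter]
    refine ⟨⟨h2, ?_⟩, ?_, ?_⟩
    · rw [← hV]
      have h6 : n ≡ a + V * t [MOD V] := h3.of_mul_right D
      refine h6.trans ?_
      have h7 : V * t ≡ 0 [MOD V] := Nat.modEq_zero_iff_dvd.2 (dvd_mul_right V t)
      exact Nat.ModEq.add_left a h7
    · intro e he
      rw [← himg] at he
      obtain ⟨i, _, rfl⟩ := mem_image.1 he
      exact h4 i
    · refine h5.trans ?_
      unfold npr
      have h6 : ((univ.filter (fun i => (n + h i).Prime)).image h) ⊆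
          H.filter (fun e => (n + e).Prime) := by
        intro e he
        obtain ⟨i, hi, rfl⟩ := mem_image.1 he
        rw [mem_filter]
        exact ⟨hmem i, (mem_filter.1 hi).2⟩
      have h7 := card_le_card h6
      rw [card_image_of_injective _ hinj] at h7
      exact h7
  have hcount : ∑ t ∈ Gd, ((T t).card : ℝ) ≤ (((XS N (wN N) a).filter (fun n =>
      (∀ e ∈ H, PosProp.Rough (PosProp.Main.zz r N) (n + e)) ∧
        m ≤ (H.filter (fun e => (n + e).Prime)).card)).card : ℝ) := by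
    have h2 := card_le_card hsub
    rw [card_biUnion hdisj] at h2
    exact_mod_cast h2
  refine le_trans ?_ hcount
  refine le_trans ?_ (sum_le_sum hTt)
  rw [sum_const, nsmul_eq_mul]
  -- the arithmetic
  have hV' : (0:ℝ) < V := by exact_mod_cast hV0
  have hD' : (0:ℝ) < D := by exact_mod_cast hD0
  have hL0 : 0 < Real.log N := by linarith
  have hcV : 0 < cW V := cW_pos hV0
  have hcVD : cW (V * D) ≤ cW V := by
    rw [hD, PosProp.WB.cW_mul_primes hV0 P (fun p hp => ⟨hPp p hp, hPV p hp⟩)]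
    refine mul_le_of_le_one_right hcV.le ?_
    refine prod_le_one (fun p hp => ?_) (fun p hp => ?_)
    · have h2 : (1:ℝ) ≤ p := by exact_mod_cast (hPp p hp).one_le
      have h3 : 1 / (p:ℝ) ≤ 1 := by
        rw [div_le_one (by linarith)]
        exact h2
      linarith
    · have h2 : (0:ℝ) ≤ 1 / (p:ℝ) := by positivity
      linarith
  have hcVD0 : 0 < cW (V * D) := cW_pos hW0
  have hpw : (cW (V * D) * Real.log N) ^ r ≤ (cW V * Real.log N) ^ r :=
    pow_le_pow_left₀ (by positivity) (mul_le_mul_of_nonneg_right hcVD hL0.le) r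
  have hN0 : (0:ℝ) ≤ N := Nat.cast_nonneg N
  calc Real.exp (-(r:ℝ) ^ 11) / 2 * (((N:ℝ) / V) / (cW V * Real.log N) ^ r) =
        ((D:ℝ) / 2) * (Real.exp (-(r:ℝ) ^ 11) *
          (((N:ℝ) / ((V * D : ℕ) : ℝ)) / (cW V * Real.log N) ^ r)) := by
        push_cast
        field_simp
    _ ≤ (Gd.card : ℝ) * (Real.exp (-(r:ℝ) ^ 11) *
          (((N:ℝ) / ((V * D : ℕ) : ℝ)) / (cW V * Real.log N) ^ r)) :=
        mul_le_mul_of_nonneg_right hgood (by positivity)
    _ ≤ _ := by
        refine mul_le_mul_of_nonneg_left ?_ (Nat.cast_nonneg _)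
        refine mul_le_mul_of_nonneg_left ?_ (Real.exp_pos _).le
        exact div_le_div_of_nonneg_left (by positivity) (by positivity) hpw

end Pool.Agent.HLE
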