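import Mathlib
import Pool.Agent.HLE.MayDefs

/-!
Rough numbers in one class modulo `Wp (wN N)`: the upper bound for a tuple and the second moment.
-/

set_option autoImplicit false

namespace Pool.Agent.HLE

open Finset Filter H34P Pool.Agent.HLT Pool.Agent.HL26 Pool.Agent.Maynard Pool.Agent.PosProp
  Pool.Agent.PosProp.Main

namespace May3aux

lemma MM_pos {k : ℕ} (hk : 100 ≤ k) : 0 < Pool.Agent.PosProp.Main.MM k := by
  unfold Pool.Agent.PosProp.Main.MM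
  have h1 := hT_ge_one (T := k) (by omega)
  have h2 : (100:ℝ) ≤ k := by exact_mod_cast hk
  have h3 : 0 < 8 * (k:ℝ) * hT k := by positivity
  exact Nat.ceil_pos.mpr h3

lemma ze_pos {k : ℕ} (hk : 100 ≤ k) : 0 < ze k := by
  unfold ze
  have h1 : (0:ℝ) < Pool.Agent.PosProp.Main.MM k := by exact_mod_cast MM_pos hk
  have h2 : (100:ℝ) ≤ k := by exact_mod_cast hk
  positivity

/-- Selberg's weight is `1` at rough numbers -/
lemma LamS_rough {w R z m : ℕ} (hR : 1 ≤ R) (hRz : R ≤ z) (hm : Pool.Agent.PosProp.Rough z m) : LamS w R m = 1 := by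
  unfold LamS
  have : (Dv w R).filter (fun q => q ∣ m) = {1} := by
    ext q
    rw [Finset.mem_filter, Finset.mem_singleton]
    constructor
    · rintro ⟨h1, h2⟩
      by_contra hq
      have h3 := (U3aux.mem_Dv.mp h1).2
      have hq0 : 0 < q := Nat.pos_of_ne_zero (U3aux.Dv_sq h1).ne_zero
      exact hm q.minFac (Nat.minFac_prime hq) ((Nat.minFac_le hq0).trans (h3.trans hRz))
        ((Nat.minFac_dvd q).trans h2)
    · rintro rfl
      exact ⟨U3aux.one_mem_Dv hR, one_dvd _⟩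
  rw [this, Finset.sum_singleton, lamS_one w R hR]

/-- the binomial coefficient, squared -/
lemma choose_sq (r Y : ℕ) : ((Y.choose r : ℕ) : ℝ) ^ 2 ≤
    (((4 * r).choose r : ℕ) + 4 ^ r * ((2 * r).factorial : ℝ)) *
      ((Y.choose r : ℝ) + (Y.choose (2 * r) : ℝ)) := by
  have hA : (0:ℝ) ≤ (((4 * r).choose r : ℕ) : ℝ) := by positivity
  have hB : (0:ℝ) ≤ 4 ^ r * ((2 * r).factorial : ℝ) := by positivity
  have hC : (0:ℝ) ≤ (Y.choose (2 * r) : ℝ) := by positivity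
  have hD : (0:ℝ) ≤ (Y.choose r : ℝ) := by positivity
  by_cases hY : Y ≤ 4 * r
  · have h2 : (Y.choose r : ℝ) ≤ (((4 * r).choose r : ℕ) : ℝ) := by
      exact_mod_cast Nat.choose_le_choose r hY
    have h3 : ((Y.choose r : ℕ) : ℝ) ^ 2 ≤ (((4 * r).choose r : ℕ) : ℝ) * (Y.choose r : ℝ) := by
      rw [sq]
      exact mul_le_mul_of_nonneg_right h2 hD
    nlinarith [mul_nonneg hA hC, mul_nonneg hB hC, mul_nonneg hB hD]
  · push Not at hY
    have h1 : ((Y.choose r : ℕ) : ℝ) ^ 2 ≤ (Y:ℝ) ^ (2 * r) := by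
      have h2 : Y.choose r ≤ Y ^ r := Nat.choose_le_pow Y r
      have h3 : ((Y.choose r : ℕ) : ℝ) ≤ (Y:ℝ) ^ r := by exact_mod_cast h2
      calc ((Y.choose r : ℕ) : ℝ) ^ 2 ≤ ((Y:ℝ) ^ r) ^ 2 := pow_le_pow_left₀ (by positivity) h3 2
        _ = (Y:ℝ) ^ (2 * r) := by rw [← pow_mul, mul_comm]
    refine h1.trans ?_
    have h2 := Nat.pow_sub_le_descFactorial Y (2 * r)
    rw [Nat.descFactorial_eq_factorial_mul_choose] at h2
    have h3 : (((Y + 1 - 2 * r : ℕ) : ℝ)) ^ (2 * r) ≤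
        ((2 * r).factorial : ℝ) * (Y.choose (2 * r) : ℝ) := by exact_mod_cast h2
    have h4 : (Y:ℝ) ≤ 2 * ((Y + 1 - 2 * r : ℕ) : ℝ) := by
      exact_mod_cast (by omega : Y ≤ 2 * (Y + 1 - 2 * r))
    have h5 : (Y:ℝ) ^ (2 * r) ≤ 4 ^ r * (((Y + 1 - 2 * r : ℕ) : ℝ)) ^ (2 * r) := by
      calc (Y:ℝ) ^ (2 * r) ≤ (2 * ((Y + 1 - 2 * r : ℕ) : ℝ)) ^ (2 * r) :=
            pow_le_pow_left₀ (by positivity) h4 _
        _ = 4 ^ r * (((Y + 1 - 2 * r : ℕ) : ℝ)) ^ (2 * r) := by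
            rw [mul_pow, pow_mul (2:ℝ) 2 r]
            norm_num
    have h6 : (Y:ℝ) ^ (2 * r) ≤ 4 ^ r * (((2 * r).factorial : ℝ) * (Y.choose (2 * r) : ℝ)) :=
      h5.trans (mul_le_mul_of_nonneg_left h3 (by positivity))
    nlinarith [mul_nonneg hA hC, mul_nonneg hA hD, mul_nonneg hB hD]

end May3aux

open Classical in
theorem rough_XS (r j : ℕ) (hr : 100 ≤ r) : ∃ C : ℝ, 0 < C ∧ ∀ A : ℕ, ∀ᶠ N : ℕ in atTop,
    ∀ (J : Finset ℕ) (a : ℕ), J.card = j → (∀ e ∈ J, (e:ℝ) ≤ (Real.log N) ^ A) →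
    (((XS N (wN N) a).filter (fun n => ∀ e ∈ J, Pool.Agent.PosProp.Rough (Pool.Agent.PosProp.Main.zz r N) (n + e))).card : ℝ) ≤
      C * (((N:ℝ) / Wp (wN N)) / (cW (Wp (wN N)) * Real.log N) ^ j) := by
  have hze := May3aux.ze_pos hr
  obtain ⟨δ, hδ0, hδ1, hδ2⟩ : ∃ δ : ℝ, 0 < δ ∧ δ ≤ ze r ∧ δ * (8 * j + 8) ≤ 1 := by
    refine ⟨min (ze r) (1 / (8 * j + 8)), by positivity, min_le_left _ _, ?_⟩
    have h := min_le_right (ze r) (1 / (8 * (j:ℝ) + 8))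
    rwa [le_div_iff₀ (by positivity)] at h
  obtain ⟨C, hC, hloc⟩ := ev_locOK (j + 2)
  obtain ⟨C0, hC0, hSG⟩ := ev_SG_le
  refine ⟨3 * (2 / δ) ^ j, by positivity, fun A => ?_⟩
  have hj0 : (0:ℝ) ≤ j := Nat.cast_nonneg j
  have hδj : 2 * δ * j < 1 := by nlinarith
  filter_upwards [hloc 1 one_pos A, hSG, ev_SG_ge δ (δ / 2) hδ0 (by positivity),
    ev_w_le_pow δ hδ0, ev_err C0 j (2 * δ * j) 1 hC0.le hδj one_pos,
    tendsto_logN.eventually_ge_atTop 1, eventually_ge_atTop 3] with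
    N h1 h2 h3 h5 h6 h9 h10 J a hJ hJH
  have hc1 := H34P.cW_le_one (wN N)
  have hc0 := cW_pos' (wN N)
  have hL0 : 0 < Real.log N := by linarith
  have hΛ0 : 0 < cW (Wp (wN N)) * Real.log N := mul_pos hc0 hL0
  have hΛL : cW (Wp (wN N)) * Real.log N ≤ Real.log N := mul_le_of_le_one_left hL0.le hc1
  have hN1 : (1:ℝ) ≤ N := by exact_mod_cast (by omega : 1 ≤ N)
  have hN0 : (0:ℝ) < N := by linarith
  have hW0 : (0:ℝ) < Wp (wN N) := by exact_mod_cast SelDAux.Wp_pos (wN N)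
  have ht0 : (0:ℝ) < (N:ℝ) / Wp (wN N) := by positivity
  have hx : (1:ℝ) ≤ (N:ℝ) ^ δ := Real.one_le_rpow hN1 hδ0.le
  have hR01 : 1 ≤ ⌊(N:ℝ) ^ δ⌋₊ := Nat.le_floor (by exact_mod_cast hx)
  have hRz : ⌊(N:ℝ) ^ δ⌋₊ ≤ Pool.Agent.PosProp.Main.zz r N :=
    Nat.floor_mono (Real.rpow_le_rpow_of_exponent_le hN1 hδ1)
  have hδle : δ ≤ 1 := by nlinarith
  have hR0le : ((⌊(N:ℝ) ^ δ⌋₊ : ℕ) : ℝ) ≤ (N:ℝ) ^ δ := Nat.floor_le (by positivity)
  have hRN : ⌊(N:ℝ) ^ δ⌋₊ ≤ N := by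
    have : ((⌊(N:ℝ) ^ δ⌋₊ : ℕ) : ℝ) ≤ N := hR0le.trans (by
      calc (N:ℝ) ^ δ ≤ (N:ℝ) ^ (1:ℝ) := Real.rpow_le_rpow_of_exponent_le hN1 hδle
        _ = N := Real.rpow_one _)
    exact_mod_cast this
  have hSGle : SG (wN N) ⌊(N:ℝ) ^ δ⌋₊ ≤ C0 * Real.log N :=
    (h2 _ h5 hRN).trans (mul_le_mul_of_nonneg_left hΛL hC0.le)
  have hSGlow : δ / 2 * (cW (Wp (wN N)) * Real.log N) ≤ SG (wN N) ⌊(N:ℝ) ^ δ⌋₊ := by
    have : δ - δ / 2 = δ / 2 := by ring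
    rw [this] at h3
    exact h3
  have hG0 := SG_pos (wN N) _ hR01
  -- the window
  have hLA : 1 ≤ Real.log N ^ A := one_le_pow₀ h9
  have hH1 : 1 ≤ ⌊Real.log N ^ A⌋₊ := Nat.le_floor (by simpa using hLA)
  have hHle : ((⌊Real.log N ^ A⌋₊ : ℕ) : ℝ) ≤ Real.log N ^ A := Nat.floor_le (by positivity)
  have hJH' : ∀ e ∈ J, e ≤ ⌊Real.log N ^ A⌋₊ := fun e he => Nat.le_floor (hJH e he)
  have hmean := mu_mean (N := N) (a := a) (h1 _ hH1 hHle) hR01 J (by omega) hJH'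
  rw [hJ] at hmean
  -- the error
  have herr : (SG (wN N) ⌊(N:ℝ) ^ δ⌋₊ * ((⌊(N:ℝ) ^ δ⌋₊ : ℕ) : ℝ) ^ 2) ^ j ≤
      (N:ℝ) / Wp (wN N) := by
    rw [one_mul] at h6
    refine le_trans ?_ h6
    have h7 := rpow_arith1 (ρ := δ) hN0 hSGle (by positivity) (Nat.cast_nonneg _) hR0le
    have h8 := pow_le_pow_left₀ (mul_nonneg hG0.le (sq_nonneg _)) h7 j
    refine h8.trans (le_of_eq ?_)
    rw [mul_pow, ← Real.rpow_natCast ((N:ℝ) ^ (2 * δ)), ← Real.rpow_mul hN0.le]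
  -- the count
  have hcount : (((XS N (wN N) a).filter (fun n => ∀ e ∈ J, Pool.Agent.PosProp.Rough (Pool.Agent.PosProp.Main.zz r N) (n + e))).card : ℝ) *
      SG (wN N) ⌊(N:ℝ) ^ δ⌋₊ ^ j ≤ 3 * ((N:ℝ) / Wp (wN N)) := by
    have e1 : ∑ n ∈ (XS N (wN N) a).filter (fun n => ∀ e ∈ J, Pool.Agent.PosProp.Rough (Pool.Agent.PosProp.Main.zz r N) (n + e)),
        mu (wN N) ⌊(N:ℝ) ^ δ⌋₊ J n =
        (((XS N (wN N) a).filter (fun n => ∀ e ∈ J, Pool.Agent.PosProp.Rough (Pool.Agent.PosProp.Main.zz r N) (n + e))).card : ℝ) *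
      SG (wN N) ⌊(N:ℝ) ^ δ⌋₊ ^ j := by
      rw [← nsmul_eq_mul, ← sum_const]
      refine sum_congr rfl fun n hn => ?_
      have hn' := (mem_filter.1 hn).2
      unfold mu
      rw [← hJ, ← prod_const]
      refine prod_congr rfl fun e he => ?_
      rw [May3aux.LamS_rough hR01 hRz (hn' e he), one_pow, mul_one]
    rw [← e1]
    have e2 : ∑ n ∈ (XS N (wN N) a).filter (fun n => ∀ e ∈ J, Pool.Agent.PosProp.Rough (Pool.Agent.PosProp.Main.zz r N) (n + e)),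
        mu (wN N) ⌊(N:ℝ) ^ δ⌋₊ J n ≤ ∑ n ∈ XS N (wN N) a, mu (wN N) ⌊(N:ℝ) ^ δ⌋₊ J n :=
      sum_le_sum_of_subset_of_nonneg (filter_subset _ _) fun n _ _ => mu_nonneg hR01 J n
    linarith
  have hpow : (δ / 2) ^ j * (cW (Wp (wN N)) * Real.log N) ^ j ≤ SG (wN N) ⌊(N:ℝ) ^ δ⌋₊ ^ j := by
    rw [← mul_pow]
    exact pow_le_pow_left₀ (by positivity) hSGlow j
  have hΛj : 0 < (cW (Wp (wN N)) * Real.log N) ^ j := by positivity
  have h11 := (mul_le_mul_of_nonneg_left hpow (Nat.cast_nonneg (α := ℝ)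
    ((XS N (wN N) a).filter (fun n => ∀ e ∈ J, Pool.Agent.PosProp.Rough (Pool.Agent.PosProp.Main.zz r N) (n + e))).card)).trans hcount
  have hinv : (2 / δ) ^ j = ((δ / 2) ^ j)⁻¹ := by
    rw [← inv_pow, inv_div]
  have hP0 : (0:ℝ) < (δ / 2) ^ j := by positivity
  rw [hinv]
  have e3 : 3 * ((δ / 2) ^ j)⁻¹ * ((N:ℝ) / Wp (wN N) / (cW (Wp (wN N)) * Real.log N) ^ j) =
      3 * ((N:ℝ) / Wp (wN N)) / ((δ / 2) ^ j * (cW (Wp (wN N)) * Real.log N) ^ j) := by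
    field_simp
  rw [e3, le_div_iff₀ (mul_pos hP0 hΛj)]
  exact h11

namespace May3aux

/-- an element with a rough translate is compatible with the class -/
lemma coprime_of_rough {N w z n a e : ℕ} (hwz : w ≤ z) (hn : n ∈ XS N w a) (h : Pool.Agent.PosProp.Rough z (n + e)) :
    (a + e).Coprime (Wp w) := by
  have hna : n ≡ a [MOD Wp w] := (mem_filter.1 hn).2
  unfold Wp
  refine Nat.Coprime.prod_right fun p hp => ?_
  have hpp := PPy_prime w p hp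
  have hpw : p ≤ w := by
    unfold PPy at hp
    rw [mem_filter, mem_range] at hp
    omega
  rw [Nat.coprime_comm, hpp.coprime_iff_not_dvd]
  intro hdvd
  have hpW : p ∣ Wp w := by
    unfold Wp
    exact dvd_prod_of_mem _ hp
  have h1 : n + e ≡ a + e [MOD p] := (hna.of_dvd hpW).add_right e
  exact h p hpp (hpw.trans hwz) ((h1.dvd_iff dvd_rfl).2 hdvd)

end May3aux

open Classical in
/-- the binomial moments of the number of rough elements -/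
theorem rough_choose (r j : ℕ) (hr : 100 ≤ r) : ∃ C : ℝ, 0 < C ∧ ∀ A : ℕ, ∀ᶠ N : ℕ in atTop,
    ∀ (B : Finset ℕ) (a : ℕ), (∀ b ∈ B, (b:ℝ) ≤ (Real.log N) ^ A) →
    ∑ n ∈ XS N (wN N) a, ((YY r N B n).choose j : ℝ) ≤
      C * ((N:ℝ) / Wp (wN N)) *
        (((Ba (wN N) B a).card : ℝ) / (cW (Wp (wN N)) * Real.log N)) ^ j := by
  have hze := May3aux.ze_pos hr
  obtain ⟨C2, hC2, hXS⟩ := rough_XS r j hr
  refine ⟨C2, hC2, fun A => ?_⟩
  filter_upwards [hXS A, ev_w_le_pow (ze r) hze, tendsto_logN.eventually_ge_atTop 1,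
    eventually_ge_atTop 3] with N h1 hwz hL hN B a hB
  have hc0 := cW_pos' (wN N)
  have hL0 : 0 < Real.log N := by linarith
  have hΛ0 : 0 < cW (Wp (wN N)) * Real.log N := mul_pos hc0 hL0
  have hN0 : (0:ℝ) < N := by exact_mod_cast (by omega : 0 < N)
  have hW0 : (0:ℝ) < Wp (wN N) := by exact_mod_cast SelDAux.Wp_pos (wN N)
  obtain ⟨t, htd⟩ : ∃ t : ℝ, t = (N:ℝ) / Wp (wN N) := ⟨_, rfl⟩
  have ht0 : 0 < t := by
    rw [htd]
    positivity
  rw [← htd]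
  have e1 := sum_choose_eq (XS N (wN N) a) B
    (fun n b => Pool.Agent.PosProp.Rough (Pool.Agent.PosProp.Main.zz r N) (n + b)) j
  have e2 : ∑ n ∈ XS N (wN N) a, ((YY r N B n).choose j : ℝ) =
      ∑ E ∈ B.powersetCard j, (((XS N (wN N) a).filter (fun n => ∀ e ∈ E,
        Pool.Agent.PosProp.Rough (Pool.Agent.PosProp.Main.zz r N) (n + e))).card : ℝ) := by
    unfold YY
    exact_mod_cast e1
  have e3 : ∑ E ∈ (Ba (wN N) B a).powersetCard j, (((XS N (wN N) a).filter (fun n => ∀ e ∈ E,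
        Pool.Agent.PosProp.Rough (Pool.Agent.PosProp.Main.zz r N) (n + e))).card : ℝ) =
      ∑ E ∈ B.powersetCard j, (((XS N (wN N) a).filter (fun n => ∀ e ∈ E,
        Pool.Agent.PosProp.Rough (Pool.Agent.PosProp.Main.zz r N) (n + e))).card : ℝ) := by
    refine sum_subset (powersetCard_mono (filter_subset _ _)) fun E hE hE' => ?_
    rw [mem_powersetCard] at hE
    have h0 : (XS N (wN N) a).filter (fun n => ∀ e ∈ E,
        Pool.Agent.PosProp.Rough (Pool.Agent.PosProp.Main.zz r N) (n + e)) = ∅ := by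
      rw [filter_eq_empty_iff]
      intro n hn hall
      refine hE' (mem_powersetCard.2 ⟨fun e he => ?_, hE.2⟩)
      exact mem_filter.2 ⟨hE.1 he, May3aux.coprime_of_rough hwz hn (hall e he)⟩
    rw [h0, card_empty, Nat.cast_zero]
  rw [e2, ← e3]
  have h2 : ∀ E ∈ (Ba (wN N) B a).powersetCard j, (((XS N (wN N) a).filter (fun n => ∀ e ∈ E,
        Pool.Agent.PosProp.Rough (Pool.Agent.PosProp.Main.zz r N) (n + e))).card : ℝ) ≤
        C2 * (t / (cW (Wp (wN N)) * Real.log N) ^ j) := by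
    intro E hE
    rw [mem_powersetCard] at hE
    rw [htd]
    exact h1 E a hE.2 fun e he => hB e ((filter_subset _ _) (hE.1 he))
  refine (sum_le_sum h2).trans ?_
  rw [sum_const, nsmul_eq_mul, card_powersetCard]
  have h3 : (((Ba (wN N) B a).card.choose j : ℕ) : ℝ) ≤ ((Ba (wN N) B a).card : ℝ) ^ j := by
    exact_mod_cast Nat.choose_le_pow _ _
  refine (mul_le_mul_of_nonneg_right h3 (by positivity)).trans (le_of_eq ?_)
  rw [div_pow]
  ring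

open Classical in
/-- second moment, sharp for few elements -/
theorem rough_momentU (r : ℕ) (hr : 100 ≤ r) : ∃ C : ℝ, 0 < C ∧ ∀ A : ℕ, ∀ᶠ N : ℕ in atTop,
    ∀ (B : Finset ℕ) (a : ℕ), (∀ b ∈ B, (b:ℝ) ≤ (Real.log N) ^ A) →
    ∑ n ∈ XS N (wN N) a, ((YY r N B n).choose r : ℝ) ^ 2 ≤
      C * ((N:ℝ) / Wp (wN N)) * ((((Ba (wN N) B a).card : ℝ) / (cW (Wp (wN N)) * Real.log N)) ^ r +
        (((Ba (wN N) B a).card : ℝ) / (cW (Wp (wN N)) * Real.log N)) ^ (2 * r)) := by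
  obtain ⟨C1, hC1, hm1⟩ := rough_choose r r hr
  obtain ⟨C2, hC2, hm2⟩ := rough_choose r (2 * r) hr
  obtain ⟨K, hKd⟩ : ∃ K : ℝ, K = (((4 * r).choose r : ℕ) + 4 ^ r * ((2 * r).factorial : ℝ)) :=
    ⟨_, rfl⟩
  have hK0 : 0 < K := by
    rw [hKd]
    have : (0:ℝ) < ((2 * r).factorial : ℝ) := by exact_mod_cast Nat.factorial_pos _
    positivity
  refine ⟨K * (C1 + C2), by positivity, fun A => ?_⟩
  filter_upwards [hm1 A, hm2 A, tendsto_logN.eventually_ge_atTop 1, eventually_ge_atTop 3]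
    with N h1 h2 hL hN B a hB
  have hc0 := cW_pos' (wN N)
  have hL0 : 0 < Real.log N := by linarith
  have hΛ0 : 0 < cW (Wp (wN N)) * Real.log N := mul_pos hc0 hL0
  have hN0 : (0:ℝ) < N := by exact_mod_cast (by omega : 0 < N)
  have hW0 : (0:ℝ) < Wp (wN N) := by exact_mod_cast SelDAux.Wp_pos (wN N)
  have h1' := h1 B a hB
  have h2' := h2 B a hB
  obtain ⟨t, htd⟩ : ∃ t : ℝ, t = (N:ℝ) / Wp (wN N) := ⟨_, rfl⟩
  have ht0 : 0 < t := by
    rw [htd]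
    positivity
  obtain ⟨lam, hlam⟩ : ∃ lam : ℝ,
      lam = ((Ba (wN N) B a).card : ℝ) / (cW (Wp (wN N)) * Real.log N) := ⟨_, rfl⟩
  have hlam0 : 0 ≤ lam := by
    rw [hlam]
    positivity
  rw [← htd, ← hlam] at h1' h2' ⊢
  have h4 : ∑ n ∈ XS N (wN N) a, ((YY r N B n).choose r : ℝ) ^ 2 ≤
      ∑ n ∈ XS N (wN N) a,
        K * (((YY r N B n).choose r : ℝ) + ((YY r N B n).choose (2 * r) : ℝ)) := by
    refine sum_le_sum fun n _ => ?_
    rw [hKd]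
    exact May3aux.choose_sq r _
  refine h4.trans ?_
  rw [← mul_sum, sum_add_distrib]
  have h5 : C1 * t * lam ^ r ≤ C1 * t * (lam ^ r + lam ^ (2 * r)) :=
    mul_le_mul_of_nonneg_left (by
      have := pow_nonneg hlam0 (2 * r)
      linarith) (by positivity)
  have h6 : C2 * t * lam ^ (2 * r) ≤ C2 * t * (lam ^ r + lam ^ (2 * r)) :=
    mul_le_mul_of_nonneg_left (by
      have := pow_nonneg hlam0 r
      linarith) (by positivity)
  have h7 : ∑ n ∈ XS N (wN N) a, ((YY r N B n).choose r : ℝ) +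
      ∑ n ∈ XS N (wN N) a, ((YY r N B n).choose (2 * r) : ℝ) ≤
      C1 * t * (lam ^ r + lam ^ (2 * r)) + C2 * t * (lam ^ r + lam ^ (2 * r)) := by linarith
  refine (mul_le_mul_of_nonneg_left h7 hK0.le).trans (le_of_eq ?_)
  ring

open Classical in
theorem rough_moment (r : ℕ) (hr : 100 ≤ r) : ∃ C : ℝ, 0 < C ∧ ∀ A : ℕ, ∀ᶠ N : ℕ in atTop,
    ∀ (B : Finset ℕ) (a : ℕ), (∀ b ∈ B, (b:ℝ) ≤ (Real.log N) ^ A) →
    ∑ n ∈ XS N (wN N) a, ((YY r N B n).choose r : ℝ) ^ 2 ≤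
      C * ((N:ℝ) / Wp (wN N)) *
        (1 + (Ba (wN N) B a).card / (cW (Wp (wN N)) * Real.log N)) ^ (2 * r) := by
  obtain ⟨C, hC, hm⟩ := rough_momentU r hr
  refine ⟨2 * C, by positivity, fun A => ?_⟩
  filter_upwards [hm A, tendsto_logN.eventually_ge_atTop 1, eventually_ge_atTop 3]
    with N h1 hL hN B a hB
  have hc0 := cW_pos' (wN N)
  have hL0 : 0 < Real.log N := by linarith
  have hΛ0 : 0 < cW (Wp (wN N)) * Real.log N := mul_pos hc0 hL0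
  have hN0 : (0:ℝ) < N := by exact_mod_cast (by omega : 0 < N)
  have hW0 : (0:ℝ) < Wp (wN N) := by exact_mod_cast SelDAux.Wp_pos (wN N)
  refine (h1 B a hB).trans ?_
  obtain ⟨lam, hlam⟩ : ∃ lam : ℝ,
      lam = ((Ba (wN N) B a).card : ℝ) / (cW (Wp (wN N)) * Real.log N) := ⟨_, rfl⟩
  have hlam0 : 0 ≤ lam := by
    rw [hlam]
    positivity
  rw [← hlam]
  have h5 : lam ^ r ≤ (1 + lam) ^ (2 * r) :=
    (pow_le_pow_left₀ hlam0 (by linarith) r).trans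
      (pow_le_pow_right₀ (by linarith) (by omega))
  have h6 : lam ^ (2 * r) ≤ (1 + lam) ^ (2 * r) := pow_le_pow_left₀ hlam0 (by linarith) _
  have h7 : 0 ≤ C * ((N:ℝ) / Wp (wN N)) := by positivity
  calc C * ((N:ℝ) / Wp (wN N)) * (lam ^ r + lam ^ (2 * r)) ≤
        C * ((N:ℝ) / Wp (wN N)) * (2 * (1 + lam) ^ (2 * r)) :=
        mul_le_mul_of_nonneg_left (by linarith) h7
    _ = 2 * C * ((N:ℝ) / Wp (wN N)) * (1 + lam) ^ (2 * r) := by ring

end Pool.Agent.HLE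

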