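import Mathlib
import Pool.Agent.HLE.MayDefs

/-!
Small sets of shifts: from the classes to the block.
-/

set_option autoImplicit false

namespace Pool.Agent.HLE

open Finset Filter H34P Pool.Agent.HLT Pool.Agent.HL26 Pool.Agent.Maynard

/-- the lower bound in the classes which contain enough elements of the set -/
def ClassSmall (k : ℕ) (η : ℝ) : Prop :=
  ∃ c : ℝ, 0 < c ∧ ∀ A : ℕ, ∀ᶠ N : ℕ in atTop, ∀ (B : Finset ℕ) (a : ℕ),
    (∀ b ∈ B, (b:ℝ) ≤ (Real.log N) ^ A) →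
    η * (cW (Wp (wN N)) * Real.log N) ≤ ((Ba (wN N) B a).card : ℝ) →
    c * (((N:ℝ) / Wp (wN N)) *
        (((Ba (wN N) B a).card : ℝ) / (cW (Wp (wN N)) * Real.log N)) ^ (k + 1)) ≤
      ∑ n ∈ XS N (wN N) a, ((XX B n).choose (k + 1) : ℝ)

/-- the terms which are much smaller than the mean carry at most half of the power sum -/
lemma half_pow_sum (k : ℕ) (s : Finset ℕ) (y : ℕ → ℝ) (hy : ∀ a, 0 ≤ y a) {η : ℝ} (hη : 0 < η)
    (hm : (s.card : ℝ) * η ≤ ∑ a ∈ s, y a) :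
    (1 / 2) * ∑ a ∈ s, y a ^ (k + 1) ≤ ∑ a ∈ s.filter (fun a => η / 2 ≤ y a), y a ^ (k + 1) := by
  rcases s.eq_empty_or_nonempty with h0 | h0
  · subst h0
    simp
  have hs : (0:ℝ) < s.card := by exact_mod_cast Finset.card_pos.2 h0
  have h1 : (∑ a ∈ s, y a) ^ (k + 1) ≤ (s.card : ℝ) ^ k * ∑ a ∈ s, y a ^ (k + 1) :=
    pow_sum_le_card_mul_sum_pow (fun i _ => hy i) k
  have h2 : (s.card : ℝ) * η ^ (k + 1) ≤ ∑ a ∈ s, y a ^ (k + 1) := by
    have h3 : ((s.card : ℝ) * η) ^ (k + 1) ≤ (∑ a ∈ s, y a) ^ (k + 1) :=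
      pow_le_pow_left₀ (by positivity) hm _
    have h4 : (s.card : ℝ) ^ k * ((s.card : ℝ) * η ^ (k + 1)) ≤
        (s.card : ℝ) ^ k * ∑ a ∈ s, y a ^ (k + 1) := by
      refine le_trans (le_of_eq ?_) (h3.trans h1)
      rw [mul_pow, pow_succ (s.card : ℝ)]
      ring
    exact le_of_mul_le_mul_left h4 (by positivity)
  have h3 := sum_filter_add_sum_filter_not s (fun a => η / 2 ≤ y a) (fun a => y a ^ (k + 1))
  have h4 : ∑ a ∈ s.filter (fun a => ¬ η / 2 ≤ y a), y a ^ (k + 1) ≤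
      (1 / 2) * ((s.card : ℝ) * η ^ (k + 1)) := by
    have h5 : ∀ a ∈ s.filter (fun a => ¬ η / 2 ≤ y a), y a ^ (k + 1) ≤ (η / 2) ^ (k + 1) := by
      intro a ha
      have := (mem_filter.1 ha).2
      push Not at this
      exact pow_le_pow_left₀ (hy a) this.le _
    refine (sum_le_card_nsmul _ _ _ h5).trans ?_
    rw [nsmul_eq_mul, div_pow]
    have h6 : ((s.filter (fun a => ¬ η / 2 ≤ y a)).card : ℝ) ≤ s.card := by
      exact_mod_cast card_filter_le _ _
    have h7 : η ^ (k + 1) / 2 ^ (k + 1) ≤ (1 / 2) * η ^ (k + 1) := by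
      rw [div_eq_mul_one_div, mul_comm]
      apply mul_le_mul_of_nonneg_right _ (by positivity)
      refine one_div_le_one_div_of_le (by norm_num) ?_
      rw [pow_succ]
      have : (1:ℝ) ≤ 2 ^ k := one_le_pow₀ (by norm_num)
      linarith
    calc ((s.filter (fun a => ¬ η / 2 ≤ y a)).card : ℝ) * (η ^ (k + 1) / 2 ^ (k + 1)) ≤
          s.card * ((1 / 2) * η ^ (k + 1)) := mul_le_mul h6 h7 (by positivity) (by positivity)
      _ = _ := by ring
  linarith

theorem small_block (k : ℕ) (η : ℝ) (hη : 0 < η) (hcs : ClassSmall k (η / 2)) :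
    ∃ c : ℝ, 0 < c ∧ ∀ A : ℕ, ∀ᶠ N : ℕ in atTop, ∀ B : Finset ℕ,
    (∀ b ∈ B, (b:ℝ) ≤ (Real.log N) ^ A) → η * Real.log N ≤ B.card →
    c * ((N:ℝ) / (Real.log N) ^ (k + 1)) *
        ∑ E ∈ B.powersetCard (k + 1), singularSeries E ≤
      ∑ E ∈ B.powersetCard (k + 1),
        (((Ioc N (2 * N)).filter (fun n => ∀ e ∈ E, (n + e).Prime)).card : ℝ) := by
  obtain ⟨c, hc, hcl⟩ := hcs
  refine ⟨c / 4, by positivity, fun A => ?_⟩
  filter_upwards [hcl A, ev_sing (k + 1) A (by omega) 1 one_pos,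
    tendsto_logN.eventually_ge_atTop 1, eventually_ge_atTop 1]
    with N h1 h2 hL hN1 B hB hKB
  set w := wN N with hw
  set L := Real.log (N:ℝ) with hLd
  have hL0 : 0 < L := by linarith
  have hN0 : (0:ℝ) < N := by exact_mod_cast hN1
  have hW0 : (0:ℝ) < Wp w := by exact_mod_cast SelDAux.Wp_pos w
  have hc0 : 0 < cW (Wp w) := by
    unfold cW
    have : (0:ℝ) < ((Wp w).totient : ℝ) := by
      exact_mod_cast Nat.totient_pos.2 (SelDAux.Wp_pos w)
    positivity
  set cw := cW (Wp w) with hcd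
  set W : ℝ := (Wp w : ℝ) with hWd
  obtain ⟨y, hyd⟩ : ∃ y : ℕ → ℝ, ∀ a, y a = ((Ba w B a).card : ℝ) / (cw * L) :=
    ⟨_, fun a => rfl⟩
  have hy0 : ∀ a, 0 ≤ y a := fun a => by
    rw [hyd]
    positivity
  have hmean : W * η ≤ ∑ a ∈ range (Wp w), y a := by
    have h3 : ∑ a ∈ range (Wp w), y a = W * ((B.card : ℝ) / L) := by
      simp only [hyd]
      rw [← sum_div, sum_Ba, ← hWd, ← hcd]
      field_simp
    rw [h3]
    refine mul_le_mul_of_nonneg_left ?_ hW0.le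
    rw [le_div_iff₀ hL0]
    exact hKB
  have hhalf := half_pow_sum k (range (Wp w)) y hy0 hη (by rw [card_range]; exact hmean)
  set Y := ∑ a ∈ range (Wp w), y a ^ (k + 1) with hY
  -- the classes
  have hsum : c * (((N:ℝ) / W) * ((1 / 2) * Y)) ≤ ∑ E ∈ B.powersetCard (k + 1),
      (((Ioc N (2 * N)).filter (fun n => ∀ e ∈ E, (n + e).Prime)).card : ℝ) := by
    rw [block_classes N w k B]
    calc c * (((N:ℝ) / W) * ((1 / 2) * Y)) ≤ c * (((N:ℝ) / W) *
          ∑ a ∈ (range (Wp w)).filter (fun a => η / 2 ≤ y a), y a ^ (k + 1)) := by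
          gcongr
      _ = ∑ a ∈ (range (Wp w)).filter (fun a => η / 2 ≤ y a), c * (((N:ℝ) / W) * y a ^ (k + 1)) := by
          rw [mul_sum, mul_sum]
      _ ≤ ∑ a ∈ (range (Wp w)).filter (fun a => η / 2 ≤ y a),
            ∑ n ∈ XS N w a, ((XX B n).choose (k + 1) : ℝ) := by
          refine sum_le_sum fun a ha => ?_
          have h3 := (mem_filter.1 ha).2
          rw [hyd] at h3 ⊢
          refine h1 B a hB ?_
          rwa [le_div_iff₀ (by positivity)] at h3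
      _ ≤ _ := sum_le_sum_of_subset_of_nonneg (filter_subset _ _) fun a _ _ =>
          sum_nonneg fun n _ => Nat.cast_nonneg _
  -- the singular series
  set S := ∑ E ∈ B.powersetCard (k + 1), SP (PPy w) E with hS
  have hS0 : 0 ≤ S := sum_nonneg fun E _ => SP_nonneg _ (PPy_prime w) E
  have hY1 : W / L ^ (k + 1) * S ≤ Y := by
    have h3 := sum_Ba_pow w k B
    rw [← hWd, ← hcd, ← hS] at h3
    have h4 : Y = (1 / (cw * L) ^ (k + 1)) * ∑ a ∈ range (Wp w), ((Ba w B a).card : ℝ) ^ (k + 1) := by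
      rw [hY, mul_sum]
      refine sum_congr rfl fun a _ => ?_
      rw [hyd, div_pow]
      ring
    have hf : (1:ℝ) ≤ ((k + 1).factorial : ℝ) := by exact_mod_cast Nat.factorial_pos _
    have h5 : W * cw ^ (k + 1) * S ≤ ∑ a ∈ range (Wp w), ((Ba w B a).card : ℝ) ^ (k + 1) := by
      refine le_trans ?_ h3
      exact le_mul_of_one_le_left (by positivity) hf
    rw [h4]
    refine le_trans (le_of_eq ?_) (mul_le_mul_of_nonneg_left h5
      (by positivity : 0 ≤ 1 / (cw * L) ^ (k + 1)))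
    rw [mul_pow]
    field_simp
  have hsing : ∑ E ∈ B.powersetCard (k + 1), singularSeries E ≤ 2 * S := by
    rw [hS, mul_sum]
    refine sum_le_sum fun E hE => ?_
    rw [mem_powersetCard] at hE
    have := h2 E hE.2 fun e he => hB e (hE.1 he)
    linarith
  refine le_trans ?_ hsum
  calc c / 4 * ((N:ℝ) / L ^ (k + 1)) * ∑ E ∈ B.powersetCard (k + 1), singularSeries E ≤
        c / 4 * ((N:ℝ) / L ^ (k + 1)) * (2 * S) := by gcongr
    _ = c * (((N:ℝ) / W) * ((1 / 2) * (W / L ^ (k + 1) * S))) := by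
        field_simp
        ring
    _ ≤ _ := by gcongr

end Pool.Agent.HLE
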