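import Mathlib
import Pool.Agent.HLE.MayDefs
import Pool.Agent.HLE.Lower2
import Pool.Agent.HLE.May5

/-!
Positive proportion of translates with many primes, and the average over the subsets, one class.
-/

set_option autoImplicit false

namespace Pool.Agent.HLE

open Finset Filter H34P Pool.Agent.HLT Pool.Agent.HL26 Pool.Agent.Maynard Pool.Agent.PosProp
  Pool.Agent.PosProp.Main

/-- the second moment of the number of rough `r`-subsets -/
def Moment (r : ℕ) : Prop :=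
  ∃ C : ℝ, 0 < C ∧ ∀ A : ℕ, ∀ᶠ N : ℕ in atTop,
  ∀ (B : Finset ℕ) (a : ℕ), (∀ b ∈ B, (b:ℝ) ≤ (Real.log N) ^ A) →
  ∑ n ∈ XS N (wN N) a, ((YY r N B n).choose r : ℝ) ^ 2 ≤
    C * ((N:ℝ) / Wp (wN N)) *
      (1 + (Ba (wN N) B a).card / (cW (Wp (wN N)) * Real.log N)) ^ (2 * r)

/-- double counting of the pairs `(n, H)` -/
lemma pos_core (r : ℕ) (Bs G : Finset ℕ) (S : ℕ → Finset ℕ) (c1 : ℝ)
    (h : ∀ H ∈ Bs.powersetCard r, ∃ Z : Finset ℕ, (∀ n ∈ Z, H ⊆ S n ∧ n ∈ G) ∧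
      c1 ≤ (Z.card : ℝ)) :
    ((Bs.card.choose r : ℕ) : ℝ) * c1 ≤ ∑ n ∈ G, (((S n).card.choose r : ℕ) : ℝ) := by
  classical
  choose! Z hZ hc using h
  have h0 : ∀ H ∈ Bs.powersetCard r, (Z H).card = ∑ n ∈ G, if n ∈ Z H then 1 else 0 := by
    intro H hH
    rw [sum_ite_mem, inter_eq_right.2 (fun n hn => (hZ H hH n hn).2), card_eq_sum_ones]
  have h1 : ∑ H ∈ Bs.powersetCard r, (Z H).card =
      ∑ n ∈ G, ((Bs.powersetCard r).filter (fun H => n ∈ Z H)).card := by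
    rw [sum_congr rfl h0, sum_comm]
    refine sum_congr rfl fun n _ => ?_
    rw [card_filter]
  have h2 : ∀ n ∈ G, ((Bs.powersetCard r).filter (fun H => n ∈ Z H)).card ≤
      (S n).card.choose r := by
    intro n _
    rw [← card_powersetCard]
    apply card_le_card
    intro H hH
    rw [mem_filter] at hH
    rw [mem_powersetCard]
    exact ⟨(hZ H hH.1 n hH.2).1, (mem_powersetCard.1 hH.1).2⟩
  calc ((Bs.card.choose r : ℕ) : ℝ) * c1 = ∑ _H ∈ Bs.powersetCard r, c1 := by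
        rw [sum_const, card_powersetCard, nsmul_eq_mul]
    _ ≤ ∑ H ∈ Bs.powersetCard r, ((Z H).card : ℝ) := sum_le_sum hc
    _ = ∑ n ∈ G, (((Bs.powersetCard r).filter (fun H => n ∈ Z H)).card : ℝ) := by
        exact_mod_cast h1
    _ ≤ _ := sum_le_sum fun n hn => by exact_mod_cast h2 n hn

lemma choose_ge (b r : ℕ) (h : 2 * r ≤ b) :
    ((b:ℝ) / 2) ^ r / (r.factorial : ℝ) ≤ ((b.choose r : ℕ) : ℝ) := by
  have h1 := Nat.pow_sub_le_descFactorial b r
  rw [Nat.descFactorial_eq_factorial_mul_choose] at h1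
  have h2 : ((b + 1 - r : ℕ) : ℝ) ^ r ≤ (r.factorial : ℝ) * (b.choose r : ℝ) := by exact_mod_cast h1
  have h3 : (b:ℝ) / 2 ≤ ((b + 1 - r : ℕ) : ℝ) := by
    rw [Nat.cast_sub (by omega)]
    push_cast
    have : 2 * (r:ℝ) ≤ b := by exact_mod_cast h
    linarith
  have hf : (0:ℝ) < (r.factorial : ℝ) := by exact_mod_cast Nat.factorial_pos r
  rw [div_le_iff₀ hf]
  calc ((b:ℝ) / 2) ^ r ≤ ((b + 1 - r : ℕ) : ℝ) ^ r := pow_le_pow_left₀ (by positivity) h3 r
    _ ≤ _ := by rw [mul_comm]; exact h2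

lemma real_core {r : ℕ} {c0 C η t lam g s : ℝ} (hc0 : 0 < c0) (hC : 0 < C) (hη : 0 < η)
    (ht : 0 < t) (hlam : η ≤ lam) (h1 : c0 * t * lam ^ r ≤ s)
    (h2 : s ^ 2 ≤ g * (C * t * (1 + lam) ^ (2 * r))) :
    (c0 ^ 2 / C * (η / (1 + η)) ^ (2 * r)) * t ≤ g := by
  have hl : 0 < lam := lt_of_lt_of_le hη hlam
  have h3 : (c0 * t * lam ^ r) ^ 2 ≤ g * (C * t * (1 + lam) ^ (2 * r)) :=
    (pow_le_pow_left₀ (by positivity) h1 2).trans h2
  have h4 : (η / (1 + η)) * (1 + lam) ≤ lam := by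
    rw [div_mul_eq_mul_div, div_le_iff₀ (by linarith)]
    nlinarith
  have h5 : (η / (1 + η)) ^ (2 * r) * (1 + lam) ^ (2 * r) ≤ (lam ^ r) ^ 2 := by
    rw [← mul_pow, ← pow_mul, mul_comm r 2]
    exact pow_le_pow_left₀ (by positivity) h4 _
  have hpos : 0 < C * t * (1 + lam) ^ (2 * r) := by positivity
  refine le_of_mul_le_mul_right ?_ hpos
  calc (c0 ^ 2 / C * (η / (1 + η)) ^ (2 * r)) * t * (C * t * (1 + lam) ^ (2 * r)) =
        (c0 ^ 2 * t ^ 2) * ((η / (1 + η)) ^ (2 * r) * (1 + lam) ^ (2 * r)) := by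
        field_simp
    _ ≤ (c0 ^ 2 * t ^ 2) * (lam ^ r) ^ 2 := mul_le_mul_of_nonneg_left h5 (by positivity)
    _ = (c0 * t * lam ^ r) ^ 2 := by ring
    _ ≤ _ := h3

/-- the scale tends to infinity -/
lemma ev_Lam (K : ℝ) : ∀ᶠ N : ℕ in atTop, K ≤ cW (Wp (wN N)) * Real.log N := by
  filter_upwards [ev_Wp_le, tendsto_logN.eventually_ge_atTop 1,
    tendsto_logN.eventually_ge_atTop (K ^ 2)] with N hW hL hK
  have hW0 : (0:ℝ) < Wp (wN N) := by exact_mod_cast SelDAux.Wp_pos (wN N)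
  have hφ : (1:ℝ) ≤ ((Wp (wN N)).totient : ℝ) := by
    exact_mod_cast Nat.totient_pos.2 (SelDAux.Wp_pos (wN N))
  have hs : 0 < Real.sqrt (Real.log N) := Real.sqrt_pos.2 (by linarith)
  have h1 : 1 / Real.sqrt (Real.log N) ≤ cW (Wp (wN N)) := by
    unfold cW
    exact div_le_div₀ (by linarith) hφ hW0 hW
  calc K ≤ Real.sqrt (Real.log N) := Real.le_sqrt_of_sq_le hK
    _ = 1 / Real.sqrt (Real.log N) * Real.log N := by
        rw [one_div, inv_mul_eq_div, eq_div_iff hs.ne']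
        exact Real.mul_self_sqrt (by linarith)
    _ ≤ _ := mul_le_mul_of_nonneg_right h1 (by linarith)

/-- a positive proportion of the translates of a class contains `m` primes -/
theorem class_pos (r m : ℕ) (_hm : m ≤ r) (hmay : ∀ A, MayXS r m A) (hmom : Moment r) (η : ℝ)
    (hη : 0 < η) : ∃ c : ℝ, 0 < c ∧ ∀ A : ℕ, ∀ᶠ N : ℕ in atTop, ∀ (B : Finset ℕ) (a : ℕ),
    (∀ b ∈ B, (b:ℝ) ≤ (Real.log N) ^ A) →
    η * (cW (Wp (wN N)) * Real.log N) ≤ ((Ba (wN N) B a).card : ℝ) →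
    c * ((N:ℝ) / Wp (wN N)) ≤ (((XS N (wN N) a).filter (fun n => m ≤ XX B n)).card : ℝ) := by
  classical
  obtain ⟨C, hC, hmom⟩ := hmom
  set e1 : ℝ := Real.exp (-(r:ℝ) ^ 11) / 2 with he1
  have he1' : 0 < e1 := by positivity
  have hf : (0:ℝ) < (r.factorial : ℝ) := by exact_mod_cast Nat.factorial_pos r
  obtain ⟨c0, hc0d⟩ : ∃ c0 : ℝ, c0 = e1 / (2 ^ r * r.factorial) := ⟨_, rfl⟩
  have hc0 : 0 < c0 := by rw [hc0d]; positivity
  refine ⟨c0 ^ 2 / C * (η / (1 + η)) ^ (2 * r), by positivity, fun A => ?_⟩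
  filter_upwards [hmay A, hmom A, ev_Lam (2 * r / η), ev_Lam 1, eventually_ge_atTop 1]
    with N h1 h2 h3 h4 hN B a hB hBa
  set w := wN N with hw
  obtain ⟨Lam, hLam⟩ : ∃ Lam : ℝ, Lam = cW (Wp w) * Real.log N := ⟨_, rfl⟩
  rw [← hLam] at h2 h3 h4 hBa
  have hW0 : (0:ℝ) < Wp w := by exact_mod_cast SelDAux.Wp_pos w
  have hN0 : (0:ℝ) < N := by exact_mod_cast hN
  obtain ⟨t, htd⟩ : ∃ t : ℝ, t = (N:ℝ) / Wp w := ⟨_, rfl⟩
  have ht : 0 < t := by rw [htd]; positivity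
  rw [← htd] at h2 ⊢
  have hL0 : 0 < Lam := by linarith
  set b := (Ba w B a).card with hb
  set G := (XS N w a).filter (fun n => m ≤ XX B n) with hG
  set S : ℕ → Finset ℕ := fun n => B.filter (fun b => Pool.Agent.PosProp.Rough
    (Pool.Agent.PosProp.Main.zz r N) (n + b)) with hS
  have hcore := pos_core r (Ba w B a) G S (e1 * (t / Lam ^ r)) (by
    intro H hH
    rw [mem_powersetCard] at hH
    have hHB : H ⊆ B := hH.1.trans (filter_subset _ _)
    have h5 := h1 H a hH.2 (fun e he => hB e (hHB he)) (fun e he => (mem_filter.1 (hH.1 he)).2)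
    rw [← hLam, ← htd] at h5
    refine ⟨_, ?_, h5⟩
    intro n hn
    rw [mem_filter] at hn
    constructor
    · intro e he
      rw [hS, mem_filter]
      exact ⟨hHB he, hn.2.1 e he⟩
    · rw [hG, mem_filter]
      refine ⟨hn.1, hn.2.2.trans ?_⟩
      exact card_le_card (filter_subset_filter _ hHB))
  have h6 : 2 * r ≤ b := by
    have h7 : (2 * r : ℝ) ≤ b := by
      refine le_trans ?_ hBa
      rw [div_le_iff₀ hη] at h3
      linarith
    exact_mod_cast h7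
  have h8 := choose_ge b r h6
  have h9 : c0 * t * ((b:ℝ) / Lam) ^ r ≤ ∑ n ∈ G, (((S n).card.choose r : ℕ) : ℝ) := by
    refine le_trans ?_ hcore
    refine le_trans (le_of_eq ?_) (mul_le_mul_of_nonneg_right h8 (by positivity))
    rw [hc0d, div_pow, div_pow]
    field_simp
  refine real_core hc0 hC hη ht ?_ h9 ?_ (lam := (b:ℝ) / Lam)
  · rw [le_div_iff₀ hL0]
    exact hBa
  · refine (sq_sum_le_card_mul_sum_sq).trans ?_
    refine mul_le_mul_of_nonneg_left ?_ (Nat.cast_nonneg _)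
    refine le_trans ?_ (h2 B a hB)
    refine (sum_le_sum_of_subset_of_nonneg (filter_subset _ _) fun _ _ _ => sq_nonneg _).trans
      (le_of_eq ?_)
    refine sum_congr rfl fun n _ => ?_
    unfold YY
    rfl

/-- the average over the `(k+1)`-subsets of a set of shifts, one class -/
theorem class_small (k : ℕ) (η : ℝ) (hη : 0 < η)
    (hpos : ∃ c : ℝ, 0 < c ∧ ∀ A : ℕ, ∀ᶠ N : ℕ in atTop, ∀ (B : Finset ℕ) (a : ℕ),
      (∀ b ∈ B, (b:ℝ) ≤ (Real.log N) ^ A) →
      η * (cW (Wp (wN N)) * Real.log N) ≤ ((Ba (wN N) B a).card : ℝ) →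
      c * ((N:ℝ) / Wp (wN N)) ≤
        (((XS N (wN N) a).filter (fun n => k + 1 ≤ XX B n)).card : ℝ)) :
    ClassSmall k η := by
  obtain ⟨c, hc, hpos⟩ := hpos
  unfold ClassSmall
  have hf : (0:ℝ) < ((k + 1).factorial : ℝ) := by exact_mod_cast Nat.factorial_pos _
  obtain ⟨K, hK⟩ : ∃ K : ℝ, K = 16 * ((k:ℝ) + 1) * k + 1 := ⟨_, rfl⟩
  have hk0 : (0:ℝ) ≤ k := Nat.cast_nonneg k
  have hK1 : 1 ≤ K := by
    rw [hK]
    have : 0 ≤ 16 * ((k:ℝ) + 1) * k := by positivity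
    linarith
  refine ⟨min (c / K ^ (k + 1)) (1 / (2 * 2 ^ (k + 1) * (k + 1).factorial)),
    by positivity, fun A => ?_⟩
  filter_upwards [hpos A, ev_primes_low A (1 / 4) (by norm_num), ev_Lam 1, ev_Wp_le,
    tendsto_logN.eventually_ge_atTop 1,
    tendsto_natCast_atTop_atTop.eventually (ev_pow_le 1 (1 / 4) (by norm_num)),
    eventually_ge_atTop 1] with N h1 h2 h3 hWle hL hlN hN B a hB hBa
  set w := wN N with hw
  obtain ⟨Lam, hLam⟩ : ∃ Lam : ℝ, Lam = cW (Wp w) * Real.log N := ⟨_, rfl⟩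
  have h1' := h1 B a hB hBa
  rw [← hLam] at h3 hBa ⊢
  have hW0 : (0:ℝ) < Wp w := by exact_mod_cast SelDAux.Wp_pos w
  have hN0 : (0:ℝ) < N := by exact_mod_cast hN
  obtain ⟨t, htd⟩ : ∃ t : ℝ, t = (N:ℝ) / Wp w := ⟨_, rfl⟩
  have ht : 0 < t := by rw [htd]; positivity
  rw [← htd] at h1' ⊢
  have hL0 : 0 < Lam := by linarith
  obtain ⟨lam, hlam⟩ : ∃ lam : ℝ, lam = ((Ba w B a).card : ℝ) / Lam := ⟨_, rfl⟩
  rw [← hlam]
  have hl0 : 0 ≤ lam := by rw [hlam]; positivity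
  have hsum0 : 0 ≤ ∑ n ∈ XS N w a, ((XX B n).choose (k + 1) : ℝ) :=
    sum_nonneg fun _ _ => Nat.cast_nonneg _
  by_cases hlK : lam ≤ K
  · -- few elements: the positive proportion
    have h4 : c * t ≤ ∑ n ∈ XS N w a, ((XX B n).choose (k + 1) : ℝ) := by
      refine h1'.trans ?_
      refine le_trans ?_ (sum_le_sum_of_subset_of_nonneg
        (filter_subset (fun n => k + 1 ≤ XX B n) (XS N w a)) fun _ _ _ => Nat.cast_nonneg _)
      rw [card_eq_sum_ones]
      push_cast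
      refine sum_le_sum fun n hn => ?_
      have h5 := (mem_filter.1 hn).2
      exact_mod_cast Nat.choose_pos h5
    refine le_trans ?_ h4
    have h5 : lam ^ (k + 1) ≤ K ^ (k + 1) := pow_le_pow_left₀ hl0 hlK _
    calc min (c / K ^ (k + 1)) (1 / (2 * 2 ^ (k + 1) * (k + 1).factorial)) *
          (t * lam ^ (k + 1)) ≤ (c / K ^ (k + 1)) * (t * lam ^ (k + 1)) :=
          mul_le_mul_of_nonneg_right (min_le_left _ _) (by positivity)
      _ ≤ (c / K ^ (k + 1)) * (t * K ^ (k + 1)) := by gcongr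
      _ = c * t := by field_simp
  · -- many elements: convexity
    push Not at hlK
    have hWL : (Wp w : ℝ) ≤ Real.log N := by
      refine hWle.trans ?_
      rw [Real.sqrt_le_left (by linarith)]
      nlinarith
    have hκt : 1 ≤ 1 / 4 * t := by
      rw [htd, ← mul_div_assoc, le_div_iff₀ hW0]
      rw [pow_one] at hlN
      linarith
    have h := abs_le.1 (card_XS w N a)
    rw [← htd] at h
    have h5 := class_lower N w k a B (κ := 1 / 4) (u := 1 / Lam) (t := t) (by norm_num) le_rfl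
      (by positivity) ht (by linarith [h.1]) (by linarith [h.2]) (fun b hb => by
        have hb' := mem_filter.1 hb
        have h6 := h2 a b (hB b hb'.1) hb'.2
        rw [← hLam, ← htd] at h6
        rw [mul_one_div]
        exact h6)
    obtain ⟨y, hy⟩ : ∃ y : ℝ, y = lam / 2 := ⟨_, rfl⟩
    have hy' : (1 - 2 * (1 / 4 : ℝ)) * ((Ba w B a).card : ℝ) * (1 / Lam) = y := by
      rw [hy, hlam]
      ring
    rw [hy'] at h5
    have hy0 : 0 ≤ y := by rw [hy]; positivity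
    have hyK : 8 * ((k:ℝ) + 1) * k ≤ y := by
      rw [hy]
      rw [hK] at hlK
      linarith
    have h6 : y ^ (k + 1) / 2 ≤ (1 - 1 / 4) * y ^ (k + 1) - 2 * ((k + 1) * k) * y ^ k := by
      have h7 : 0 ≤ y ^ k := pow_nonneg hy0 k
      have h8 : 2 * (((k:ℝ) + 1) * k) * y ^ k ≤ y ^ (k + 1) / 4 := by
        rw [pow_succ]
        nlinarith
      linarith
    have h9 : t * (y ^ (k + 1) / 2) ≤
        ((k + 1).factorial : ℝ) * ∑ n ∈ XS N w a, ((XX B n).choose (k + 1) : ℝ) :=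
      (mul_le_mul_of_nonneg_left h6 ht.le).trans h5
    calc min (c / K ^ (k + 1)) (1 / (2 * 2 ^ (k + 1) * (k + 1).factorial)) *
          (t * lam ^ (k + 1)) ≤ (1 / (2 * 2 ^ (k + 1) * (k + 1).factorial)) *
            (t * lam ^ (k + 1)) :=
          mul_le_mul_of_nonneg_right (min_le_right _ _) (by positivity)
      _ = (t * (y ^ (k + 1) / 2)) / (k + 1).factorial := by
          rw [hy, div_pow]
          field_simp
      _ ≤ _ := by
          rw [div_le_iff₀ hf]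
          refine h9.trans (le_of_eq ?_)
          ring

/-- the lower bound in the classes, from the sieve and the moment -/
theorem classSmall_of (r k : ℕ) (hk : k + 1 ≤ r) (hmay : ∀ A, MayXS r (k + 1) A)
    (hmom : Moment r) (η : ℝ) (hη : 0 < η) : ClassSmall k η :=
  class_small k η hη (class_pos r (k + 1) hk hmay hmom η hη)

end Pool.Agent.HLE
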