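import Mathlib
import Pool.Agent.HLE.May5

/-!
Small sets of shifts, uniformly in the number of shifts: from the classes to the block.
-/

set_option autoImplicit false

namespace Pool.Agent.HLE

open Finset Filter H34P Pool.Agent.HLT Pool.Agent.HL26 Pool.Agent.Maynard

/-- the lower bound in the classes which contain enough elements of the set, with its dependence
on the density -/
def ClassU (k r : ℕ) : Prop :=
  ∃ c : ℝ, 0 < c ∧ ∀ A : ℕ, ∀ᶠ N : ℕ in atTop, ∀ (B : Finset ℕ) (a : ℕ) (η : ℝ),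
    (∀ b ∈ B, (b:ℝ) ≤ (Real.log N) ^ A) → 0 < η → η ≤ 1 → 2 * r ≤ (Ba (wN N) B a).card →
    η * (cW (Wp (wN N)) * Real.log N) ≤ ((Ba (wN N) B a).card : ℝ) →
    c * η ^ r * (((N:ℝ) / Wp (wN N)) *
        (((Ba (wN N) B a).card : ℝ) / (cW (Wp (wN N)) * Real.log N)) ^ (k + 1)) ≤
      ∑ n ∈ XS N (wN N) a, ((XX B n).choose (k + 1) : ℝ)

theorem small_blockU (k r : ℕ) (hcs : ClassU k r) :
    ∃ c : ℝ, 0 < c ∧ ∀ A : ℕ, ∀ᶠ N : ℕ in atTop, ∀ B : Finset ℕ,
    (∀ b ∈ B, (b:ℝ) ≤ (Real.log N) ^ A) → 1 ≤ B.card →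
    4 * (r:ℝ) ≤ cW (Wp (wN N)) * B.card →
    c * (min 1 ((B.card : ℝ) / Real.log N)) ^ r * ((N:ℝ) / (Real.log N) ^ (k + 1)) *
        ∑ E ∈ B.powersetCard (k + 1), singularSeries E ≤
      ∑ E ∈ B.powersetCard (k + 1),
        (((Ioc N (2 * N)).filter (fun n => ∀ e ∈ E, (n + e).Prime)).card : ℝ) := by
  obtain ⟨c, hc, hcl⟩ := hcs
  refine ⟨c / 2 ^ r / 4, by positivity, fun A => ?_⟩
  filter_upwards [hcl A, ev_sing (k + 1) A (by omega) 1 one_pos,
    tendsto_logN.eventually_ge_atTop 1, eventually_ge_atTop 1]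
    with N h1 h2 hL hN1 B hB hB1 hKB
  set w := wN N with hw
  set L := Real.log (N:ℝ) with hLd
  have hL0 : 0 < L := by linarith
  have hN0 : (0:ℝ) < N := by exact_mod_cast hN1
  have hW0 : (0:ℝ) < Wp w := by exact_mod_cast SelDAux.Wp_pos w
  have hc0 : 0 < cW (Wp w) := by
    unfold cW
    have : (0:ℝ) < ((Wp w).totient : ℝ) := by
      exact_mod_cast Nat.totient_pos.2 (SelDAux.Wp_pos w)
    positivity
  set cw := cW (Wp w) with hcd
  set W : ℝ := (Wp w : ℝ) with hWd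
  have hBr : (1:ℝ) ≤ B.card := by exact_mod_cast hB1
  obtain ⟨y, hyd⟩ : ∃ y : ℕ → ℝ, ∀ a, y a = ((Ba w B a).card : ℝ) / (cw * L) :=
    ⟨_, fun a => rfl⟩
  have hy0 : ∀ a, 0 ≤ y a := fun a => by
    rw [hyd]
    positivity
  obtain ⟨β, hβ⟩ : ∃ β : ℝ, β = (B.card : ℝ) / L := ⟨_, rfl⟩
  have hβ0 : 0 < β := by rw [hβ]; positivity
  have hmean : W * β ≤ ∑ a ∈ range (Wp w), y a := by
    have h3 : ∑ a ∈ range (Wp w), y a = W * ((B.card : ℝ) / L) := by
      simp only [hyd]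
      rw [← sum_div, sum_Ba, ← hWd, ← hcd]
      field_simp
    rw [h3, hβ]
  have hhalf := half_pow_sum k (range (Wp w)) y hy0 hβ0 (by rw [card_range]; exact hmean)
  set Y := ∑ a ∈ range (Wp w), y a ^ (k + 1) with hY
  obtain ⟨η, hη⟩ : ∃ η : ℝ, η = min 1 β := ⟨_, rfl⟩
  have hη0 : 0 < η := by rw [hη]; exact lt_min one_pos hβ0
  have hη1 : η ≤ 1 := by rw [hη]; exact min_le_left _ _
  have hηβ : η ≤ β := by rw [hη]; exact min_le_right _ _
  have hηh : (η / 2) ^ r = η ^ r / 2 ^ r := div_pow _ _ _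
  -- the classes
  have hsum : (c * (η / 2) ^ r) * (((N:ℝ) / W) * ((1 / 2) * Y)) ≤ ∑ E ∈ B.powersetCard (k + 1),
      (((Ioc N (2 * N)).filter (fun n => ∀ e ∈ E, (n + e).Prime)).card : ℝ) := by
    rw [block_classes N w k B]
    calc (c * (η / 2) ^ r) * (((N:ℝ) / W) * ((1 / 2) * Y)) ≤ (c * (η / 2) ^ r) * (((N:ℝ) / W) *
          ∑ a ∈ (range (Wp w)).filter (fun a => β / 2 ≤ y a), y a ^ (k + 1)) := by
          gcongr
      _ = ∑ a ∈ (range (Wp w)).filter (fun a => β / 2 ≤ y a),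
            (c * (η / 2) ^ r) * (((N:ℝ) / W) * y a ^ (k + 1)) := by
          rw [mul_sum, mul_sum]
      _ ≤ ∑ a ∈ (range (Wp w)).filter (fun a => β / 2 ≤ y a),
            ∑ n ∈ XS N w a, ((XX B n).choose (k + 1) : ℝ) := by
          refine sum_le_sum fun a ha => ?_
          have h3 := (mem_filter.1 ha).2
          rw [hyd] at h3 ⊢
          rw [le_div_iff₀ (by positivity)] at h3
          refine h1 B a (η / 2) hB (by positivity) (by linarith) ?_ ?_
          · have h4 : β / 2 * (cw * L) = cw * (B.card : ℝ) / 2 := by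
              rw [hβ]
              field_simp
            have h5 : 2 * (r:ℝ) ≤ ((Ba w B a).card : ℝ) := by
              rw [h4] at h3
              linarith
            exact_mod_cast h5
          · refine le_trans ?_ h3
            exact mul_le_mul_of_nonneg_right (by linarith) (by positivity)
      _ ≤ _ := sum_le_sum_of_subset_of_nonneg (filter_subset _ _) fun a _ _ =>
          sum_nonneg fun n _ => Nat.cast_nonneg _
  -- the singular series
  set S := ∑ E ∈ B.powersetCard (k + 1), SP (PPy w) E with hS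
  have hS0 : 0 ≤ S := sum_nonneg fun E _ => SP_nonneg _ (PPy_prime w) E
  have hY1 : W / L ^ (k + 1) * S ≤ Y := by
    have h3 := sum_Ba_pow w k B
    rw [← hWd, ← hcd, ← hS] at h3
    have h4 : Y = (1 / (cw * L) ^ (k + 1)) * ∑ a ∈ range (Wp w), ((Ba w B a).card : ℝ) ^ (k + 1) := by
      rw [hY, mul_sum]
      refine sum_congr rfl fun a _ => ?_
      rw [hyd, div_pow]
      ring
    have hf : (1:ℝ) ≤ ((k + 1).factorial : ℝ) := by exact_mod_cast Nat.factorial_pos _
    have h5 : W * cw ^ (k + 1) * S ≤ ∑ a ∈ range (Wp w), ((Ba w B a).card : ℝ) ^ (k + 1) := by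
      refine le_trans ?_ h3
      exact le_mul_of_one_le_left (by positivity) hf
    rw [h4]
    refine le_trans (le_of_eq ?_) (mul_le_mul_of_nonneg_left h5
      (by positivity : 0 ≤ 1 / (cw * L) ^ (k + 1)))
    rw [mul_pow]
    field_simp
  have hsing : ∑ E ∈ B.powersetCard (k + 1), singularSeries E ≤ 2 * S := by
    rw [hS, mul_sum]
    refine sum_le_sum fun E hE => ?_
    rw [mem_powersetCard] at hE
    have := h2 E hE.2 fun e he => hB e (hE.1 he)
    linarith
  refine le_trans ?_ hsum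
  rw [← hβ, ← hη]
  calc c / 2 ^ r / 4 * η ^ r * ((N:ℝ) / L ^ (k + 1)) *
        ∑ E ∈ B.powersetCard (k + 1), singularSeries E ≤
        c / 2 ^ r / 4 * η ^ r * ((N:ℝ) / L ^ (k + 1)) * (2 * S) := by gcongr
    _ = (c * (η / 2) ^ r) * (((N:ℝ) / W) * ((1 / 2) * (W / L ^ (k + 1) * S))) := by
        rw [hηh]
        field_simp
        ring
    _ ≤ _ := by gcongr

end Pool.Agent.HLE
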