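import Mathlib
import Pool.Agent.HLE.May4
import Pool.Agent.HLE.May5u

/-!
The average over the subsets of a set of shifts, one class, uniformly in the density.
-/

set_option autoImplicit false

namespace Pool.Agent.HLE

open Finset Filter H34P Pool.Agent.HLT Pool.Agent.HL26 Pool.Agent.Maynard Pool.Agent.PosProp
  Pool.Agent.PosProp.Main

/-- the second moment of the number of rough `r`-subsets, sharp for small densities -/
def MomentU (r : ℕ) : Prop :=
  ∃ C : ℝ, 0 < C ∧ ∀ A : ℕ, ∀ᶠ N : ℕ in atTop,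
  ∀ (B : Finset ℕ) (a : ℕ), (∀ b ∈ B, (b:ℝ) ≤ (Real.log N) ^ A) →
  ∑ n ∈ XS N (wN N) a, ((YY r N B n).choose r : ℝ) ^ 2 ≤
    C * ((N:ℝ) / Wp (wN N)) * ((((Ba (wN N) B a).card : ℝ) / (cW (Wp (wN N)) * Real.log N)) ^ r +
      (((Ba (wN N) B a).card : ℝ) / (cW (Wp (wN N)) * Real.log N)) ^ (2 * r))

lemma real_coreU {r : ℕ} {c0 C t lam g s : ℝ} (hc0 : 0 < c0) (hC : 0 < C)
    (ht : 0 < t) (hlam : 0 < lam) (hlam1 : lam ≤ 1) (hg : 0 ≤ g) (h1 : c0 * t * lam ^ r ≤ s)
    (h2 : s ^ 2 ≤ g * (C * t * (lam ^ r + lam ^ (2 * r)))) :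
    c0 ^ 2 / (2 * C) * (t * lam ^ r) ≤ g := by
  have hr : 0 < lam ^ r := by positivity
  have h3 : (c0 * t * lam ^ r) ^ 2 ≤ g * (C * t * (lam ^ r + lam ^ (2 * r))) :=
    (pow_le_pow_left₀ (by positivity) h1 2).trans h2
  have h4 : lam ^ (2 * r) ≤ lam ^ r := pow_le_pow_of_le_one hlam.le hlam1 (by omega)
  have h5 : (c0 * t * lam ^ r) ^ 2 ≤ g * (2 * C * t * lam ^ r) := by
    refine h3.trans (mul_le_mul_of_nonneg_left ?_ hg)
    have h6 : C * t * (lam ^ r + lam ^ (2 * r)) ≤ C * t * (lam ^ r + lam ^ r) :=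
      mul_le_mul_of_nonneg_left (by linarith) (by positivity)
    refine h6.trans (le_of_eq ?_)
    ring
  have hpos : 0 < 2 * C * t * lam ^ r := by positivity
  refine le_of_mul_le_mul_right ?_ hpos
  calc c0 ^ 2 / (2 * C) * (t * lam ^ r) * (2 * C * t * lam ^ r) = (c0 * t * lam ^ r) ^ 2 := by
        field_simp
    _ ≤ _ := h5

/-- the lower bound in the classes, uniformly in the density -/
theorem classU_of (r k : ℕ) (_hk : k + 1 ≤ r) (hmay : ∀ A, MayXS r (k + 1) A)
    (hmom : MomentU r) (hcs : ClassSmall k 1) : ClassU k r := by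
  classical
  obtain ⟨C, hC, hmom⟩ := hmom
  obtain ⟨c', hc', hcs⟩ := hcs
  set e1 : ℝ := Real.exp (-(r:ℝ) ^ 11) / 2 with he1
  have he1' : 0 < e1 := by positivity
  have hf : (0:ℝ) < (r.factorial : ℝ) := by exact_mod_cast Nat.factorial_pos r
  obtain ⟨c0, hc0d⟩ : ∃ c0 : ℝ, c0 = e1 / (2 ^ r * r.factorial) := ⟨_, rfl⟩
  have hc0 : 0 < c0 := by rw [hc0d]; positivity
  unfold ClassU
  refine ⟨min c' (c0 ^ 2 / (2 * C)), by positivity, fun A => ?_⟩
  filter_upwards [hmay A, hmom A, hcs A, ev_Lam 1, eventually_ge_atTop 1]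
    with N h1 h2 h3 h4 hN B a η hB hη hη1 hcard hBa
  set w := wN N with hw
  obtain ⟨Lam, hLam⟩ : ∃ Lam : ℝ, Lam = cW (Wp w) * Real.log N := ⟨_, rfl⟩
  have h3' := h3 B a hB
  rw [← hLam] at h2 h3' h4 hBa ⊢
  have hW0 : (0:ℝ) < Wp w := by exact_mod_cast SelDAux.Wp_pos w
  have hN0 : (0:ℝ) < N := by exact_mod_cast hN
  obtain ⟨t, htd⟩ : ∃ t : ℝ, t = (N:ℝ) / Wp w := ⟨_, rfl⟩
  have ht : 0 < t := by rw [htd]; positivity
  rw [← htd] at h2 h3' ⊢
  have hL0 : 0 < Lam := by linarith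
  set b := (Ba w B a).card with hb
  obtain ⟨lam, hlam⟩ : ∃ lam : ℝ, lam = (b : ℝ) / Lam := ⟨_, rfl⟩
  rw [← hlam] at h3' ⊢
  have hηl : η ≤ lam := by
    rw [hlam, le_div_iff₀ hL0]
    exact hBa
  have hl0 : 0 < lam := lt_of_lt_of_le hη hηl
  have hηr : 0 < η ^ r := by positivity
  have hηr1 : η ^ r ≤ 1 := pow_le_one₀ hη.le hη1
  rcases le_total lam 1 with hl1 | hl1
  · set G := (XS N w a).filter (fun n => k + 1 ≤ XX B n) with hG
    set S : ℕ → Finset ℕ := fun n => B.filter (fun b => Pool.Agent.PosProp.Rough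
      (Pool.Agent.PosProp.Main.zz r N) (n + b)) with hS
    have hcore := pos_core r (Ba w B a) G S (e1 * (t / Lam ^ r)) (by
      intro H hH
      rw [mem_powersetCard] at hH
      have hHB : H ⊆ B := hH.1.trans (filter_subset _ _)
      have h5 := h1 H a hH.2 (fun e he => hB e (hHB he)) (fun e he => (mem_filter.1 (hH.1 he)).2)
      rw [← hLam, ← htd] at h5
      refine ⟨_, ?_, h5⟩
      intro n hn
      rw [mem_filter] at hn
      constructor
      · intro e he
        rw [hS, mem_filter]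
        exact ⟨hHB he, hn.2.1 e he⟩
      · rw [hG, mem_filter]
        refine ⟨hn.1, hn.2.2.trans ?_⟩
        exact card_le_card (filter_subset_filter _ hHB))
    have h8 := choose_ge b r hcard
    have h9 : c0 * t * lam ^ r ≤ ∑ n ∈ G, (((S n).card.choose r : ℕ) : ℝ) := by
      refine le_trans ?_ hcore
      refine le_trans (le_of_eq ?_) (mul_le_mul_of_nonneg_right h8 (by positivity))
      rw [hc0d, hlam, div_pow, div_pow]
      field_simp
    have h10 : c0 ^ 2 / (2 * C) * (t * lam ^ r) ≤ (G.card : ℝ) := by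
      refine real_coreU hc0 hC ht hl0 hl1 (Nat.cast_nonneg _) h9 ?_
      refine (sq_sum_le_card_mul_sum_sq).trans ?_
      refine mul_le_mul_of_nonneg_left ?_ (Nat.cast_nonneg _)
      have h11 := h2 B a hB
      rw [← hb, ← hlam] at h11
      refine le_trans ?_ h11
      refine (sum_le_sum_of_subset_of_nonneg (filter_subset _ _) fun _ _ _ => sq_nonneg _).trans
        (le_of_eq ?_)
      refine sum_congr rfl fun n _ => ?_
      unfold YY
      rfl
    have h12 : (G.card : ℝ) ≤ ∑ n ∈ XS N w a, ((XX B n).choose (k + 1) : ℝ) := by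
      refine le_trans ?_ (sum_le_sum_of_subset_of_nonneg
        (filter_subset (fun n => k + 1 ≤ XX B n) (XS N w a)) fun _ _ _ => Nat.cast_nonneg _)
      rw [hG, card_eq_sum_ones]
      push_cast
      refine sum_le_sum fun n hn => ?_
      have h5 := (mem_filter.1 hn).2
      exact_mod_cast Nat.choose_pos h5
    refine le_trans ?_ (h10.trans h12)
    have h13 : η ^ r * lam ^ (k + 1) ≤ lam ^ r := by
      have h14 : lam ^ (k + 1) ≤ 1 := pow_le_one₀ hl0.le hl1
      have h15 : η ^ r ≤ lam ^ r := pow_le_pow_left₀ hη.le hηl r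
      calc η ^ r * lam ^ (k + 1) ≤ η ^ r * 1 := mul_le_mul_of_nonneg_left h14 hηr.le
        _ ≤ lam ^ r := by rw [mul_one]; exact h15
    calc min c' (c0 ^ 2 / (2 * C)) * η ^ r * (t * lam ^ (k + 1)) =
          min c' (c0 ^ 2 / (2 * C)) * (t * (η ^ r * lam ^ (k + 1))) := by ring
      _ ≤ min c' (c0 ^ 2 / (2 * C)) * (t * lam ^ r) :=
          mul_le_mul_of_nonneg_left (mul_le_mul_of_nonneg_left h13 ht.le) (by positivity)
      _ ≤ c0 ^ 2 / (2 * C) * (t * lam ^ r) :=
          mul_le_mul_of_nonneg_right (min_le_right _ _) (by positivity)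
  · have h5 := h3' (by
      rw [one_mul]
      rw [hlam, le_div_iff₀ hL0, one_mul] at hl1
      exact hl1)
    refine le_trans ?_ h5
    calc min c' (c0 ^ 2 / (2 * C)) * η ^ r * (t * lam ^ (k + 1)) ≤
          c' * 1 * (t * lam ^ (k + 1)) := by
          have h6 : 0 ≤ t * lam ^ (k + 1) := by positivity
          refine mul_le_mul_of_nonneg_right ?_ h6
          exact mul_le_mul (min_le_left _ _) hηr1 hηr.le hc'.le
      _ = _ := by ring

end Pool.Agent.HLE
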