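import Mathlib
import Pool.Agent.HL26.SieveD
import Pool.Agent.HL26.Degenerate
import Pool.Agent.HLE.UpperX

/-!
The final step of SmallSets: from one block to `x`, and the mass of the good tuples
(MP_485179_nt, helper34).
-/

set_option autoImplicit false

namespace Pool.Agent.HLE

open Finset Filter H34P Pool.Agent.HLT Pool.Agent.HL26 Pool.Agent.Maynard

/-- sieve upper bound for every tuple -/
theorem pi_upper (k : ℕ) : ∃ C : ℝ, 0 < C ∧ ∀ᶠ x : ℝ in atTop, ∀ E : Finset ℕ,
    E.card = k + 1 → (tupleCount x (translate0 E) : ℝ) ≤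
      C * (singularSeries (translate0 E) * (x / (Real.log x) ^ (k + 1))) + ((k + 1 : ℕ) : ℝ) := by
  obtain ⟨C, hC, h⟩ := exists_sieve_bound (k + 1) (by omega)
  refine ⟨C, hC, ?_⟩
  filter_upwards [h, eventually_gt_atTop 1] with x hx hx1 E hE
  have hlog : 0 < Real.log x := Real.log_pos hx1
  have hx0 : 0 < x := by linarith
  have hcard : (translate0 E).card = k + 1 := by
    rw [Pool.Agent.HL26.card_translate0, hE]
  rcases (singularSeries_nonneg (translate0 E)).lt_or_eq with hpos | hzero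
  · have h1 := hx (translate0 E) hcard (fun p hp => admissible_of_pos _ hpos p hp)
    have h2 : (0:ℝ) ≤ ((k + 1 : ℕ) : ℝ) := Nat.cast_nonneg _
    linarith
  · have h1 := tupleCount_le_of_zero (translate0 E) hzero.symm x
    rw [hcard] at h1
    have h2 : (tupleCount x (translate0 E) : ℝ) ≤ ((k + 1 : ℕ) : ℝ) := by exact_mod_cast h1
    rw [← hzero]
    simpa using h2

/-- lower bound in one block, for every set of at least `η log N` shifts -/
def SmallBlock (k : ℕ) (η : ℝ) : Prop := ∃ c : ℝ, 0 < c ∧ ∀ A : ℕ, ∀ᶠ N : ℕ in atTop,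
  ∀ B : Finset ℕ, (∀ b ∈ B, (b:ℝ) ≤ (Real.log N) ^ A) → η * Real.log N ≤ B.card →
    c * (((N:ℝ) / (Real.log N) ^ (k + 1)) * ∑ E ∈ B.powersetCard (k + 1), singularSeries E) ≤
      ∑ E ∈ B.powersetCard (k + 1), (AN N E : ℝ)

/-- from the block to `x` -/
theorem small_x (k : ℕ) (η : ℝ) (hη : 0 < η) (hb : SmallBlock k η) : ∃ c : ℝ, 0 < c ∧
    ∀ A : ℕ, ∃ X : ℝ, ∀ x : ℝ, X ≤ x → ∀ B : Finset ℕ, (∀ b ∈ B, (b:ℝ) ≤ (Real.log x) ^ A) →
    η * Real.log x ≤ B.card →
    c * ((x / (Real.log x) ^ (k + 1)) *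
        ∑ E ∈ B.powersetCard (k + 1), singularSeries (translate0 E)) ≤
      ∑ E ∈ B.powersetCard (k + 1), (tupleCount x (translate0 E) : ℝ) := by
  obtain ⟨c, hc, h⟩ := hb
  refine ⟨c / 4, by positivity, fun A => ?_⟩
  have hNt : Tendsto (fun x : ℝ => ⌊x / 3⌋₊) atTop atTop :=
    tendsto_nat_floor_atTop.comp (tendsto_id.atTop_div_const (by norm_num))
  have hpw : ∀ᶠ x : ℝ in atTop, (Real.log x) ^ A ≤ x / 12 := by
    have h1 := (Real.isLittleO_pow_log_id_atTop (n := A)).def (c := 1 / 12) (by norm_num)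
    filter_upwards [h1, eventually_gt_atTop (1:ℝ)] with x hx hx1
    have hl : 0 < Real.log x := Real.log_pos hx1
    rw [Real.norm_of_nonneg (by positivity), id, Real.norm_of_nonneg (by linarith)] at hx
    linarith
  have hlog2 : ∀ᶠ x : ℝ in atTop, (2:ℝ) ^ A ≤ Real.log x ∧ 2 * Real.log 4 ≤ Real.log x :=
    (Real.tendsto_log_atTop.eventually_ge_atTop _).and
      (Real.tendsto_log_atTop.eventually_ge_atTop _)
  have hlogN : ∀ᶠ x : ℝ in atTop, (2:ℝ) ^ A ≤ Real.log ((⌊x / 3⌋₊ : ℕ) : ℝ) :=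
    hNt.eventually (tendsto_logN.eventually_ge_atTop _)
  obtain ⟨X, hX⟩ := Filter.eventually_atTop.1 ((hNt.eventually (h (A + 1))).and
    (hpw.and (hlog2.and (hlogN.and (eventually_ge_atTop 24)))))
  refine ⟨X, fun x hx B hB hBc => ?_⟩
  obtain ⟨h1, h2, ⟨h3, h4⟩, h5, h6⟩ := hX x hx
  obtain ⟨N, hN⟩ : ∃ N : ℕ, N = ⌊x / 3⌋₊ := ⟨_, rfl⟩
  rw [← hN] at h1 h5
  have hx0 : 0 < x := by linarith
  have hNle : (N:ℝ) ≤ x / 3 := by
    rw [hN]
    exact Nat.floor_le (by positivity)
  have hNge : x / 4 ≤ N := by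
    have h7 : x / 3 < N + 1 := by
      rw [hN]
      exact Nat.lt_floor_add_one _
    linarith
  have hN0 : (0:ℝ) < N := by linarith
  have hlogx : 0 < Real.log x := Real.log_pos (by linarith)
  have hlogNx : Real.log N ≤ Real.log x := Real.log_le_log hN0 (by linarith)
  have hlogNge : Real.log x / 2 ≤ Real.log N := by
    have h7 : Real.log (x / 4) ≤ Real.log N := Real.log_le_log (by positivity) hNge
    rw [Real.log_div hx0.ne' (by norm_num)] at h7
    linarith
  have hlogN0 : 0 < Real.log N := by linarith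
  have hBN : ∀ b ∈ B, (b:ℝ) ≤ (Real.log N) ^ (A + 1) := by
    intro b hbB
    calc (b:ℝ) ≤ (Real.log x) ^ A := hB b hbB
      _ ≤ (2 * Real.log N) ^ A := pow_le_pow_left₀ hlogx.le (by linarith) _
      _ = 2 ^ A * (Real.log N) ^ A := mul_pow _ _ _
      _ ≤ Real.log N * (Real.log N) ^ A := mul_le_mul_of_nonneg_right h5 (by positivity)
      _ = (Real.log N) ^ (A + 1) := by ring
  have h7 := h1 B hBN ((mul_le_mul_of_nonneg_left hlogNx hη.le).trans hBc)
  have hterm : ∀ E ∈ B.powersetCard (k + 1), (AN N E : ℝ) ≤ (tupleCount x (translate0 E) : ℝ) := by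
    intro E hE
    obtain ⟨hEB, hEc⟩ := mem_powersetCard.1 hE
    have hne : E.Nonempty := by
      rw [← card_pos, hEc]
      omega
    have h8 := count_le_tupleCount E ⌊(Real.log x) ^ A⌋₊ (2 * N) x hne
      (fun e he => Nat.le_floor (hB e (hEB he))) (by
        apply Nat.le_floor
        push_cast
        have h9 : ((⌊(Real.log x) ^ A⌋₊ : ℕ) : ℝ) ≤ (Real.log x) ^ A :=
          Nat.floor_le (by positivity)
        linarith)
    have h9 : AN N E ≤ ((Finset.Icc 1 (2 * N)).filter (fun n => ∀ e ∈ E, Nat.Prime (n + e))).card := by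
      unfold AN
      apply card_le_card
      intro n hn
      rw [mem_filter, mem_Ioc] at hn
      rw [mem_filter, mem_Icc]
      exact ⟨⟨by omega, hn.1.2⟩, hn.2⟩
    exact_mod_cast h9.trans h8
  refine le_trans ?_ (h7.trans (sum_le_sum hterm))
  simp only [Pool.Agent.HL26.singularSeries_translate0]
  have hS0 : 0 ≤ ∑ E ∈ B.powersetCard (k + 1), singularSeries E :=
    sum_nonneg fun E _ => singularSeries_nonneg E
  have hQ : x / (Real.log x) ^ (k + 1) ≤ 4 * ((N:ℝ) / (Real.log N) ^ (k + 1)) := by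
    have h8 : (Real.log N) ^ (k + 1) ≤ (Real.log x) ^ (k + 1) :=
      pow_le_pow_left₀ hlogN0.le hlogNx _
    calc x / (Real.log x) ^ (k + 1) ≤ (4 * N) / (Real.log x) ^ (k + 1) :=
          div_le_div_of_nonneg_right (by linarith) (by positivity)
      _ ≤ (4 * N) / (Real.log N) ^ (k + 1) :=
          div_le_div_of_nonneg_left (by positivity) (by positivity) h8
      _ = _ := by ring
  have h8 := mul_le_mul_of_nonneg_right hQ hS0
  have h9 := mul_le_mul_of_nonneg_left h8 (by positivity : 0 ≤ c / 4)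
  refine h9.trans (le_of_eq ?_)
  ring

open Classical in
/-- **small sets**: order of magnitude and the mass of the good tuples -/
theorem small_sets_of (k : ℕ) (η : ℝ) (hη : 0 < η) (hb : SmallBlock k η) : ∃ c : ℝ, 0 < c ∧
    ∀ A : ℕ, ∃ X : ℝ, ∀ x : ℝ, X ≤ x → ∀ B : Finset ℕ, (∀ b ∈ B, (b:ℝ) ≤ (Real.log x) ^ A) →
    η * Real.log x ≤ B.card →
    c * ((x / (Real.log x) ^ (k + 1)) *
        ∑ E ∈ B.powersetCard (k + 1), singularSeries (translate0 E)) ≤
      ∑ E ∈ B.powersetCard (k + 1), (tupleCount x (translate0 E) : ℝ) ∧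
    c * ∑ E ∈ B.powersetCard (k + 1), singularSeries (translate0 E) ≤
      ∑ E ∈ (B.powersetCard (k + 1)).filter (fun E =>
        c * (singularSeries (translate0 E) * (x / (Real.log x) ^ (k + 1))) ≤
          (tupleCount x (translate0 E) : ℝ)), singularSeries (translate0 E) := by
  obtain ⟨c1, hc1, h1⟩ := small_x k η hη hb
  obtain ⟨C, hC, h2⟩ := pi_upper k
  obtain ⟨M, hM, hmean⟩ := sing_mean k (1 / 2) (by norm_num)
  obtain ⟨c, hc⟩ : ∃ c : ℝ, c = min (c1 / 2) (c1 / (4 * C)) := ⟨_, rfl⟩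
  have hc0 : 0 < c := by
    rw [hc]
    exact lt_min (by positivity) (by positivity)
  have hcc1 : c ≤ c1 / 2 := by rw [hc]; exact min_le_left _ _
  have hcC : c * C ≤ c1 / 4 := by
    have h3 : c ≤ c1 / (4 * C) := by rw [hc]; exact min_le_right _ _
    calc c * C ≤ c1 / (4 * C) * C := mul_le_mul_of_nonneg_right h3 hC.le
      _ = c1 / 4 := by field_simp
  refine ⟨c, hc0, fun A => ?_⟩
  obtain ⟨X, hX⟩ := h1 A
  have hQt : ∀ᶠ x : ℝ in atTop, 8 * ((k:ℝ) + 1) / c1 ≤ x / (Real.log x) ^ (k + 1) := by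
    have h3 := (Real.isLittleO_pow_log_id_atTop (n := k + 1)).def
      (c := c1 / (8 * ((k:ℝ) + 1))) (by positivity)
    filter_upwards [h3, eventually_gt_atTop (1:ℝ)] with x hx hx1
    have hl : 0 < Real.log x := Real.log_pos hx1
    rw [Real.norm_of_nonneg (by positivity), id, Real.norm_of_nonneg (by linarith)] at hx
    rw [le_div_iff₀ (by positivity)]
    calc 8 * ((k:ℝ) + 1) / c1 * (Real.log x) ^ (k + 1) ≤
          8 * ((k:ℝ) + 1) / c1 * (c1 / (8 * ((k:ℝ) + 1)) * x) :=
          mul_le_mul_of_nonneg_left hx (by positivity)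
      _ = x := by field_simp
  have hev4 : ∀ᶠ x : ℝ in atTop, M / η ≤ Real.log x :=
    Real.tendsto_log_atTop.eventually_ge_atTop _
  obtain ⟨X', hX'⟩ := Filter.eventually_atTop.1 (h2.and (hQt.and (hev4.and
    (eventually_gt_atTop 1))))
  refine ⟨max X X', fun x hx B hB hBc => ?_⟩
  have h3 := hX x ((le_max_left _ _).trans hx) B hB hBc
  obtain ⟨h4, h5, h6, h7⟩ := hX' x ((le_max_right _ _).trans hx)
  have hx0 : 0 < x := by linarith
  have hlog : 0 < Real.log x := Real.log_pos h7
  obtain ⟨Q, hQ⟩ : ∃ Q : ℝ, Q = x / (Real.log x) ^ (k + 1) := ⟨_, rfl⟩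
  have hQ0 : 0 < Q := by rw [hQ]; positivity
  rw [← hQ] at h3 h4 h5 ⊢
  obtain ⟨SB, hSB⟩ : ∃ SB : ℝ, SB = ∑ E ∈ B.powersetCard (k + 1), singularSeries (translate0 E) :=
    ⟨_, rfl⟩
  have hS0 : ∀ E : Finset ℕ, 0 ≤ singularSeries (translate0 E) := fun E => singularSeries_nonneg _
  have hSB0 : 0 ≤ SB := by
    rw [hSB]
    exact sum_nonneg fun E _ => hS0 E
  rw [← hSB] at h3 ⊢
  have hmB : ((B.card).choose (k + 1) : ℝ) ≤ 2 * SB := by
    have h8 : M ≤ B.card := by
      rw [div_le_iff₀ hη] at h6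
      linarith
    have h9 := hmean B h8
    have h10 : SB = ∑ E ∈ B.powersetCard (k + 1), singularSeries E := by
      rw [hSB]
      exact sum_congr rfl fun E _ => Pool.Agent.HL26.singularSeries_translate0 E
    rw [← h10] at h9
    linarith
  refine ⟨?_, ?_⟩
  · refine le_trans ?_ h3
    exact mul_le_mul_of_nonneg_right (by linarith) (by positivity)
  · obtain ⟨G, hG⟩ : ∃ G : Finset (Finset ℕ), G = (B.powersetCard (k + 1)).filter (fun E =>
        c * (singularSeries (translate0 E) * Q) ≤ (tupleCount x (translate0 E) : ℝ)) := ⟨_, rfl⟩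
    have hsplit := sum_filter_add_sum_filter_not (B.powersetCard (k + 1)) (fun E =>
        c * (singularSeries (translate0 E) * Q) ≤ (tupleCount x (translate0 E) : ℝ))
        (fun E => (tupleCount x (translate0 E) : ℝ))
    rw [← hsplit] at h3
    rw [← hG] at h3 ⊢
    have hbad : ∑ E ∈ (B.powersetCard (k + 1)).filter (fun E =>
        ¬ (c * (singularSeries (translate0 E) * Q) ≤ (tupleCount x (translate0 E) : ℝ))),
          (tupleCount x (translate0 E) : ℝ) ≤ c * Q * SB := by
      calc _ ≤ ∑ E ∈ (B.powersetCard (k + 1)).filter (fun E =>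
            ¬ (c * (singularSeries (translate0 E) * Q) ≤ (tupleCount x (translate0 E) : ℝ))),
              c * Q * singularSeries (translate0 E) := by
            refine sum_le_sum fun E hE => ?_
            have h8 := (mem_filter.1 hE).2
            push Not at h8
            linarith
        _ ≤ ∑ E ∈ B.powersetCard (k + 1), c * Q * singularSeries (translate0 E) :=
            sum_le_sum_of_subset_of_nonneg (filter_subset _ _) fun E _ _ =>
              mul_nonneg (by positivity) (hS0 E)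
        _ = c * Q * SB := by rw [← mul_sum, hSB]
    have hgood : ∑ E ∈ G, (tupleCount x (translate0 E) : ℝ) ≤
        C * Q * ∑ E ∈ G, singularSeries (translate0 E) + c1 / 4 * (Q * SB) := by
      have h8 : ∑ E ∈ G, (tupleCount x (translate0 E) : ℝ) ≤
          ∑ E ∈ G, (C * Q * singularSeries (translate0 E) + ((k + 1 : ℕ) : ℝ)) := by
        refine sum_le_sum fun E hE => ?_
        rw [hG] at hE
        have h9 := h4 E (mem_powersetCard.1 (mem_filter.1 hE).1).2
        linarith
      refine h8.trans ?_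
      rw [sum_add_distrib, ← mul_sum, sum_const, nsmul_eq_mul]
      have h9 : (G.card : ℝ) ≤ ((B.card).choose (k + 1) : ℝ) := by
        have h10 : G.card ≤ (B.card).choose (k + 1) := by
          rw [← card_powersetCard, hG]
          exact card_filter_le _ _
        exact_mod_cast h10
      have h11 : (G.card : ℝ) * ((k + 1 : ℕ) : ℝ) ≤ (2 * SB) * ((k + 1 : ℕ) : ℝ) :=
        mul_le_mul_of_nonneg_right (h9.trans hmB) (Nat.cast_nonneg _)
      have h12 : (2 * SB) * ((k + 1 : ℕ) : ℝ) ≤ c1 / 4 * (Q * SB) := by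
        push_cast
        have h13 : 8 * ((k:ℝ) + 1) ≤ Q * c1 := by
          rwa [div_le_iff₀ hc1] at h5
        nlinarith [mul_le_mul_of_nonneg_right h13 hSB0]
      linarith
    have h8 : c1 * (Q * SB) ≤ C * Q * ∑ E ∈ G, singularSeries (translate0 E) +
        c1 / 4 * (Q * SB) + c * Q * SB := by linarith
    have h9 : c * Q * SB ≤ c1 / 2 * (Q * SB) := by
      rw [mul_assoc]
      exact mul_le_mul_of_nonneg_right hcc1 (by positivity)
    have h10 : c1 / 4 * (Q * SB) ≤ C * Q * ∑ E ∈ G, singularSeries (translate0 E) := by linarith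
    have h11 : (C * Q) * (c * SB) ≤ (C * Q) * ∑ E ∈ G, singularSeries (translate0 E) := by
      refine le_trans ?_ h10
      calc (C * Q) * (c * SB) = (c * C) * (Q * SB) := by ring
        _ ≤ c1 / 4 * (Q * SB) := mul_le_mul_of_nonneg_right hcC (by positivity)
    exact le_of_mul_le_mul_left h11 (by positivity)

end Pool.Agent.HLE
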