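import Mathlib
import Pool.Agent.HLE.May5
import Pool.Agent.HLE.May6a

/-!
Every family of subsets of a small set of shifts (MP_485179_nt, helper34).
-/

set_option autoImplicit false

namespace Pool.Agent.HLE

open Finset Filter H34P Pool.Agent.HLT Pool.Agent.HL26 Pool.Agent.Maynard

/-- the block form -/
theorem smallBlock_of (k : ℕ) (η : ℝ) (hη : 0 < η) (hcs : ClassSmall k (η / 2)) :
    SmallBlock k η := by
  obtain ⟨c, hc, h⟩ := small_block k η hη hcs
  refine ⟨c, hc, fun A => ?_⟩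
  filter_upwards [h A] with N hN B hB hBc
  have h1 := hN B hB hBc
  unfold AN
  rw [← mul_assoc]
  exact h1

/-- every family of subsets of a small set of shifts -/
theorem small_fam (k : ℕ) (η : ℝ) (hη : 0 < η) (hcs : ClassSmall k (η / 2)) (η' : ℝ)
    (hη' : 0 < η') : ∃ c C : ℝ, 0 < c ∧ 0 < C ∧ ∀ A : ℕ, ∃ X : ℝ, ∀ x : ℝ, X ≤ x →
    ∀ B : Finset ℕ, (∀ b ∈ B, (b:ℝ) ≤ (Real.log x) ^ A) → η * Real.log x ≤ B.card →
    ∀ G : Finset (Finset ℕ), G ⊆ B.powersetCard (k + 1) →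
      (x / (Real.log x) ^ (k + 1)) *
        (c * ∑ E ∈ B.powersetCard (k + 1), singularSeries (translate0 E) -
          C * ∑ E ∈ B.powersetCard (k + 1) \ G, singularSeries (translate0 E)) ≤
        ∑ E ∈ G, (tupleCount x (translate0 E) : ℝ) ∧
      ∑ E ∈ G, (tupleCount x (translate0 E) : ℝ) ≤ (x / (Real.log x) ^ (k + 1)) *
        (C * ∑ E ∈ G, singularSeries (translate0 E) +
          η' * ∑ E ∈ B.powersetCard (k + 1), singularSeries (translate0 E)) := by
  classical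
  obtain ⟨c1, hc1, h1⟩ := small_x k η hη (smallBlock_of k η hη hcs)
  obtain ⟨C, hC, h2⟩ := pi_upper k
  obtain ⟨M, hM, hmean⟩ := sing_mean k (1 / 2) (by norm_num)
  obtain ⟨μ, hμ⟩ : ∃ μ : ℝ, μ = min η' (c1 / 2) := ⟨_, rfl⟩
  have hμ0 : 0 < μ := by rw [hμ]; exact lt_min hη' (by positivity)
  have hμ1 : μ ≤ η' := by rw [hμ]; exact min_le_left _ _
  have hμ2 : μ ≤ c1 / 2 := by rw [hμ]; exact min_le_right _ _
  refine ⟨c1 / 2, C, by positivity, hC, fun A => ?_⟩
  obtain ⟨X, hX⟩ := h1 A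
  have hQt : ∀ᶠ x : ℝ in atTop, 2 * ((k:ℝ) + 1) / μ ≤ x / (Real.log x) ^ (k + 1) := by
    have h3 := (Real.isLittleO_pow_log_id_atTop (n := k + 1)).def
      (c := μ / (2 * ((k:ℝ) + 1))) (by positivity)
    filter_upwards [h3, eventually_gt_atTop (1:ℝ)] with x hx hx1
    have hl : 0 < Real.log x := Real.log_pos hx1
    rw [Real.norm_of_nonneg (by positivity), id, Real.norm_of_nonneg (by linarith)] at hx
    rw [le_div_iff₀ (by positivity)]
    calc 2 * ((k:ℝ) + 1) / μ * (Real.log x) ^ (k + 1) ≤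
          2 * ((k:ℝ) + 1) / μ * (μ / (2 * ((k:ℝ) + 1)) * x) :=
          mul_le_mul_of_nonneg_left hx (by positivity)
      _ = x := by field_simp
  have hev4 : ∀ᶠ x : ℝ in atTop, M / η ≤ Real.log x :=
    Real.tendsto_log_atTop.eventually_ge_atTop _
  obtain ⟨X', hX'⟩ := Filter.eventually_atTop.1 (h2.and (hQt.and (hev4.and
    (eventually_gt_atTop 1))))
  refine ⟨max X X', fun x hx B hB hBc => ?_⟩
  have h3 := hX x ((le_max_left _ _).trans hx) B hB hBc
  obtain ⟨h4, h5, h6, h7⟩ := hX' x ((le_max_right _ _).trans hx)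
  have hx0 : 0 < x := by linarith
  have hlog : 0 < Real.log x := Real.log_pos h7
  obtain ⟨Q, hQ⟩ : ∃ Q : ℝ, Q = x / (Real.log x) ^ (k + 1) := ⟨_, rfl⟩
  have hQ0 : 0 < Q := by rw [hQ]; positivity
  rw [← hQ] at h3 h4 h5 ⊢
  obtain ⟨SB, hSB⟩ : ∃ SB : ℝ, SB = ∑ E ∈ B.powersetCard (k + 1), singularSeries (translate0 E) :=
    ⟨_, rfl⟩
  have hS0 : ∀ E : Finset ℕ, 0 ≤ singularSeries (translate0 E) := fun E => singularSeries_nonneg _
  have hSB0 : 0 ≤ SB := by
    rw [hSB]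
    exact sum_nonneg fun E _ => hS0 E
  rw [← hSB] at h3 ⊢
  have hmB : ((B.card).choose (k + 1) : ℝ) ≤ 2 * SB := by
    have h8 : M ≤ B.card := by
      rw [div_le_iff₀ hη] at h6
      linarith
    have h9 := hmean B h8
    have h10 : SB = ∑ E ∈ B.powersetCard (k + 1), singularSeries E := by
      rw [hSB]
      exact sum_congr rfl fun E _ => Pool.Agent.HL26.singularSeries_translate0 E
    rw [← h10] at h9
    linarith
  -- the upper bound for every family
  have hup : ∀ G : Finset (Finset ℕ), G ⊆ B.powersetCard (k + 1) →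
      ∑ E ∈ G, (tupleCount x (translate0 E) : ℝ) ≤
        C * Q * ∑ E ∈ G, singularSeries (translate0 E) + μ * (Q * SB) := by
    intro G hG
    have h8 : ∑ E ∈ G, (tupleCount x (translate0 E) : ℝ) ≤
        ∑ E ∈ G, (C * Q * singularSeries (translate0 E) + ((k + 1 : ℕ) : ℝ)) := by
      refine sum_le_sum fun E hE => ?_
      have h9 := h4 E (mem_powersetCard.1 (hG hE)).2
      linarith
    refine h8.trans ?_
    rw [sum_add_distrib, ← mul_sum, sum_const, nsmul_eq_mul]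
    have h9 : (G.card : ℝ) ≤ ((B.card).choose (k + 1) : ℝ) := by
      have h10 : G.card ≤ (B.card).choose (k + 1) := by
        rw [← card_powersetCard]
        exact card_le_card hG
      exact_mod_cast h10
    have h11 : (G.card : ℝ) * ((k + 1 : ℕ) : ℝ) ≤ (2 * SB) * ((k + 1 : ℕ) : ℝ) :=
      mul_le_mul_of_nonneg_right (h9.trans hmB) (Nat.cast_nonneg _)
    have h12 : (2 * SB) * ((k + 1 : ℕ) : ℝ) ≤ μ * (Q * SB) := by
      push_cast
      have h13 : 2 * ((k:ℝ) + 1) ≤ Q * μ := by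
        rwa [div_le_iff₀ hμ0] at h5
      nlinarith [mul_le_mul_of_nonneg_right h13 hSB0]
    linarith
  intro G hG
  obtain ⟨SG, hSG⟩ : ∃ SG : ℝ, SG = ∑ E ∈ G, singularSeries (translate0 E) := ⟨_, rfl⟩
  obtain ⟨SC, hSC⟩ : ∃ SC : ℝ, SC = ∑ E ∈ B.powersetCard (k + 1) \ G,
    singularSeries (translate0 E) := ⟨_, rfl⟩
  have b1 := hup G hG
  have b2 := hup (B.powersetCard (k + 1) \ G) sdiff_subset
  have b3 := sum_sdiff hG (f := fun E => (tupleCount x (translate0 E) : ℝ))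
  rw [← hSG] at b1 ⊢
  rw [← hSC] at b2 ⊢
  have hQS : 0 ≤ Q * SB := by positivity
  constructor
  · have e1 : Q * (c1 / 2 * SB - C * SC) = c1 * (Q * SB) - (C * Q * SC + μ * (Q * SB)) -
        (c1 / 2 - μ) * (Q * SB) := by ring
    have e2 : 0 ≤ (c1 / 2 - μ) * (Q * SB) := mul_nonneg (by linarith) hQS
    rw [← b3] at h3
    linarith
  · have e1 : Q * (C * SG + η' * SB) = C * Q * SG + μ * (Q * SB) + (η' - μ) * (Q * SB) := by ring
    have e2 : 0 ≤ (η' - μ) * (Q * SB) := mul_nonneg (by linarith) hQS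
    linarith

end Pool.Agent.HLE
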