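import Mathlib
import Pool.Agent.HLE.May5u
import Pool.Agent.HLE.May6a

/-!
The uniform form of the final step of SmallSets: from one block to `x`, and the mass of the good
tuples (MP_485179_nt, helper34).
-/

set_option autoImplicit false

namespace Pool.Agent.HLE

open Finset Filter H34P Pool.Agent.HLT Pool.Agent.HL26 Pool.Agent.Maynard

/-- lower bound in one block, uniform in the number of shifts -/
def SmallBlockU (k r : ℕ) : Prop := ∃ c : ℝ, 0 < c ∧ ∀ A : ℕ, ∀ᶠ N : ℕ in atTop,
  ∀ B : Finset ℕ, (∀ b ∈ B, (b:ℝ) ≤ (Real.log N) ^ A) → 1 ≤ B.card →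
    4 * (r:ℝ) ≤ cW (Wp (wN N)) * B.card →
    c * (min 1 ((B.card : ℝ) / Real.log N)) ^ r *
        (((N:ℝ) / (Real.log N) ^ (k + 1)) * ∑ E ∈ B.powersetCard (k + 1), singularSeries E) ≤
      ∑ E ∈ B.powersetCard (k + 1), (AN N E : ℝ)

/-- the block form -/
theorem smallBlockU_of (k r : ℕ) (hcs : ClassU k r) : SmallBlockU k r := by
  obtain ⟨c, hc, h⟩ := small_blockU k r hcs
  refine ⟨c, hc, fun A => ?_⟩
  filter_upwards [h A] with N hN B hB hB1 hBc
  have h1 := hN B hB hB1 hBc
  unfold AN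
  rw [← mul_assoc]
  exact h1

/-- from the block to `x` -/
theorem small_xU (k r : ℕ) (hb : SmallBlockU k r) : ∃ c : ℝ, 0 < c ∧
    ∀ A : ℕ, ∃ X : ℝ, ∀ x : ℝ, X ≤ x → ∀ B : Finset ℕ, (∀ b ∈ B, (b:ℝ) ≤ (Real.log x) ^ A) →
    Real.log (Real.log x) ≤ B.card →
    c * (min 1 ((B.card : ℝ) / Real.log x)) ^ r * ((x / (Real.log x) ^ (k + 1)) *
        ∑ E ∈ B.powersetCard (k + 1), singularSeries (translate0 E)) ≤
      ∑ E ∈ B.powersetCard (k + 1), (tupleCount x (translate0 E) : ℝ) := by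
  obtain ⟨c, hc, h⟩ := hb
  obtain ⟨c0, hc0, hcW⟩ := cW_lower
  refine ⟨c / 4, by positivity, fun A => ?_⟩
  have hNt : Tendsto (fun x : ℝ => ⌊x / 3⌋₊) atTop atTop :=
    tendsto_nat_floor_atTop.comp (tendsto_id.atTop_div_const (by norm_num))
  have hpw : ∀ᶠ x : ℝ in atTop, (Real.log x) ^ A ≤ x / 12 := by
    have h1 := (Real.isLittleO_pow_log_id_atTop (n := A)).def (c := 1 / 12) (by norm_num)
    filter_upwards [h1, eventually_gt_atTop (1:ℝ)] with x hx hx1
    have hl : 0 < Real.log x := Real.log_pos hx1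
    rw [Real.norm_of_nonneg (by positivity), id, Real.norm_of_nonneg (by linarith)] at hx
    linarith
  have hlog2 : ∀ᶠ x : ℝ in atTop, (2:ℝ) ^ A ≤ Real.log x ∧ 2 * Real.log 4 ≤ Real.log x :=
    (Real.tendsto_log_atTop.eventually_ge_atTop _).and
      (Real.tendsto_log_atTop.eventually_ge_atTop _)
  have hlogN : ∀ᶠ x : ℝ in atTop, (2:ℝ) ^ A ≤ Real.log ((⌊x / 3⌋₊ : ℕ) : ℝ) ∧
      1 ≤ Real.log (Real.log ((⌊x / 3⌋₊ : ℕ) : ℝ)) ∧ 2 ≤ wN ⌊x / 3⌋₊ :=
    (hNt.eventually (tendsto_logN.eventually_ge_atTop _)).and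
      ((hNt.eventually (tendsto_loglogN.eventually_ge_atTop _)).and
        (hNt.eventually (ev_w_ge 2)))
  -- `log y ≤ δ y`
  have hll : ∀ᶠ x : ℝ in atTop, 4 * (r:ℝ) * Real.log (Real.log (Real.log x)) ≤
      c0 * Real.log (Real.log x) := by
    have h1 : ∀ᶠ y : ℝ in atTop, 4 * (r:ℝ) * Real.log y ≤ c0 * y := by
      have h2 := Real.isLittleO_log_id_atTop.def (c := c0 / (4 * r + 1)) (by positivity)
      filter_upwards [h2, eventually_gt_atTop (1:ℝ)] with y hy hy1
      have hl : 0 < Real.log y := Real.log_pos hy1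
      rw [Real.norm_of_nonneg hl.le, id, Real.norm_of_nonneg (by linarith)] at hy
      calc 4 * (r:ℝ) * Real.log y ≤ (4 * r + 1) * Real.log y := by linarith
        _ ≤ (4 * r + 1) * (c0 / (4 * r + 1) * y) := mul_le_mul_of_nonneg_left hy (by positivity)
        _ = c0 * y := by field_simp
    exact (Real.tendsto_log_atTop.comp Real.tendsto_log_atTop).eventually h1
  obtain ⟨X, hX⟩ := Filter.eventually_atTop.1 ((hNt.eventually (h (A + 1))).and
    (hpw.and (hlog2.and (hlogN.and (hll.and (eventually_ge_atTop 24))))))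
  refine ⟨X, fun x hx B hB hBc => ?_⟩
  obtain ⟨h1, h2, ⟨h3, h4⟩, ⟨h5, h5a, h5b⟩, h5c, h6⟩ := hX x hx
  obtain ⟨N, hN⟩ : ∃ N : ℕ, N = ⌊x / 3⌋₊ := ⟨_, rfl⟩
  rw [← hN] at h1 h5 h5a h5b
  have hx0 : 0 < x := by linarith
  have hNle : (N:ℝ) ≤ x / 3 := by
    rw [hN]
    exact Nat.floor_le (by positivity)
  have hNge : x / 4 ≤ N := by
    have h7 : x / 3 < N + 1 := by
      rw [hN]
      exact Nat.lt_floor_add_one _
    linarith
  have hN0 : (0:ℝ) < N := by linarith
  have hlogx : 0 < Real.log x := Real.log_pos (by linarith)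
  have hlogNx : Real.log N ≤ Real.log x := Real.log_le_log hN0 (by linarith)
  have hlogNge : Real.log x / 2 ≤ Real.log N := by
    have h7 : Real.log (x / 4) ≤ Real.log N := Real.log_le_log (by positivity) hNge
    rw [Real.log_div hx0.ne' (by norm_num)] at h7
    linarith
  have hlogN0 : 0 < Real.log N := by linarith
  have hBN : ∀ b ∈ B, (b:ℝ) ≤ (Real.log N) ^ (A + 1) := by
    intro b hbB
    calc (b:ℝ) ≤ (Real.log x) ^ A := hB b hbB
      _ ≤ (2 * Real.log N) ^ A := pow_le_pow_left₀ hlogx.le (by linarith) _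
      _ = 2 ^ A * (Real.log N) ^ A := mul_pow _ _ _
      _ ≤ Real.log N * (Real.log N) ^ A := mul_le_mul_of_nonneg_right h5 (by positivity)
      _ = (Real.log N) ^ (A + 1) := by ring
  -- the size of `B`
  have hlogNe : Real.log (Real.log N) ≤ Real.log (Real.log x) := Real.log_le_log hlogN0 hlogNx
  have hsize : 4 * (r:ℝ) ≤ cW (Wp (wN N)) * B.card := by
    have hw2 : (2:ℝ) ≤ wN N := by exact_mod_cast h5b
    have hlw : 0 < Real.log (wN N) := Real.log_pos (by linarith)
    have hwle : (wN N : ℝ) ≤ Real.log (Real.log x) := by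
      have := w_le N (by linarith)
      linarith
    have hlwle : Real.log (wN N) ≤ Real.log (Real.log (Real.log x)) :=
      Real.log_le_log (by linarith) hwle
    have h8 := hcW (wN N) h5b
    have h9 : c0 / Real.log (wN N) * Real.log (Real.log x) ≤ cW (Wp (wN N)) * B.card :=
      mul_le_mul h8 hBc (by linarith) (cW_nonneg _)
    refine le_trans ?_ h9
    rw [div_mul_eq_mul_div, le_div_iff₀ hlw]
    refine le_trans ?_ h5c
    exact mul_le_mul_of_nonneg_left hlwle (by positivity)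
  have hB1 : 1 ≤ B.card := by
    have h8 : (1:ℝ) ≤ B.card := h5a.trans (hlogNe.trans hBc)
    exact_mod_cast h8
  have h7 := h1 B hBN hB1 hsize
  have hterm : ∀ E ∈ B.powersetCard (k + 1), (AN N E : ℝ) ≤ (tupleCount x (translate0 E) : ℝ) := by
    intro E hE
    obtain ⟨hEB, hEc⟩ := mem_powersetCard.1 hE
    have hne : E.Nonempty := by
      rw [← card_pos, hEc]
      omega
    have h8 := count_le_tupleCount E ⌊(Real.log x) ^ A⌋₊ (2 * N) x hne
      (fun e he => Nat.le_floor (hB e (hEB he))) (by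
        apply Nat.le_floor
        push_cast
        have h9 : ((⌊(Real.log x) ^ A⌋₊ : ℕ) : ℝ) ≤ (Real.log x) ^ A :=
          Nat.floor_le (by positivity)
        linarith)
    have h9 : AN N E ≤ ((Finset.Icc 1 (2 * N)).filter (fun n => ∀ e ∈ E, Nat.Prime (n + e))).card := by
      unfold AN
      apply card_le_card
      intro n hn
      rw [mem_filter, mem_Ioc] at hn
      rw [mem_filter, mem_Icc]
      exact ⟨⟨by omega, hn.1.2⟩, hn.2⟩
    exact_mod_cast h9.trans h8
  refine le_trans ?_ (h7.trans (sum_le_sum hterm))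
  simp only [Pool.Agent.HL26.singularSeries_translate0]
  have hS0 : 0 ≤ ∑ E ∈ B.powersetCard (k + 1), singularSeries E :=
    sum_nonneg fun E _ => singularSeries_nonneg E
  have hQ : x / (Real.log x) ^ (k + 1) ≤ 4 * ((N:ℝ) / (Real.log N) ^ (k + 1)) := by
    have h8 : (Real.log N) ^ (k + 1) ≤ (Real.log x) ^ (k + 1) :=
      pow_le_pow_left₀ hlogN0.le hlogNx _
    calc x / (Real.log x) ^ (k + 1) ≤ (4 * N) / (Real.log x) ^ (k + 1) :=
          div_le_div_of_nonneg_right (by linarith) (by positivity)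
      _ ≤ (4 * N) / (Real.log N) ^ (k + 1) :=
          div_le_div_of_nonneg_left (by positivity) (by positivity) h8
      _ = _ := by ring
  have hmin : (min 1 ((B.card : ℝ) / Real.log x)) ^ r ≤ (min 1 ((B.card : ℝ) / Real.log N)) ^ r := by
    refine pow_le_pow_left₀ (le_min zero_le_one (by positivity)) (min_le_min le_rfl ?_) r
    exact div_le_div_of_nonneg_left (Nat.cast_nonneg _) hlogN0 hlogNx
  have hm0 : 0 ≤ (min 1 ((B.card : ℝ) / Real.log x)) ^ r :=
    pow_nonneg (le_min zero_le_one (by positivity)) r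
  have h8 := mul_le_mul_of_nonneg_right hQ hS0
  have h10 : 0 ≤ ((N:ℝ) / (Real.log N) ^ (k + 1)) * ∑ E ∈ B.powersetCard (k + 1), singularSeries E := by
    positivity
  calc c / 4 * (min 1 ((B.card : ℝ) / Real.log x)) ^ r * (x / (Real.log x) ^ (k + 1) *
        ∑ E ∈ B.powersetCard (k + 1), singularSeries E) ≤
      c / 4 * (min 1 ((B.card : ℝ) / Real.log x)) ^ r * (4 * ((N:ℝ) / (Real.log N) ^ (k + 1)) *
        ∑ E ∈ B.powersetCard (k + 1), singularSeries E) :=
        mul_le_mul_of_nonneg_left h8 (by positivity)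
    _ = (c * (((N:ℝ) / (Real.log N) ^ (k + 1)) *
        ∑ E ∈ B.powersetCard (k + 1), singularSeries E)) *
          (min 1 ((B.card : ℝ) / Real.log x)) ^ r := by ring
    _ ≤ (c * (((N:ℝ) / (Real.log N) ^ (k + 1)) *
        ∑ E ∈ B.powersetCard (k + 1), singularSeries E)) *
          (min 1 ((B.card : ℝ) / Real.log N)) ^ r :=
        mul_le_mul_of_nonneg_left hmin (by positivity)
    _ = _ := by ring

open Classical in
/-- **small sets, uniform form**: the mass of the good tuples -/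
theorem small_setsU_of (k r : ℕ) (hb : SmallBlockU k r) : ∃ c : ℝ, 0 < c ∧
    ∀ A : ℕ, ∃ X : ℝ, ∀ x : ℝ, X ≤ x → ∀ B : Finset ℕ, (∀ b ∈ B, (b:ℝ) ≤ (Real.log x) ^ A) →
    Real.log (Real.log x) ≤ B.card →
    c * (min 1 ((B.card : ℝ) / Real.log x)) ^ r * ((x / (Real.log x) ^ (k + 1)) *
        ∑ E ∈ B.powersetCard (k + 1), singularSeries (translate0 E)) ≤
      ∑ E ∈ B.powersetCard (k + 1), (tupleCount x (translate0 E) : ℝ) ∧
    c * (min 1 ((B.card : ℝ) / Real.log x)) ^ r *
        ∑ E ∈ B.powersetCard (k + 1), singularSeries (translate0 E) ≤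
      ∑ E ∈ (B.powersetCard (k + 1)).filter (fun E =>
        c * (min 1 ((B.card : ℝ) / Real.log x)) ^ r *
            (singularSeries (translate0 E) * (x / (Real.log x) ^ (k + 1))) ≤
          (tupleCount x (translate0 E) : ℝ)), singularSeries (translate0 E) := by
  obtain ⟨c1, hc1, h1⟩ := small_xU k r hb
  obtain ⟨C, hC, h2⟩ := pi_upper k
  obtain ⟨M, hM, hmean⟩ := sing_mean k (1 / 2) (by norm_num)
  obtain ⟨c, hc⟩ : ∃ c : ℝ, c = min (c1 / 2) (c1 / (4 * C)) := ⟨_, rfl⟩
  have hc0 : 0 < c := by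
    rw [hc]
    exact lt_min (by positivity) (by positivity)
  have hcc1 : c ≤ c1 / 2 := by rw [hc]; exact min_le_left _ _
  have hcC : c * C ≤ c1 / 4 := by
    have h3 : c ≤ c1 / (4 * C) := by rw [hc]; exact min_le_right _ _
    calc c * C ≤ c1 / (4 * C) * C := mul_le_mul_of_nonneg_right h3 hC.le
      _ = c1 / 4 := by field_simp
  refine ⟨c, hc0, fun A => ?_⟩
  obtain ⟨X, hX⟩ := h1 A
  have hQt : ∀ᶠ x : ℝ in atTop, 8 * ((k:ℝ) + 1) / c1 ≤ x / (Real.log x) ^ (k + 1 + r) := by
    have h3 := (Real.isLittleO_pow_log_id_atTop (n := k + 1 + r)).def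
      (c := c1 / (8 * ((k:ℝ) + 1))) (by positivity)
    filter_upwards [h3, eventually_gt_atTop (1:ℝ)] with x hx hx1
    have hl : 0 < Real.log x := Real.log_pos hx1
    rw [Real.norm_of_nonneg (by positivity), id, Real.norm_of_nonneg (by linarith)] at hx
    rw [le_div_iff₀ (by positivity)]
    calc 8 * ((k:ℝ) + 1) / c1 * (Real.log x) ^ (k + 1 + r) ≤
          8 * ((k:ℝ) + 1) / c1 * (c1 / (8 * ((k:ℝ) + 1)) * x) :=
          mul_le_mul_of_nonneg_left hx (by positivity)
      _ = x := by field_simp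
  have hev4 : ∀ᶠ x : ℝ in atTop, max M 1 ≤ Real.log (Real.log x) :=
    (Real.tendsto_log_atTop.comp Real.tendsto_log_atTop).eventually_ge_atTop _
  obtain ⟨X', hX'⟩ := Filter.eventually_atTop.1 (h2.and (hQt.and (hev4.and
    ((Real.tendsto_log_atTop.eventually_ge_atTop 1).and (eventually_gt_atTop 1)))))
  refine ⟨max X X', fun x hx B hB hBc => ?_⟩
  have h3 := hX x ((le_max_left _ _).trans hx) B hB hBc
  obtain ⟨h4, h5, h6, h6a, h7⟩ := hX' x ((le_max_right _ _).trans hx)
  have hx0 : 0 < x := by linarith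
  have hlog : 0 < Real.log x := Real.log_pos h7
  obtain ⟨Q, hQ⟩ : ∃ Q : ℝ, Q = x / (Real.log x) ^ (k + 1) := ⟨_, rfl⟩
  have hQ0 : 0 < Q := by rw [hQ]; positivity
  obtain ⟨u, hu⟩ : ∃ u : ℝ, u = (min 1 ((B.card : ℝ) / Real.log x)) ^ r := ⟨_, rfl⟩
  have hcard1 : (1:ℝ) ≤ B.card := (le_max_right M 1).trans (h6.trans hBc)
  have hmin : 1 / Real.log x ≤ min 1 ((B.card : ℝ) / Real.log x) := by
    refine le_min ?_ (div_le_div_of_nonneg_right hcard1 hlog.le)
    rw [div_le_one hlog]
    exact h6a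
  have hm0 : 0 < min 1 ((B.card : ℝ) / Real.log x) := lt_of_lt_of_le (by positivity) hmin
  have hu0 : 0 < u := by rw [hu]; exact pow_pos hm0 r
  have hQu : 8 * ((k:ℝ) + 1) / c1 ≤ u * Q := by
    refine h5.trans ?_
    have h8 : (1 / Real.log x) ^ r ≤ u := by
      rw [hu]
      exact pow_le_pow_left₀ (by positivity) hmin r
    calc x / (Real.log x) ^ (k + 1 + r) = (1 / Real.log x) ^ r * Q := by
          rw [hQ, pow_add, div_pow, one_pow]
          field_simp
      _ ≤ u * Q := mul_le_mul_of_nonneg_right h8 hQ0.le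
  rw [← hQ, ← hu] at h3 ⊢
  rw [← hQ] at h4
  obtain ⟨SB, hSB⟩ : ∃ SB : ℝ, SB = ∑ E ∈ B.powersetCard (k + 1), singularSeries (translate0 E) :=
    ⟨_, rfl⟩
  have hS0 : ∀ E : Finset ℕ, 0 ≤ singularSeries (translate0 E) := fun E => singularSeries_nonneg _
  have hSB0 : 0 ≤ SB := by
    rw [hSB]
    exact sum_nonneg fun E _ => hS0 E
  rw [← hSB] at h3 ⊢
  have hmB : ((B.card).choose (k + 1) : ℝ) ≤ 2 * SB := by
    have h8 : M ≤ B.card := (le_max_left M 1).trans (h6.trans hBc)
    have h9 := hmean B h8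
    have h10 : SB = ∑ E ∈ B.powersetCard (k + 1), singularSeries E := by
      rw [hSB]
      exact sum_congr rfl fun E _ => Pool.Agent.HL26.singularSeries_translate0 E
    rw [← h10] at h9
    linarith
  refine ⟨?_, ?_⟩
  · refine le_trans ?_ h3
    refine mul_le_mul_of_nonneg_right ?_ (by positivity)
    exact mul_le_mul_of_nonneg_right (by linarith) hu0.le
  · obtain ⟨G, hG⟩ : ∃ G : Finset (Finset ℕ), G = (B.powersetCard (k + 1)).filter (fun E =>
        c * u * (singularSeries (translate0 E) * Q) ≤ (tupleCount x (translate0 E) : ℝ)) := ⟨_, rfl⟩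
    have hsplit := sum_filter_add_sum_filter_not (B.powersetCard (k + 1)) (fun E =>
        c * u * (singularSeries (translate0 E) * Q) ≤ (tupleCount x (translate0 E) : ℝ))
        (fun E => (tupleCount x (translate0 E) : ℝ))
    rw [← hsplit] at h3
    rw [← hG] at h3 ⊢
    have hbad : ∑ E ∈ (B.powersetCard (k + 1)).filter (fun E =>
        ¬ (c * u * (singularSeries (translate0 E) * Q) ≤ (tupleCount x (translate0 E) : ℝ))),
          (tupleCount x (translate0 E) : ℝ) ≤ c * u * Q * SB := by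
      calc _ ≤ ∑ E ∈ (B.powersetCard (k + 1)).filter (fun E =>
            ¬ (c * u * (singularSeries (translate0 E) * Q) ≤ (tupleCount x (translate0 E) : ℝ))),
              c * u * Q * singularSeries (translate0 E) := by
            refine sum_le_sum fun E hE => ?_
            have h8 := (mem_filter.1 hE).2
            push Not at h8
            linarith
        _ ≤ ∑ E ∈ B.powersetCard (k + 1), c * u * Q * singularSeries (translate0 E) :=
            sum_le_sum_of_subset_of_nonneg (filter_subset _ _) fun E _ _ =>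
              mul_nonneg (by positivity) (hS0 E)
        _ = c * u * Q * SB := by rw [← mul_sum, hSB]
    have hgood : ∑ E ∈ G, (tupleCount x (translate0 E) : ℝ) ≤
        C * Q * ∑ E ∈ G, singularSeries (translate0 E) + c1 / 4 * (u * Q * SB) := by
      have h8 : ∑ E ∈ G, (tupleCount x (translate0 E) : ℝ) ≤
          ∑ E ∈ G, (C * Q * singularSeries (translate0 E) + ((k + 1 : ℕ) : ℝ)) := by
        refine sum_le_sum fun E hE => ?_
        rw [hG] at hE
        have h9 := h4 E (mem_powersetCard.1 (mem_filter.1 hE).1).2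
        linarith
      refine h8.trans ?_
      rw [sum_add_distrib, ← mul_sum, sum_const, nsmul_eq_mul]
      have h9 : (G.card : ℝ) ≤ ((B.card).choose (k + 1) : ℝ) := by
        have h10 : G.card ≤ (B.card).choose (k + 1) := by
          rw [← card_powersetCard, hG]
          exact card_filter_le _ _
        exact_mod_cast h10
      have h11 : (G.card : ℝ) * ((k + 1 : ℕ) : ℝ) ≤ (2 * SB) * ((k + 1 : ℕ) : ℝ) :=
        mul_le_mul_of_nonneg_right (h9.trans hmB) (Nat.cast_nonneg _)
      have h12 : (2 * SB) * ((k + 1 : ℕ) : ℝ) ≤ c1 / 4 * (u * Q * SB) := by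
        push_cast
        have h13 : 8 * ((k:ℝ) + 1) ≤ u * Q * c1 := by
          rwa [div_le_iff₀ hc1] at hQu
        nlinarith [mul_le_mul_of_nonneg_right h13 hSB0]
      linarith
    have h8 : c1 * (u * Q * SB) ≤ C * Q * ∑ E ∈ G, singularSeries (translate0 E) +
        c1 / 4 * (u * Q * SB) + c * (u * Q * SB) := by
      have e1 : c1 * u * (Q * SB) = c1 * (u * Q * SB) := by ring
      have e2 : c * u * Q * SB = c * (u * Q * SB) := by ring
      rw [e1] at h3
      rw [e2] at hbad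
      linarith
    have h9 : c * (u * Q * SB) ≤ c1 / 2 * (u * Q * SB) :=
      mul_le_mul_of_nonneg_right hcc1 (by positivity)
    have h10 : c1 / 4 * (u * Q * SB) ≤ C * Q * ∑ E ∈ G, singularSeries (translate0 E) := by linarith
    have h11 : (C * Q) * (c * u * SB) ≤ (C * Q) * ∑ E ∈ G, singularSeries (translate0 E) := by
      refine le_trans ?_ h10
      calc (C * Q) * (c * u * SB) = (c * C) * (u * Q * SB) := by ring
        _ ≤ c1 / 4 * (u * Q * SB) := mul_le_mul_of_nonneg_right hcC (by positivity)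
    exact le_of_mul_le_mul_left h11 (by positivity)

end Pool.Agent.HLE
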