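import Mathlib
import Pool.Agent.HLE.May1
import Pool.Agent.HLE.May2

/-!
Small sets of shifts: the number of shifts in Maynard's sieve.
-/

set_option autoImplicit false

namespace Pool.Agent.HLE

open Finset Filter Pool.Agent.Maynard Pool.Agent.PosProp.Main

lemma exists_hT (T : ℝ) (m : ℕ) : ∃ r : ℕ, m ≤ r ∧ T ≤ hT r := by
  obtain ⟨n, hn⟩ := exists_nat_ge (Real.exp T)
  refine ⟨max m n, le_max_left _ _, ?_⟩
  refine le_trans ?_ (hT_ge_log (max m n))
  rw [Real.le_log_iff_exp_le (by positivity)]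
  have h1 : (n:ℝ) ≤ ((max m n : ℕ) : ℝ) := by exact_mod_cast le_max_right m n
  linarith

/-- Maynard's sieve for `k + 1` primes among `r = r(k)` shifts, in every class -/
theorem exists_mayXS (k : ℕ) : ∃ r : ℕ, 100 ≤ r ∧ k + 1 ≤ r ∧ ∀ A : ℕ, MayXS r (k + 1) A := by
  obtain ⟨r, hr, hT⟩ := exists_hT (864 * (((k + 1 : ℕ) : ℝ) + 1) * 64) (100 + (k + 1))
  exact ⟨r, by omega, by omega, fun A => may_XS r (k + 1) A (by omega)
    (may_class r (k + 1) _ (by omega) hT)⟩

end Pool.Agent.HLE
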