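import Mathlib
import Pool.Agent.HLE.May6u
import Pool.Agent.HLE.May7
import Pool.Agent.HLE.SingMean
import Pool.Agent.HLE.May3
import Pool.Agent.HLE.May4
import Pool.Agent.HLE.May4u

/-!
Small sets of shifts: the theorem.
-/

set_option autoImplicit false

namespace Pool.Agent.HLE

open Finset Filter Pool.Agent.HLT Pool.Agent.HL26 Pool.Agent.Maynard

theorem every_small_set_of (k r : ℕ) (h : ClassU k r) : ∃ c : ℝ, 0 < c ∧ ∀ A : ℕ, ∃ X : ℝ,
    ∀ x : ℝ, X ≤ x → ∀ B : Finset ℕ, (∀ b ∈ B, (b:ℝ) ≤ (Real.log x) ^ A) →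
    Real.log (Real.log x) ≤ B.card →
      (1 / 2) * (B.card.choose (k + 1) : ℝ) ≤
        ∑ E ∈ B.powersetCard (k + 1), singularSeries (translate0 E) ∧
      c * (min 1 ((B.card : ℝ) / Real.log x)) ^ r *
          ∑ E ∈ B.powersetCard (k + 1), singularSeries (translate0 E) ≤
        ∑ E ∈ (B.powersetCard (k + 1)).filter (fun E =>
          c * (min 1 ((B.card : ℝ) / Real.log x)) ^ r *
            (singularSeries (translate0 E) * (x / (Real.log x) ^ (k + 1))) ≤
              (tupleCount x (translate0 E) : ℝ)), singularSeries (translate0 E) := by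
  obtain ⟨c, hc, h1⟩ := small_setsU_of k r (smallBlockU_of k r h)
  obtain ⟨M, hM, hmean⟩ := sing_mean k (1 / 2) (by norm_num)
  refine ⟨c, hc, fun A => ?_⟩
  obtain ⟨X, hX⟩ := h1 A
  obtain ⟨X1, hX1⟩ := eventually_atTop.1
    ((Real.tendsto_log_atTop.comp Real.tendsto_log_atTop).eventually_ge_atTop M)
  refine ⟨max X X1, fun x hx B hB hBc => ?_⟩
  refine ⟨?_, (hX x ((le_max_left _ _).trans hx) B hB hBc).2⟩
  simp only [Pool.Agent.HL26.singularSeries_translate0]
  have h2 := hmean B ((hX1 x ((le_max_right _ _).trans hx)).trans hBc)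
  have h3 : (1:ℝ) - 1 / 2 = 1 / 2 := by norm_num
  rw [h3] at h2
  exact h2

/-- the classes -/
theorem exists_classU (k : ℕ) : ∃ r : ℕ, ClassU k r := by
  obtain ⟨r, hr, hkr, hmay⟩ := exists_mayXS k
  exact ⟨r, classU_of r k hkr hmay (rough_momentU r hr)
    (classSmall_of r k hkr hmay (rough_moment r hr) 1 one_pos)⟩

/-- every set of at least `log log x` shifts -/
theorem every_small_set (k : ℕ) : ∃ r : ℕ, ∃ c : ℝ, 0 < c ∧ ∀ A : ℕ, ∃ X : ℝ,
    ∀ x : ℝ, X ≤ x → ∀ B : Finset ℕ, (∀ b ∈ B, (b:ℝ) ≤ (Real.log x) ^ A) →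
    Real.log (Real.log x) ≤ B.card →
      (1 / 2) * (B.card.choose (k + 1) : ℝ) ≤
        ∑ E ∈ B.powersetCard (k + 1), singularSeries (translate0 E) ∧
      c * (min 1 ((B.card : ℝ) / Real.log x)) ^ r *
          ∑ E ∈ B.powersetCard (k + 1), singularSeries (translate0 E) ≤
        ∑ E ∈ (B.powersetCard (k + 1)).filter (fun E =>
          c * (min 1 ((B.card : ℝ) / Real.log x)) ^ r *
            (singularSeries (translate0 E) * (x / (Real.log x) ^ (k + 1))) ≤
              (tupleCount x (translate0 E) : ℝ)), singularSeries (translate0 E) := by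
  obtain ⟨r, h⟩ := exists_classU k
  exact ⟨r, every_small_set_of k r h⟩

end Pool.Agent.HLE

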