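import Mathlib
import Pool.Agent.HLE.Every34
import Pool.Agent.HLE.May5

/-!
All densities: one statement for all `η > 0`.
-/

set_option autoImplicit false

namespace Pool.Agent.HLE

open Finset Filter Topology Pool.Agent.HLT Pool.Agent.HL26 Pool.Agent.Maynard

/-- the two-sided bound for every family of `(k+1)`-subsets of every set of `η log x` shifts -/
def AD (k : ℕ) (η c C δ : ℝ) : Prop :=
  ∀ A : ℕ, ∃ X : ℝ, ∀ x : ℝ, X ≤ x → ∀ B : Finset ℕ,
    (∀ b ∈ B, (b:ℝ) ≤ (Real.log x) ^ A) → η * Real.log x ≤ B.card →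
    ∀ G : Finset (Finset ℕ), G ⊆ B.powersetCard (k + 1) →
      (x / (Real.log x) ^ (k + 1)) *
        (c * ∑ E ∈ B.powersetCard (k + 1), singularSeries (translate0 E) -
          C * ∑ E ∈ B.powersetCard (k + 1) \ G, singularSeries (translate0 E)) ≤
        ∑ E ∈ G, (tupleCount x (translate0 E) : ℝ) ∧
      ∑ E ∈ G, (tupleCount x (translate0 E) : ℝ) ≤ (x / (Real.log x) ^ (k + 1)) *
        (C * ∑ E ∈ G, singularSeries (translate0 E) +
          δ * ∑ E ∈ B.powersetCard (k + 1), singularSeries (translate0 E))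

lemma AD_mono {k : ℕ} {η η' c c' C C' δ δ' : ℝ} (h : AD k η c C δ) (hη : η ≤ η') (hc : c' ≤ c)
    (hC : C ≤ C') (hδ : δ ≤ δ') : AD k η' c' C' δ' := by
  intro A
  obtain ⟨X, hX⟩ := h A
  refine ⟨max X 2, fun x hx B hB hBη G hG => ?_⟩
  have hx2 : 2 ≤ x := (le_max_right _ _).trans hx
  have hL : 0 < Real.log x := Real.log_pos (by linarith)
  have hQ : 0 ≤ x / (Real.log x) ^ (k + 1) := by
    have : 0 ≤ x := by linarith
    positivity
  obtain ⟨h1, h2⟩ := hX x ((le_max_left _ _).trans hx) B hB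
    ((mul_le_mul_of_nonneg_right hη hL.le).trans hBη) G hG
  have hS : ∀ s : Finset (Finset ℕ), 0 ≤ ∑ E ∈ s, singularSeries (translate0 E) := fun s =>
    sum_nonneg fun E _ => singularSeries_nonneg _
  have s1 := mul_le_mul_of_nonneg_right hc (hS (B.powersetCard (k + 1)))
  have s2 := mul_le_mul_of_nonneg_right hC (hS (B.powersetCard (k + 1) \ G))
  have s3 := mul_le_mul_of_nonneg_right hC (hS G)
  have s4 := mul_le_mul_of_nonneg_right hδ (hS (B.powersetCard (k + 1)))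
  exact ⟨(mul_le_mul_of_nonneg_left (by linarith) hQ).trans h1,
    h2.trans (mul_le_mul_of_nonneg_left (by linarith) hQ)⟩

/-- the diagonal choice of the constants -/
theorem all_densities_of (k : ℕ)
    (hbig : ∀ ε : ℝ, 0 < ε → ∃ K : ℝ, 0 < K ∧ AD k K (1 - ε) (4 ^ k + ε) ε)
    (hsmall : ∀ η : ℝ, 0 < η → ∃ c C : ℝ, 0 < c ∧ 0 < C ∧ AD k η c C 1) :
    ∃ c C δ : ℝ → ℝ, (∀ η, 0 < η → 0 < c η) ∧ Tendsto c atTop (𝓝 1) ∧
      Tendsto C atTop (𝓝 (4 ^ k)) ∧ Tendsto δ atTop (𝓝 0) ∧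
      ∀ η : ℝ, 0 < η → AD k η (c η) (C η) (δ η) := by
  classical
  -- the set of admissible `ε`
  set T : ℝ → Set ℝ := fun η => {ε : ℝ | 0 < ε ∧ ε < 1 ∧ AD k η (1 - ε) (4 ^ k + ε) ε} with hT
  set e : ℝ → ℝ := fun η => sInf (T η) + 1 / η with he
  have hbd : ∀ η, BddBelow (T η) := fun η => ⟨0, fun ε hε => hε.1.le⟩
  have hinf0 : ∀ η, (T η).Nonempty → 0 ≤ sInf (T η) := fun η hη =>
    le_csInf hη fun ε hε => hε.1.le
  have hAD : ∀ η, 0 < η → (T η).Nonempty → AD k η (1 - e η) (4 ^ k + e η) (e η) := by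
    intro η hη hne
    obtain ⟨ε, hε, hlt⟩ := exists_lt_of_csInf_lt hne
      (show sInf (T η) < e η by simp only [he]; have : 0 < 1 / η := by positivity
                                linarith)
    exact AD_mono hε.2.2 le_rfl (by linarith) (by linarith) hlt.le
  have hev : ∀ ε : ℝ, 0 < ε → ∀ᶠ η in atTop, (T η).Nonempty ∧ 0 < η ∧ e η < ε := by
    intro ε hε
    obtain ⟨ε', hε', hε1, hεε⟩ : ∃ ε' : ℝ, 0 < ε' ∧ ε' < 1 ∧ ε' ≤ ε / 4 :=
      ⟨min (1 / 2) (ε / 4), by positivity, lt_of_le_of_lt (min_le_left _ _) (by norm_num),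
        min_le_right _ _⟩
    obtain ⟨K, hK, hKA⟩ := hbig ε' hε'
    filter_upwards [eventually_ge_atTop K, eventually_ge_atTop (4 / ε)] with η h1 h2
    have hη : 0 < η := lt_of_lt_of_le hK h1
    have hmem : ε' ∈ T η := ⟨hε', hε1, AD_mono hKA h1 le_rfl le_rfl le_rfl⟩
    refine ⟨⟨ε', hmem⟩, hη, ?_⟩
    have h3 : sInf (T η) ≤ ε' := csInf_le (hbd η) hmem
    have h4 : 1 / η ≤ ε / 4 := by
      rw [div_le_iff₀ hη]
      rw [div_le_iff₀ hε] at h2
      linarith
    simp only [he]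
    linarith
  have he0 : Tendsto e atTop (𝓝 0) := by
    rw [Metric.tendsto_atTop]
    intro ε hε
    obtain ⟨K, hK⟩ := eventually_atTop.1 (hev ε hε)
    refine ⟨K, fun η hη => ?_⟩
    obtain ⟨h1, h2, h3⟩ := hK η hη
    have h4 : 0 ≤ e η := by
      have h5 := hinf0 η h1
      have h6 : 0 < 1 / η := by positivity
      simp only [he]
      linarith
    rw [Real.dist_eq, sub_zero, abs_of_nonneg h4]
    exact h3
  choose! c1 C1 hc1 hC1 hA1 using hsmall
  -- the final choice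
  set P : ℝ → Prop := fun η => (T η).Nonempty ∧ 0 < η ∧ e η < 1 with hP
  have hPev : ∀ᶠ η in atTop, P η := hev 1 one_pos
  refine ⟨fun η => if P η then 1 - e η else c1 η, fun η => if P η then 4 ^ k + e η else C1 η,
    fun η => if P η then e η else 1, ?_, ?_, ?_, ?_, ?_⟩
  · intro η hη
    by_cases h : P η
    · simp only [if_pos h]
      linarith [h.2.2]
    · simp only [if_neg h]
      exact hc1 η hη
  · have h1 : Tendsto (fun η => 1 - e η) atTop (𝓝 (1 - 0)) := tendsto_const_nhds.sub he0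
    rw [sub_zero] at h1
    refine h1.congr' ?_
    filter_upwards [hPev] with η h
    rw [if_pos h]
  · have h1 : Tendsto (fun η => (4:ℝ) ^ k + e η) atTop (𝓝 (4 ^ k + 0)) := tendsto_const_nhds.add he0
    rw [add_zero] at h1
    refine h1.congr' ?_
    filter_upwards [hPev] with η h
    rw [if_pos h]
  · refine he0.congr' ?_
    filter_upwards [hPev] with η h
    rw [if_pos h]
  · intro η hη
    by_cases h : P η
    · simp only [if_pos h]
      exact hAD η hη h.1
    · simp only [if_neg h]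
      exact hA1 η hη

/-- the bound for many shifts -/
lemma big_AD (k : ℕ) (hk : 1 ≤ k) (ε : ℝ) (hε : 0 < ε) :
    ∃ K : ℝ, 0 < K ∧ AD k K (1 - ε) (4 ^ k + ε) ε := by
  obtain ⟨K, hK, h⟩ := Every34.every_family k hk ε hε
  refine ⟨K, hK, fun A => ?_⟩
  obtain ⟨X, hX⟩ := h A
  refine ⟨max X 2, fun x hx B hB hBK G hG => ?_⟩
  have hx2 : 2 ≤ x := (le_max_right _ _).trans hx
  have hL : 0 < Real.log x := Real.log_pos (by linarith)
  have hQ : 0 ≤ x / (Real.log x) ^ (k + 1) := by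
    have : 0 ≤ x := by linarith
    positivity
  obtain ⟨h1, h2⟩ := hX x ((le_max_left _ _).trans hx) B hB hBK G hG
  refine ⟨le_trans ?_ h1, h2⟩
  refine mul_le_mul_of_nonneg_left ?_ hQ
  have hS : 0 ≤ ∑ E ∈ B.powersetCard (k + 1) \ G, singularSeries (translate0 E) :=
    sum_nonneg fun E _ => singularSeries_nonneg _
  have := mul_nonneg hε.le hS
  linarith

end Pool.Agent.HLE
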