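import Mathlib
import Pool.Agent.HLE.Lower

/-!
The `k`-th moment of the number of compatible elements against the sum of the singular series.
-/

set_option autoImplicit false

namespace Pool.Agent.HLE

open Finset Filter H34P Pool.Agent.HLT Pool.Agent.HL26 Pool.Agent.Maynard

lemma pow_le_choose (k b : ℕ) : (b:ℝ) ^ (k + 1) - (k + 1) * k * (b:ℝ) ^ k ≤
    ((k + 1).factorial : ℝ) * (b.choose (k + 1) : ℝ) := by
  have h := choose_tangent k b (lam := (b:ℝ)) (Nat.cast_nonneg b)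
  refine le_trans (le_of_eq ?_) h
  ring

theorem mom_B (k : ℕ) (hk : 1 ≤ k) (δ : ℝ) (hδ : 0 < δ) : ∃ K : ℝ, 0 < K ∧
    ∀ᶠ N : ℕ in atTop, ∀ B : Finset ℕ, K * Real.log N ≤ B.card →
    ((N:ℝ) / Wp (wN N)) * ∑ a ∈ range (Wp (wN N)),
        (((Ba (wN N) B a).card : ℝ) / (cW (Wp (wN N)) * Real.log N)) ^ k ≤
      δ * (((N:ℝ) / (Real.log N) ^ (k + 1)) *
        ∑ E ∈ B.powersetCard (k + 1), singularSeries E) := by
  have hk0 : (1:ℝ) ≤ k := by exact_mod_cast hk
  have hf0 : (0:ℝ) < ((k + 1).factorial : ℝ) := by exact_mod_cast Nat.factorial_pos _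
  obtain ⟨δ1, hδ1, hδ11, hδ1δ⟩ : ∃ δ1 : ℝ, 0 < δ1 ∧ δ1 ≤ 1 ∧
      4 * ((k + 1).factorial : ℝ) * δ1 ≤ δ := by
    refine ⟨min 1 (δ / (4 * ((k + 1).factorial : ℝ))), by positivity, min_le_left _ _, ?_⟩
    have h := min_le_right (1:ℝ) (δ / (4 * ((k + 1).factorial : ℝ)))
    rw [le_div_iff₀ (by positivity)] at h
    linarith
  obtain ⟨w0, hw0⟩ := exists_nat_ge (2 * ((k:ℝ) + 1) ^ 2)
  refine ⟨2 / δ1, by positivity, ?_⟩
  filter_upwards [tendsto_logN.eventually_ge_atTop 1, eventually_ge_atTop 1,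
    tendsto_cWlog.eventually_ge_atTop (2 * ((k:ℝ) + 1) * k), ev_w_ge (max w0 1)]
    with N hL hN1 hcL hwN B hKB
  set w := wN N with hw
  have hw1 : 1 ≤ w := (le_max_right _ _).trans hwN
  have hwr : 2 * ((k:ℝ) + 1) ^ 2 ≤ w := by
    refine hw0.trans ?_
    exact_mod_cast (le_max_left _ _).trans hwN
  set L := Real.log (N:ℝ) with hLd
  have hL0 : 0 < L := by linarith
  have hN0 : (0:ℝ) < N := by exact_mod_cast hN1
  have hW0 : (0:ℝ) < Wp w := by exact_mod_cast SelDAux.Wp_pos w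
  have hc0 : 0 < cW (Wp w) := cW_pos (SelDAux.Wp_pos w)
  set c := cW (Wp w) with hcd
  set W : ℝ := (Wp w : ℝ) with hWd
  have hcL0 : 0 < c * L := by positivity
  set y : ℕ → ℝ := fun a => ((Ba w B a).card : ℝ) / (c * L) with hyd
  have hy0 : ∀ a, 0 ≤ y a := fun a => by
    simp only [hyd]
    positivity
  set Y := ∑ a ∈ range (Wp w), y a ^ (k + 1) with hY
  set Z := ∑ a ∈ range (Wp w), y a ^ k with hZ
  have hZ0 : 0 ≤ Z := sum_nonneg fun a _ => pow_nonneg (hy0 a) _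
  have hmean : ∑ a ∈ range (Wp w), y a = W * ((B.card : ℝ) / L) := by
    simp only [hyd]
    rw [← sum_div, sum_Ba, ← hWd, ← hcd]
    field_simp
  have hZY : Z ≤ δ1 * Y := by
    refine moment_le k (Wp w) y hy0 hδ1 ?_
    rw [hmean, ← hWd]
    apply mul_le_mul_of_nonneg_left _ hW0.le
    rw [le_div_iff₀ hL0]
    exact hKB
  -- the next moment
  have h2 := sum_choose_eq (range (Wp w)) B (fun a b => (a + b).Coprime (Wp w)) (k + 1)
  have h3 : ∑ a ∈ range (Wp w), ((Ba w B a).card.choose (k + 1) : ℝ) =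
      ∑ E ∈ B.powersetCard (k + 1), ((AC w E).card : ℝ) := by
    unfold Ba AC
    exact_mod_cast h2
  have h4 : ∑ E ∈ B.powersetCard (k + 1), ((AC w E).card : ℝ) =
      W * c ^ (k + 1) * ∑ E ∈ B.powersetCard (k + 1), SP (PPy w) E := by
    rw [mul_sum]
    refine sum_congr rfl fun E hE => ?_
    rw [AC_card_SP, (mem_powersetCard.1 hE).2]
  set S := ∑ E ∈ B.powersetCard (k + 1), SP (PPy w) E with hS
  have h5 : Y - ((k:ℝ) + 1) * k / (c * L) * Z ≤
      ((k + 1).factorial : ℝ) * (W / L ^ (k + 1) * S) := by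
    have h6 : ∀ a ∈ range (Wp w), y a ^ (k + 1) - ((k:ℝ) + 1) * k / (c * L) * y a ^ k ≤
        (1 / (c * L)) ^ (k + 1) * (((k + 1).factorial : ℝ) *
          ((Ba w B a).card.choose (k + 1) : ℝ)) := by
      intro a _
      have h7 := mul_le_mul_of_nonneg_left (pow_le_choose k (Ba w B a).card)
        (by positivity : 0 ≤ (1 / (c * L)) ^ (k + 1))
      refine le_trans (le_of_eq ?_) h7
      simp only [hyd]
      rw [div_pow, div_pow, one_div, inv_pow]
      field_simp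
      ring
    have h7 := sum_le_sum h6
    rw [sum_sub_distrib, ← mul_sum, ← mul_sum, ← mul_sum, h3, h4] at h7
    refine h7.trans (le_of_eq ?_)
    rw [div_pow, one_pow, mul_pow]
    field_simp
  have h6 : ((k:ℝ) + 1) * k / (c * L) * Z ≤ Y / 2 := by
    have h7 : ((k:ℝ) + 1) * k / (c * L) ≤ 1 / 2 := by
      rw [div_le_iff₀ hcL0]
      linarith
    have h8 : Z ≤ Y := by
      have hY0 : 0 ≤ Y := sum_nonneg fun a _ => pow_nonneg (hy0 a) _
      nlinarith
    calc ((k:ℝ) + 1) * k / (c * L) * Z ≤ 1 / 2 * Z := mul_le_mul_of_nonneg_right h7 hZ0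
      _ ≤ Y / 2 := by linarith
  have h7 : Y ≤ 2 * (((k + 1).factorial : ℝ) * (W / L ^ (k + 1) * S)) := by linarith
  have h8 : S ≤ 2 * ∑ E ∈ B.powersetCard (k + 1), singularSeries E := by
    rw [hS, mul_sum]
    refine sum_le_sum fun E hE => ?_
    have h9 := singularSeries_ge E w hw1
    rw [(mem_powersetCard.1 hE).2] at h9
    push_cast at h9
    have hwpos : (0:ℝ) < w := by exact_mod_cast hw1
    have h10 : ((k:ℝ) + 1) ^ 2 / w ≤ 1 / 2 := by
      rw [div_le_iff₀ hwpos]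
      linarith
    have hSP := SP_nonneg (PPy w) (PPy_prime w) E
    have h11 : 1 / 2 * SP (PPy w) E ≤ (1 - ((k:ℝ) + 1) ^ 2 / w) * SP (PPy w) E :=
      mul_le_mul_of_nonneg_right (by linarith) hSP
    linarith
  set T := ∑ E ∈ B.powersetCard (k + 1), singularSeries E with hT
  have hT0 : 0 ≤ T := sum_nonneg fun E _ => singularSeries_nonneg E
  have h9 : (N:ℝ) / W * Z ≤ (N:ℝ) / W * (δ1 * (2 * (((k + 1).factorial : ℝ) *
      (W / L ^ (k + 1) * (2 * T))))) := by
    apply mul_le_mul_of_nonneg_left _ (by positivity)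
    refine hZY.trans (mul_le_mul_of_nonneg_left (h7.trans ?_) hδ1.le)
    apply mul_le_mul_of_nonneg_left _ (by norm_num)
    apply mul_le_mul_of_nonneg_left _ hf0.le
    exact mul_le_mul_of_nonneg_left h8 (by positivity)
  refine h9.trans ?_
  have h10 : (N:ℝ) / W * (δ1 * (2 * (((k + 1).factorial : ℝ) * (W / L ^ (k + 1) * (2 * T))))) =
      (4 * ((k + 1).factorial : ℝ) * δ1) * ((N:ℝ) / L ^ (k + 1) * T) := by
    field_simp
    ring
  rw [h10]
  exact mul_le_mul_of_nonneg_right hδ1δ (by positivity)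

end Pool.Agent.HLE
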